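import Pool.Agent.Lib.MP_0dbebe_co.OneSub.Defs

/-!
# ENERGY: a large part on which all large subsets have nearly the same mean

Energy increment for the mean of a family of vectors of norm at most one.
-/

set_option autoImplicit false
set_option linter.unusedSectionVars false

namespace Pool.Agent.Lib.MP_0dbebe_co.OneSub

open Finset
open scoped Classical

section Abstract

variable {ι F : Type} [NormedAddCommGroup F] [InnerProductSpace ℝ F]

/-- The mean of the vectors `r u`, `u ∈ L`. -/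
noncomputable def meanVec (r : ι → F) (L : Finset ι) : F := ((L.card : ℝ)⁻¹) • ∑ u ∈ L, r u

theorem card_smul_meanVec (r : ι → F) {L : Finset ι} (hL : L.Nonempty) :
    (L.card : ℝ) • meanVec r L = ∑ u ∈ L, r u := by
  have h : (L.card : ℝ) ≠ 0 := by
    have := hL.card_pos
    positivity
  rw [meanVec, smul_smul, mul_inv_cancel₀ h, one_smul]

theorem norm_sum_le_card (r : ι → F) (hr : ∀ u, ‖r u‖ ≤ 1) (L : Finset ι) :
    ‖∑ u ∈ L, r u‖ ≤ L.card := by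
  calc ‖∑ u ∈ L, r u‖ ≤ ∑ u ∈ L, ‖r u‖ := norm_sum_le _ _
    _ ≤ ∑ u ∈ L, (1 : ℝ) := sum_le_sum fun u _ => hr u
    _ = L.card := by simp

theorem norm_meanVec_le (r : ι → F) (hr : ∀ u, ‖r u‖ ≤ 1) (L : Finset ι) :
    ‖meanVec r L‖ ≤ 1 := by
  rcases L.eq_empty_or_nonempty with h | h
  · subst h; simp [meanVec]
  · have h0 : (0 : ℝ) < L.card := by exact_mod_cast h.card_pos
    have h1 := norm_sum_le_card r hr L
    rw [meanVec, norm_smul, norm_inv, Real.norm_eq_abs, abs_of_pos h0]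
    rw [inv_mul_le_iff₀ h0]
    linarith

/-- The step of the energy increment. -/
theorem energy_step (r : ι → F) (hr : ∀ u, ‖r u‖ ≤ 1) (κ : ℝ) (hκ : 0 < κ) (B L : Finset ι)
    (hB : B.Nonempty) (hL : L ⊆ B)
    (hd : κ * B.card < ‖∑ u ∈ L, r u - (L.card : ℝ) • meanVec r B‖) :
    ∃ L' ⊆ B, L'.Nonempty ∧ κ * B.card ≤ 2 * L'.card ∧
      ‖meanVec r B‖ ^ 2 + κ ^ 2 ≤ ‖meanVec r L'‖ ^ 2 := by
  have hb : (0 : ℝ) < B.card := by exact_mod_cast hB.card_pos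
  set μ := meanVec r B with hμ
  set d := ∑ u ∈ L, r u - (L.card : ℝ) • μ with hdd
  have hμ1 : ‖μ‖ ≤ 1 := norm_meanVec_le r hr B
  have hsd : ∑ u ∈ B \ L, r u = (((B \ L).card : ℝ)) • μ - d := by
    have h1 : ∑ u ∈ B \ L, r u + ∑ u ∈ L, r u = ∑ u ∈ B, r u := sum_sdiff hL
    have h2 : ((B \ L).card : ℝ) = (B.card : ℝ) - L.card := by
      rw [card_sdiff_of_subset hL, Nat.cast_sub (card_le_card hL)]
    have h3 := card_smul_meanVec r hB
    rw [h2, sub_smul, h3, ← h1, hdd]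
    abel
  have hsL : ∑ u ∈ L, r u = (L.card : ℝ) • μ + d := by rw [hdd]; abel
  have hcard : (L.card : ℝ) + (B \ L).card = B.card := by
    have h2 : ((B \ L).card : ℝ) = (B.card : ℝ) - L.card := by
      rw [card_sdiff_of_subset hL, Nat.cast_sub (card_le_card hL)]
    rw [h2]; ring
  -- both parts are large
  have hn1 : ‖d‖ ≤ 2 * L.card := by
    have h1 := norm_sum_le_card r hr L
    have h2 : ‖(L.card : ℝ) • μ‖ ≤ L.card := by
      rw [norm_smul, Real.norm_eq_abs, abs_of_nonneg (Nat.cast_nonneg _)]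
      exact mul_le_of_le_one_right (Nat.cast_nonneg _) hμ1
    calc ‖d‖ ≤ ‖∑ u ∈ L, r u‖ + ‖(L.card : ℝ) • μ‖ := norm_sub_le _ _
      _ ≤ 2 * L.card := by linarith
  have hn2 : ‖d‖ ≤ 2 * (B \ L).card := by
    have h1 := norm_sum_le_card r hr (B \ L)
    have h2 : ‖((B \ L).card : ℝ) • μ‖ ≤ (B \ L).card := by
      rw [norm_smul, Real.norm_eq_abs, abs_of_nonneg (Nat.cast_nonneg _)]
      exact mul_le_of_le_one_right (Nat.cast_nonneg _) hμ1
    have h3 : d = (((B \ L).card : ℝ)) • μ - ∑ u ∈ B \ L, r u := by rw [hsd]; abel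
    calc ‖d‖ = ‖(((B \ L).card : ℝ)) • μ - ∑ u ∈ B \ L, r u‖ := by rw [← h3]
      _ ≤ ‖(((B \ L).card : ℝ)) • μ‖ + ‖∑ u ∈ B \ L, r u‖ := norm_sub_le _ _
      _ ≤ 2 * (B \ L).card := by linarith
  have hl : (0 : ℝ) < L.card := by nlinarith [mul_pos hκ hb]
  have hl' : (0 : ℝ) < (B \ L).card := by nlinarith [mul_pos hκ hb]
  have hLne : L.Nonempty := by
    rw [← card_pos]; exact_mod_cast hl
  have hLne' : (B \ L).Nonempty := by
    rw [← card_pos]; exact_mod_cast hl'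
  by_contra hcon
  push Not at hcon
  have h1 := hcon L hL hLne (by linarith)
  have h2 := hcon (B \ L) sdiff_subset hLne' (by linarith)
  -- norms of the sums
  have e1 : ‖∑ u ∈ L, r u‖ ^ 2 = (L.card : ℝ) ^ 2 * ‖meanVec r L‖ ^ 2 := by
    rw [← card_smul_meanVec r hLne, norm_smul, Real.norm_eq_abs, abs_of_pos hl]; ring
  have e2 : ‖∑ u ∈ B \ L, r u‖ ^ 2 = ((B \ L).card : ℝ) ^ 2 * ‖meanVec r (B \ L)‖ ^ 2 := by
    rw [← card_smul_meanVec r hLne', norm_smul, Real.norm_eq_abs, abs_of_pos hl']; ring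
  have e3 : ‖∑ u ∈ L, r u‖ ^ 2
      = (L.card : ℝ) ^ 2 * ‖μ‖ ^ 2 + 2 * L.card * inner ℝ μ d + ‖d‖ ^ 2 := by
    rw [hsL, norm_add_sq_real, norm_smul, Real.norm_eq_abs, abs_of_pos hl, real_inner_smul_left]
    ring
  have e4 : ‖∑ u ∈ B \ L, r u‖ ^ 2
      = ((B \ L).card : ℝ) ^ 2 * ‖μ‖ ^ 2 - 2 * (B \ L).card * inner ℝ μ d + ‖d‖ ^ 2 := by
    rw [hsd, norm_sub_sq_real, norm_smul, Real.norm_eq_abs, abs_of_pos hl', real_inner_smul_left]
    ring
  set l : ℝ := (L.card : ℝ) with hldef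
  set n : ℝ := ((B \ L).card : ℝ) with hndef
  set b : ℝ := (B.card : ℝ) with hbdef
  set p : ℝ := inner ℝ μ d with hp
  have f1 : l * ‖meanVec r L‖ ^ 2 = l * ‖μ‖ ^ 2 + 2 * p + ‖d‖ ^ 2 / l := by
    have : l ^ 2 * ‖meanVec r L‖ ^ 2 = l ^ 2 * ‖μ‖ ^ 2 + 2 * l * p + ‖d‖ ^ 2 := by
      rw [← e1, e3]
    field_simp
    linarith
  have f2 : n * ‖meanVec r (B \ L)‖ ^ 2 = n * ‖μ‖ ^ 2 - 2 * p + ‖d‖ ^ 2 / n := by
    have : n ^ 2 * ‖meanVec r (B \ L)‖ ^ 2 = n ^ 2 * ‖μ‖ ^ 2 - 2 * n * p + ‖d‖ ^ 2 := by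
      rw [← e2, e4]
    field_simp
    linarith
  have g1 : l * ‖meanVec r L‖ ^ 2 < l * (‖μ‖ ^ 2 + κ ^ 2) := mul_lt_mul_of_pos_left h1 hl
  have g2 : n * ‖meanVec r (B \ L)‖ ^ 2 < n * (‖μ‖ ^ 2 + κ ^ 2) := mul_lt_mul_of_pos_left h2 hl'
  have g3 : ‖d‖ ^ 2 / l + ‖d‖ ^ 2 / n < b * κ ^ 2 := by
    have : b = l + n := hcard.symm
    rw [this]
    nlinarith
  have g4 : b * κ ^ 2 ≤ ‖d‖ ^ 2 / l := by
    rw [le_div_iff₀ hl]
    have h5 : (κ * b) ^ 2 ≤ ‖d‖ ^ 2 := by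
      apply pow_le_pow_left₀ (mul_pos hκ hb).le hd.le
    have h6 : l ≤ b := by linarith
    have h7 : b * κ ^ 2 * l ≤ b * κ ^ 2 * b :=
      mul_le_mul_of_nonneg_left h6 (mul_nonneg hb.le (sq_nonneg κ))
    nlinarith
  have g5 : 0 < ‖d‖ ^ 2 / n := by
    have : 0 < ‖d‖ := lt_of_le_of_lt (mul_pos hκ hb).le hd
    exact div_pos (pow_pos this 2) hl'
  linarith

/-- Iterating the step. -/
theorem energy_iter (r : ι → F) (hr : ∀ u, ‖r u‖ ≤ 1) (κ : ℝ) (hκ : 0 < κ) (K₁ : ℕ)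
    (hK : 2 ≤ κ * K₁) (J : ℕ) : ∀ I : Finset ι, I.Nonempty →
      1 - ‖meanVec r I‖ ^ 2 ≤ J * κ ^ 2 → ∃ B ⊆ I, B.Nonempty ∧ I.card ≤ K₁ ^ J * B.card ∧
        ∀ L ⊆ B, ‖∑ u ∈ L, r u - (L.card : ℝ) • meanVec r B‖ ≤ κ * B.card := by
  have hK1 : 1 ≤ K₁ := by
    rcases Nat.eq_zero_or_pos K₁ with h | h
    · subst h; norm_num at hK
    · exact h
  induction J with
  | zero =>
    intro I hI hJ
    refine ⟨I, Subset.refl _, hI, by simp, ?_⟩
    intro L hL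
    by_contra hcon
    push Not at hcon
    obtain ⟨L', -, -, -, h4⟩ := energy_step r hr κ hκ I L hI hL hcon
    have h5 := norm_meanVec_le r hr L'
    have h6 : ‖meanVec r L'‖ ^ 2 ≤ 1 := by
      have := norm_nonneg (meanVec r L'); nlinarith
    simp at hJ
    have : 0 < κ ^ 2 := by positivity
    have h7 : (1 : ℝ) ≤ ‖meanVec r I‖ ^ 2 := by
      have := norm_nonneg (meanVec r I)
      nlinarith
    linarith
  | succ J ih =>
    intro I hI hJ
    by_cases hreg : ∀ L ⊆ I, ‖∑ u ∈ L, r u - (L.card : ℝ) • meanVec r I‖ ≤ κ * I.card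
    · refine ⟨I, Subset.refl _, hI, ?_, hreg⟩
      have : 1 ≤ K₁ ^ (J + 1) := Nat.one_le_pow _ _ hK1
      nlinarith [Nat.zero_le I.card]
    · push Not at hreg
      obtain ⟨L, hL, hd⟩ := hreg
      obtain ⟨L', h1, h2, h3, h4⟩ := energy_step r hr κ hκ I L hI hL hd
      have h5 : 1 - ‖meanVec r L'‖ ^ 2 ≤ J * κ ^ 2 := by
        push_cast at hJ
        linarith
      obtain ⟨B, hB1, hB2, hB3, hB4⟩ := ih L' h2 h5
      refine ⟨B, hB1.trans h1, hB2, ?_, hB4⟩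
      have h6 : I.card ≤ K₁ * L'.card := by
        have : (I.card : ℝ) ≤ K₁ * L'.card := by
          have hI0 : (0 : ℝ) ≤ I.card := Nat.cast_nonneg _
          have hK0 : (0 : ℝ) ≤ K₁ := Nat.cast_nonneg _
          have h7 : 2 * (I.card : ℝ) ≤ κ * K₁ * I.card := mul_le_mul_of_nonneg_right hK hI0
          have h8 : K₁ * (κ * I.card) ≤ K₁ * (2 * L'.card) := mul_le_mul_of_nonneg_left h3 hK0
          linarith
        exact_mod_cast this
      calc I.card ≤ K₁ * L'.card := h6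
        _ ≤ K₁ * (K₁ ^ J * B.card) := Nat.mul_le_mul_left _ hB3
        _ = K₁ ^ (J + 1) * B.card := by ring

/-- The abstract regularity lemma. -/
theorem energy_abstract (r : ι → F) (hr : ∀ u, ‖r u‖ ≤ 1) (κ : ℝ) (hκ : 0 < κ) (K₁ J : ℕ)
    (hK : 2 ≤ κ * K₁) (hJ : 1 ≤ J * κ ^ 2) (I : Finset ι) (hI : I.Nonempty) :
    ∃ B ⊆ I, B.Nonempty ∧ I.card ≤ K₁ ^ J * B.card ∧
      ∀ L ⊆ B, ∀ M ⊆ B, |inner ℝ (∑ u ∈ L, r u) (∑ v ∈ M, r v)
        - L.card * M.card * ‖meanVec r B‖ ^ 2| ≤ 2 * κ * (B.card : ℝ) ^ 2 := by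
  obtain ⟨B, h1, h2, h3, h4⟩ := energy_iter r hr κ hκ K₁ hK J I hI (by
    have := sq_nonneg ‖meanVec r I‖
    linarith)
  refine ⟨B, h1, h2, h3, ?_⟩
  intro L hL M hM
  set μ := meanVec r B with hμ
  have hμ1 : ‖μ‖ ≤ 1 := norm_meanVec_le r hr B
  have hL1 := h4 L hL
  have hM1 := h4 M hM
  have hLc : (L.card : ℝ) ≤ B.card := by exact_mod_cast card_le_card hL
  have hMc : (M.card : ℝ) ≤ B.card := by exact_mod_cast card_le_card hM
  have hb : (0 : ℝ) ≤ B.card := Nat.cast_nonneg _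
  set dL := ∑ u ∈ L, r u - (L.card : ℝ) • μ with hdL
  set dM := ∑ u ∈ M, r u - (M.card : ℝ) • μ with hdM
  have key : inner ℝ (∑ u ∈ L, r u) (∑ v ∈ M, r v) - L.card * M.card * ‖μ‖ ^ 2
      = inner ℝ dL (∑ v ∈ M, r v) + L.card * inner ℝ μ dM := by
    rw [hdL, hdM, inner_sub_left, inner_sub_right, real_inner_smul_left, real_inner_smul_right,
      real_inner_self_eq_norm_sq]
    ring
  rw [key]
  have b1 : |inner ℝ dL (∑ v ∈ M, r v)| ≤ (κ * B.card) * B.card := by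
    calc |inner ℝ dL (∑ v ∈ M, r v)| ≤ ‖dL‖ * ‖∑ v ∈ M, r v‖ := abs_real_inner_le_norm _ _
      _ ≤ (κ * B.card) * B.card := by
        apply mul_le_mul hL1 ((norm_sum_le_card r hr M).trans hMc) (norm_nonneg _)
        positivity
  have b2 : |(L.card : ℝ) * inner ℝ μ dM| ≤ B.card * (κ * B.card) := by
    rw [abs_mul, abs_of_nonneg (Nat.cast_nonneg _)]
    apply mul_le_mul hLc _ (abs_nonneg _) hb
    calc |inner ℝ μ dM| ≤ ‖μ‖ * ‖dM‖ := abs_real_inner_le_norm _ _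
      _ ≤ 1 * (κ * B.card) := mul_le_mul hμ1 hM1 (norm_nonneg _) (by norm_num)
      _ = κ * B.card := one_mul _
  calc |inner ℝ dL (∑ v ∈ M, r v) + L.card * inner ℝ μ dM|
      ≤ |inner ℝ dL (∑ v ∈ M, r v)| + |(L.card : ℝ) * inner ℝ μ dM| := abs_add_le _ _
    _ ≤ 2 * κ * (B.card : ℝ) ^ 2 := by nlinarith

end Abstract

/-- The row of `u` as a unit vector. -/
noncomputable def rowVec {V : Type} [Fintype V] (c : V → V → Bool) (u : V) : EuclideanSpace ℝ V :=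
  WithLp.toLp 2 (fun x => sg (c u x) / Real.sqrt (Fintype.card V))

theorem inner_rowVec {V : Type} [Fintype V] (c : V → V → Bool) (u v : V) :
    inner ℝ (rowVec c u) (rowVec c v) = G c u v := by
  rw [rowVec, rowVec, PiLp.inner_apply, G, sum_div]
  apply sum_congr rfl
  intro x _
  have h : Real.sqrt (Fintype.card V) * Real.sqrt (Fintype.card V) = Fintype.card V :=
    Real.mul_self_sqrt (Nat.cast_nonneg _)
  simp only [RCLike.inner_apply, conj_trivial]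
  rw [div_mul_div_comm, h]
  ring

theorem G_self {V : Type} [Fintype V] [Nonempty V] (c : V → V → Bool) (u : V) : G c u u = 1 := by
  rw [G]
  simp only [sg_mul_self]
  have : (Fintype.card V : ℝ) ≠ 0 := by
    exact_mod_cast Fintype.card_ne_zero
  simp [this]

theorem norm_rowVec {V : Type} [Fintype V] [Nonempty V] (c : V → V → Bool) (u : V) :
    ‖rowVec c u‖ = 1 := by
  have h : ‖rowVec c u‖ ^ 2 = 1 := by
    rw [← real_inner_self_eq_norm_sq, inner_rowVec, G_self]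
  have h2 := norm_nonneg (rowVec c u)
  nlinarith

theorem energy (κ : ℝ) (hκ : 0 < κ) : ∃ K : ℕ, 1 ≤ K ∧ ∀ (V : Type) [Fintype V]
    (c : V → V → Bool) (I : Finset V), I.Nonempty → ∃ B ⊆ I, B.Nonempty ∧ I.card ≤ K * B.card ∧
    ∃ g : ℝ, 0 ≤ g ∧ g ≤ 1 ∧ ∑ u ∈ B, ∑ v ∈ B, G c u v = g * (B.card : ℝ) ^ 2 ∧
    ∀ L ⊆ B, ∀ M ⊆ B, |∑ u ∈ L, ∑ v ∈ M, (G c u v - g)| ≤ κ * (B.card : ℝ) ^ 2 := by
  set δ : ℝ := κ / 2 with hδ
  have hδ0 : 0 < δ := by positivity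
  obtain ⟨K₁, hK₁⟩ := exists_nat_ge (2 / δ)
  obtain ⟨J, hJ⟩ := exists_nat_ge (1 / δ ^ 2)
  have hK : 2 ≤ δ * K₁ := by
    rw [div_le_iff₀ hδ0] at hK₁; linarith
  have hJ' : 1 ≤ J * δ ^ 2 := by
    rwa [div_le_iff₀ (by positivity)] at hJ
  have hK1 : 1 ≤ K₁ := by
    rcases Nat.eq_zero_or_pos K₁ with h | h
    · subst h; norm_num at hK
    · exact h
  refine ⟨K₁ ^ J, Nat.one_le_pow _ _ hK1, ?_⟩
  intro V _ c I hI
  have : Nonempty V := ⟨hI.choose⟩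
  have hr : ∀ u, ‖rowVec c u‖ ≤ 1 := fun u => (norm_rowVec c u).le
  obtain ⟨B, h1, h2, h3, h4⟩ := energy_abstract (rowVec c) hr δ hδ0 K₁ J hK hJ' I hI
  have hin : ∀ L M : Finset V, inner ℝ (∑ u ∈ L, rowVec c u) (∑ v ∈ M, rowVec c v)
      = ∑ u ∈ L, ∑ v ∈ M, G c u v := by
    intro L M
    rw [sum_inner]
    apply sum_congr rfl
    intro u _
    rw [inner_sum]
    apply sum_congr rfl
    intro v _
    exact inner_rowVec c u v
  have hμ := norm_meanVec_le (rowVec c) hr B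
  have hμ0 := norm_nonneg (meanVec (rowVec c) B)
  refine ⟨B, h1, h2, h3, ‖meanVec (rowVec c) B‖ ^ 2, by positivity, by nlinarith, ?_, ?_⟩
  · rw [← hin, real_inner_self_eq_norm_sq, ← card_smul_meanVec _ h2, norm_smul,
      Real.norm_eq_abs, abs_of_nonneg (Nat.cast_nonneg _)]
    ring
  · intro L hL M hM
    have h5 := h4 L hL M hM
    have h6 : ∑ u ∈ L, ∑ v ∈ M, (G c u v - ‖meanVec (rowVec c) B‖ ^ 2)
        = inner ℝ (∑ u ∈ L, rowVec c u) (∑ v ∈ M, rowVec c v)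
          - L.card * M.card * ‖meanVec (rowVec c) B‖ ^ 2 := by
      rw [hin]
      simp only [sum_sub_distrib, sum_const, nsmul_eq_mul]
      ring
    rw [h6]
    calc _ ≤ 2 * δ * (B.card : ℝ) ^ 2 := h5
      _ = κ * (B.card : ℝ) ^ 2 := by rw [hδ]; ring

end Pool.Agent.Lib.MP_0dbebe_co.OneSub
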