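import Mathlib

/-!
# One-subdivisions with even paths in 2-coloured complete graphs: definitions

`c u x` is the colour of the pair `u x` (row of `u`, column `x`); a column `x` agrees on `u, v`
if `c u x = c v x` and cuts `u, v` otherwise.
-/

set_option autoImplicit false
set_option linter.unusedSectionVars false

namespace Pool.Agent.Lib.MP_0dbebe_co.OneSub

open Finset

variable {V W : Type} [Fintype V] [Fintype W]

open scoped Classical in
/-- The edges of `H` as a finset. -/
noncomputable def E (H : SimpleGraph W) : Finset (Sym2 W) := univ.filter (fun e => e ∈ H.edgeSet)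

theorem mem_E {H : SimpleGraph W} {e : Sym2 W} : e ∈ E H ↔ e ∈ H.edgeSet := by
  classical
  simp [E]

open scoped Classical in
/-- Number of columns `x ∈ C` on which the rows of `u` and `v` agree. -/
noncomputable def agr (c : V → V → Bool) (C : Finset V) (u v : V) : ℕ :=
  (C.filter (fun x => c u x = c v x)).card

/-- The sign of a colour. -/
noncomputable def sg (b : Bool) : ℝ := if b then 1 else -1

theorem sg_mul_self (b : Bool) : sg b * sg b = 1 := by
  cases b <;> norm_num [sg]

/-- Normalised inner product of the rows of `u` and `v`. -/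
noncomputable def G (c : V → V → Bool) (u v : V) : ℝ :=
  (∑ x, sg (c u x) * sg (c v x)) / (Fintype.card V : ℝ)

open scoped Classical in
/-- The edges of `H` whose ends are mapped by `f` to a pair satisfying `P`. -/
noncomputable def hit (H : SimpleGraph W) (f : W → V) (P : V → V → Prop) : Finset (Sym2 W) :=
  (E H).filter (fun e => ∃ u v, e = s(u, v) ∧ P (f u) (f v))

theorem mem_hit {H : SimpleGraph W} {f : W → V} {P : V → V → Prop} {e : Sym2 W} :
    e ∈ hit H f P ↔ e ∈ H.edgeSet ∧ ∃ u v, e = s(u, v) ∧ P (f u) (f v) := by
  classical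
  unfold hit
  rw [mem_filter, mem_E]

theorem hit_mono {H : SimpleGraph W} {f : W → V} {P Q : V → V → Prop}
    (h : ∀ u v, P u v → Q u v) : hit H f P ⊆ hit H f Q := by
  intro e he
  rw [mem_hit] at he ⊢
  obtain ⟨h1, u, v, h2, h3⟩ := he
  exact ⟨h1, u, v, h2, h _ _ h3⟩

/-- An embedding into `B`, as a function to `V`. -/
def fn {B : Finset V} (φ : W ↪ B) : W → V := fun w => (φ w : V)

theorem fn_inj {B : Finset V} (φ : W ↪ B) : Function.Injective (fn φ) := by
  intro a b hab
  exact φ.injective (Subtype.ext hab)

theorem fn_mem {B : Finset V} (φ : W ↪ B) (w : W) : fn φ w ∈ B := (φ w).2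

end Pool.Agent.Lib.MP_0dbebe_co.OneSub
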