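import Pool.Agent.Lib.MP_0dbebe_co.OneSub.Marg

/-! Factorial moments over vertex disjoint edges. -/

set_option autoImplicit false

namespace Pool.Agent.Lib.MP_0dbebe_co.OneSub

open Finset
open scoped Classical

/-- The descending factorial is at least half of the power. -/
theorem descFactorial_half (b k : ℕ) (hk : k ^ 2 ≤ b) :
    (b : ℝ) ^ k ≤ 2 * (b.descFactorial k : ℝ) := by
  rcases Nat.eq_zero_or_pos b with h0 | hb
  · have hk0 : k = 0 := by
      rw [h0] at hk
      exact pow_eq_zero_iff (two_ne_zero) |>.1 (Nat.le_zero.1 hk)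
    rw [hk0]; norm_num
  have hbR : (0 : ℝ) < b := by exact_mod_cast hb
  have key : ∀ i : ℕ, i ≤ k → (b : ℝ) ^ i * (b - i * (i - 1) / 2) ≤ b * (b.descFactorial i : ℝ) := by
    intro i
    induction i with
    | zero => intro _; simp
    | succ i ih =>
      intro hi
      have hib : i ≤ b := by nlinarith [Nat.le_self_pow (two_ne_zero) k]
      rw [Nat.descFactorial_succ]
      push_cast [Nat.cast_sub hib]
      have h1 := ih (by omega)
      have hi0 : (0 : ℝ) ≤ i := by positivity
      have hbi : (0 : ℝ) ≤ b - i := by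
        have : (i : ℝ) ≤ b := by exact_mod_cast hib
        linarith
      have h2 : (b : ℝ) ^ i * (b - i * (i - 1) / 2) * (b - i) ≤ b * (b.descFactorial i : ℝ) * (b - i) :=
        mul_le_mul_of_nonneg_right h1 hbi
      have h3 : (b : ℝ) ^ (i + 1) * (b - (i + 1) * (i + 1 - 1) / 2) ≤
          (b : ℝ) ^ i * (b - i * (i - 1) / 2) * (b - i) := by
        have h4 : (0 : ℝ) ≤ (b : ℝ) ^ i := by positivity
        have hii : (0 : ℝ) ≤ (i : ℝ) * (i - 1) / 2 * i := by
          rcases Nat.eq_zero_or_pos i with h | h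
          · rw [h]; simp
          · have : (1 : ℝ) ≤ i := by exact_mod_cast h
            have : (0 : ℝ) ≤ (i : ℝ) - 1 := by linarith
            positivity
        have h5 : (b : ℝ) * (b - (i + 1) * (i + 1 - 1) / 2) ≤ (b - i * (i - 1) / 2) * (b - i) := by
          nlinarith
        calc (b : ℝ) ^ (i + 1) * (b - (i + 1) * (i + 1 - 1) / 2)
            = (b : ℝ) ^ i * (b * (b - (i + 1) * (i + 1 - 1) / 2)) := by ring
          _ ≤ (b : ℝ) ^ i * ((b - i * (i - 1) / 2) * (b - i)) := mul_le_mul_of_nonneg_left h5 h4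
          _ = _ := by ring
      calc (b : ℝ) ^ (i + 1) * (b - (i + 1) * (i + 1 - 1) / 2)
          ≤ (b : ℝ) ^ i * (b - i * (i - 1) / 2) * (b - i) := h3
        _ ≤ b * (b.descFactorial i : ℝ) * (b - i) := h2
        _ = b * ((b - i) * (b.descFactorial i : ℝ)) := by ring
  have h1 := key k le_rfl
  have hkR : (k : ℝ) ^ 2 ≤ b := by exact_mod_cast hk
  have hk0 : (0 : ℝ) ≤ k := by positivity
  have h2 : (b : ℝ) / 2 ≤ b - k * (k - 1) / 2 := by nlinarith
  have h3 : (b : ℝ) ^ k * (b / 2) ≤ b * (b.descFactorial k : ℝ) :=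
    (mul_le_mul_of_nonneg_left h2 (by positivity)).trans h1
  have h4 : (b : ℝ) * ((b : ℝ) ^ k) ≤ b * (2 * (b.descFactorial k : ℝ)) := by linarith
  exact le_of_mul_le_mul_left h4 hbR

/-- Two edges have no common vertex. -/
def Dj {W : Type} (e f : Sym2 W) : Prop := ∀ w, w ∈ e → w ∉ f

theorem Dj.symm {W : Type} {e f : Sym2 W} (h : Dj e f) : Dj f e := fun w hf he => h w he hf

/-- Tuples of pairwise disjoint edges of `F`. -/
noncomputable def tup {W : Type} [Fintype W] (F : Finset (Sym2 W)) (j : ℕ) :
    Finset (Fin j → Sym2 W) :=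
  (Fintype.piFinset fun _ => F).filter fun t => ∀ i i', i ≠ i' → Dj (t i) (t i')

/-- Few edges of `H` meet a given edge. -/
theorem card_meet {W : Type} [Fintype W] (H : SimpleGraph W) (e : Sym2 W) :
    ((E H).filter fun f => ¬ Dj e f).card ≤ 2 * Fintype.card W := by
  induction e using Sym2.ind with
  | _ a b =>
    have hsub : ((E H).filter fun f => ¬ Dj s(a, b) f) ⊆
        (univ.image fun w => s(a, w)) ∪ (univ.image fun w => s(b, w)) := by
      intro f hf
      rw [mem_filter] at hf
      have h1 := hf.2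
      unfold Dj at h1
      push Not at h1
      obtain ⟨w, hw, hwf⟩ := h1
      rw [Sym2.mem_iff] at hw
      rw [mem_union, mem_image, mem_image]
      rcases hw with rfl | rfl
      · left
        obtain ⟨y, rfl⟩ := hwf
        exact ⟨y, mem_univ _, rfl⟩
      · right
        obtain ⟨y, rfl⟩ := hwf
        exact ⟨y, mem_univ _, rfl⟩
    have h2 := card_le_card hsub
    have h3 := card_union_le (univ.image fun w => s(a, w)) (univ.image fun w : W => s(b, w))
    have h4 : (univ.image fun w => s(a, w)).card ≤ Fintype.card W := card_image_le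
    have h5 : (univ.image fun w : W => s(b, w)).card ≤ Fintype.card W := card_image_le
    omega

/-- Many tuples of disjoint edges. -/
theorem card_tup_ge {W : Type} [Fintype W] (H : SimpleGraph W) (F : Finset (Sym2 W))
    (hF : F ⊆ E H) (j : ℕ) (N : ℝ) (hN : 2 * j * (Fintype.card W : ℝ) < N) (hNF : N ≤ F.card) :
    (N - 2 * j * (Fintype.card W : ℝ)) ^ j ≤ ((tup F j).card : ℝ) := by
  have key : ∀ i : ℕ, i ≤ j → (N - 2 * j * (Fintype.card W : ℝ)) ^ i ≤ ((tup F i).card : ℝ) := by
    intro i
    induction i with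
    | zero =>
      intro _
      have h1 : (tup F 0).card = 1 := by
        have : tup F 0 = {fun i => i.elim0} := by
          ext t
          simp only [tup, mem_filter, Fintype.mem_piFinset, mem_singleton]
          constructor
          · intro _; ext i; exact i.elim0
          · intro _; exact ⟨fun i => i.elim0, fun i => i.elim0⟩
        rw [this, card_singleton]
      rw [h1]; simp
    | succ i ih =>
      intro hi
      have h1 := ih (by omega)
      have hnR : (0 : ℝ) ≤ Fintype.card W := by positivity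
      have hijR : (i : ℝ) ≤ j := by exact_mod_cast (by omega : i ≤ j)
      -- the new edges
      have h2 : ∀ t ∈ tup F i, N - 2 * j * (Fintype.card W : ℝ) ≤
          ((F.filter fun e => ∀ l, Dj (t l) e).card : ℝ) := by
        intro t _
        have hsub : F ⊆ (F.filter fun e => ∀ l, Dj (t l) e) ∪
            (univ.biUnion fun l : Fin i => (E H).filter fun f => ¬ Dj (t l) f) := by
          intro e he
          by_cases hD : ∀ l, Dj (t l) e
          · exact mem_union_left _ (mem_filter.2 ⟨he, hD⟩)
          · push Not at hD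
            obtain ⟨l, hl⟩ := hD
            exact mem_union_right _ (mem_biUnion.2 ⟨l, mem_univ _, mem_filter.2 ⟨hF he, hl⟩⟩)
        have h3 := card_le_card hsub
        have h4 := card_union_le (F.filter fun e => ∀ l, Dj (t l) e)
          (univ.biUnion fun l : Fin i => (E H).filter fun f => ¬ Dj (t l) f)
        have h5 : (univ.biUnion fun l : Fin i => (E H).filter fun f => ¬ Dj (t l) f).card ≤
            ∑ l : Fin i, ((E H).filter fun f => ¬ Dj (t l) f).card := card_biUnion_le
        have h6 : ∑ l : Fin i, ((E H).filter fun f => ¬ Dj (t l) f).card ≤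
            ∑ l : Fin i, 2 * Fintype.card W := sum_le_sum fun l _ => card_meet H (t l)
        rw [sum_const, card_univ, Fintype.card_fin, smul_eq_mul] at h6
        have h7 : F.card ≤ (F.filter fun e => ∀ l, Dj (t l) e).card + i * (2 * Fintype.card W) := by
          omega
        have h8 : (F.card : ℝ) ≤ ((F.filter fun e => ∀ l, Dj (t l) e).card : ℝ) +
            i * (2 * Fintype.card W) := by exact_mod_cast h7
        nlinarith
      -- the sigma type injects
      have h3 : ∑ t ∈ tup F i, (F.filter fun e => ∀ l, Dj (t l) e).card ≤ (tup F (i + 1)).card := by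
        rw [← card_sigma]
        apply card_le_card_of_injOn (fun p => Fin.snoc (α := fun _ => Sym2 W) p.1 p.2)
        · intro p hp
          rw [mem_coe, mem_sigma] at hp
          obtain ⟨hp1, hp2⟩ := hp
          rw [mem_filter] at hp2
          unfold tup at hp1
          rw [mem_filter, Fintype.mem_piFinset] at hp1
          rw [mem_coe]
          unfold tup
          rw [mem_filter, Fintype.mem_piFinset]
          constructor
          · intro l
            refine Fin.lastCases ?_ (fun l => ?_) l
            · simp only [Fin.snoc_last]; exact hp2.1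
            · simp only [Fin.snoc_castSucc]; exact hp1.1 l
          · intro l l' hll
            induction l using Fin.lastCases with
            | last =>
              induction l' using Fin.lastCases with
              | last => exact absurd rfl hll
              | cast l' =>
                simp only [Fin.snoc_last, Fin.snoc_castSucc]
                exact (hp2.2 l').symm
            | cast l =>
              induction l' using Fin.lastCases with
              | last =>
                simp only [Fin.snoc_last, Fin.snoc_castSucc]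
                exact hp2.2 l
              | cast l' =>
                simp only [Fin.snoc_castSucc]
                exact hp1.2 l l' (fun h => hll (by rw [h]))
        · rintro ⟨t, e⟩ _ ⟨t', e'⟩ _ hh
          have e1 : t = t' := by
            have := congrArg Fin.init hh
            simpa using this
          have e2 : e = e' := by
            have := congrFun hh (Fin.last i)
            simpa using this
          rw [e1, e2]
      have h4 : (tup F i).card • (N - 2 * j * (Fintype.card W : ℝ)) ≤
          ∑ t ∈ tup F i, ((F.filter fun e => ∀ l, Dj (t l) e).card : ℝ) :=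
        card_nsmul_le_sum _ _ _ h2
      have h5 : ∑ t ∈ tup F i, ((F.filter fun e => ∀ l, Dj (t l) e).card : ℝ) ≤
          ((tup F (i + 1)).card : ℝ) := by exact_mod_cast h3
      rw [nsmul_eq_mul] at h4
      have hpos : 0 ≤ N - 2 * j * (Fintype.card W : ℝ) := by linarith
      calc (N - 2 * j * (Fintype.card W : ℝ)) ^ (i + 1)
          = (N - 2 * j * (Fintype.card W : ℝ)) ^ i * (N - 2 * j * (Fintype.card W : ℝ)) := pow_succ _ _
        _ ≤ ((tup F i).card : ℝ) * (N - 2 * j * (Fintype.card W : ℝ)) :=
            mul_le_mul_of_nonneg_right h1 hpos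
        _ ≤ _ := h4.trans h5
  exact key j le_rfl

/-- For a fixed tuple of disjoint edges, few embeddings hit all of them. -/
theorem card_hit_all {V W : Type} [Fintype V] [Fintype W] (H : SimpleGraph W) (B : Finset V)
    (hWB : Fintype.card W ≤ B.card) (P : V → V → Prop) (hP : ∀ u v, P u v → P v u) (j : ℕ)
    (t : Fin j → Sym2 W) (ht : t ∈ tup (E H) j) :
    ((univ.filter fun φ : W ↪ B => ∀ i, t i ∈ hit H (fn φ) P).card : ℝ) *
      (B.card.descFactorial (2 * j) : ℝ) ≤
      (Fintype.card (W ↪ B) : ℝ) * (((B ×ˢ B).filter fun p => P p.1 p.2).card : ℝ) ^ j := by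
  unfold tup at ht
  rw [mem_filter, Fintype.mem_piFinset] at ht
  have hrep : ∀ i, ∃ a b : W, t i = s(a, b) := fun i => by
    induction t i using Sym2.ind with
    | _ a b => exact ⟨a, b, rfl⟩
  choose a b hab using hrep
  have hne : ∀ i, a i ≠ b i := by
    intro i h
    have h1 := mem_E.1 (ht.1 i)
    rw [hab i, h] at h1
    exact H.loopless.irrefl _ h1
  let f : Fin j × Bool → W := fun p => if p.2 then b p.1 else a p.1
  have hf : Function.Injective f := by
    rintro ⟨i, x⟩ ⟨i', x'⟩ h
    have hmem : ∀ (i : Fin j) (x : Bool), f (i, x) ∈ t i := by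
      intro i x
      rw [hab i]
      cases x
      · simp [f]
      · simp [f]
    have hii : i = i' := by
      by_contra hne'
      have h1 := ht.2 i i' hne' (f (i, x)) (hmem i x)
      rw [h] at h1
      exact h1 (hmem i' x')
    subst hii
    cases x <;> cases x' <;> simp [f] at h ⊢
    · exact hne i h
    · exact hne i h.symm
  have hm := marg (β := B) ⟨f, hf⟩ (by rw [Fintype.card_coe]; exact hWB)
    (fun g => if ∀ i, P (g (i, false)) (g (i, true)) then (1 : ℝ) else 0)
  have hcardα : Fintype.card (Fin j × Bool) = 2 * j := by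
    rw [Fintype.card_prod, Fintype.card_fin, Fintype.card_bool]; ring
  rw [hcardα, Fintype.card_coe] at hm
  have h1 : ((univ.filter fun φ : W ↪ B => ∀ i, t i ∈ hit H (fn φ) P).card : ℝ) ≤
      ∑ φ : W ↪ B, (if ∀ i, P (((⟨f, hf⟩ : Fin j × Bool ↪ W).trans φ) (i, false))
        (((⟨f, hf⟩ : Fin j × Bool ↪ W).trans φ) (i, true)) then (1 : ℝ) else 0) := by
    rw [← sum_boole]
    push_cast
    apply sum_le_sum
    intro φ _
    by_cases hh : ∀ i, t i ∈ hit H (fn φ) P
    · rw [if_pos hh, if_pos]
      intro i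
      have h2 := hh i
      rw [mem_hit, hab i] at h2
      obtain ⟨-, u, v, huv, hPuv⟩ := h2
      rw [Sym2.eq_iff] at huv
      have h3 : P (fn φ (a i)) (fn φ (b i)) := by
        rcases huv with ⟨e1, e2⟩ | ⟨e1, e2⟩
        · rw [e1, e2]; exact hPuv
        · rw [e1, e2]; exact hP _ _ hPuv
      exact h3
    · rw [if_neg hh]
      split_ifs <;> norm_num
  have h2 : ∑ g : Fin j × Bool ↪ B, (if ∀ i, P (g (i, false)) (g (i, true)) then (1 : ℝ) else 0) ≤
      (((B ×ˢ B).filter fun p => P p.1 p.2).card : ℝ) ^ j := by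
    rw [sum_boole]
    have h3 : (univ.filter fun g : Fin j × Bool ↪ B =>
        ∀ i, P (g (i, false)) (g (i, true))).card ≤
        (Fintype.piFinset fun _ : Fin j => (B ×ˢ B).filter fun p => P p.1 p.2).card := by
      apply card_le_card_of_injOn (fun g i => ((g (i, false) : V), (g (i, true) : V)))
      · intro g hg
        rw [mem_coe, mem_filter] at hg
        rw [mem_coe, Fintype.mem_piFinset]
        intro i
        rw [mem_filter, mem_product]
        exact ⟨⟨(g (i, false)).2, (g (i, true)).2⟩, hg.2 i⟩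
      · intro g _ g' _ hh
        ext ⟨i, x⟩
        have h4 := congrFun hh i
        have h5 := congrArg Prod.fst h4
        have h6 := congrArg Prod.snd h4
        cases x
        · exact h5
        · exact h6
    rw [Fintype.card_piFinset_const] at h3
    exact_mod_cast h3
  calc ((univ.filter fun φ : W ↪ B => ∀ i, t i ∈ hit H (fn φ) P).card : ℝ) *
      (B.card.descFactorial (2 * j) : ℝ)
      ≤ (∑ φ : W ↪ B, (if ∀ i, P (((⟨f, hf⟩ : Fin j × Bool ↪ W).trans φ) (i, false))
        (((⟨f, hf⟩ : Fin j × Bool ↪ W).trans φ) (i, true)) then (1 : ℝ) else 0)) *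
        (B.card.descFactorial (2 * j) : ℝ) := mul_le_mul_of_nonneg_right h1 (by positivity)
    _ = (Fintype.card (W ↪ B) : ℝ) * ∑ g : Fin j × Bool ↪ B,
        (if ∀ i, P (g (i, false)) (g (i, true)) then (1 : ℝ) else 0) := hm
    _ ≤ _ := mul_le_mul_of_nonneg_left h2 (by positivity)

theorem fm {V W : Type} [Fintype V] [Fintype W] (H : SimpleGraph W) (B : Finset V)
    (hWB : Fintype.card W ≤ B.card) (P : V → V → Prop)
    (hP : ∀ u v, P u v → P v u) (j : ℕ) (hb : 4 * j ^ 2 ≤ B.card) (N σ : ℝ)
    (hN : 2 * j * (Fintype.card W : ℝ) < N) (hσ0 : 0 ≤ σ)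
    (hσ : (((B ×ˢ B).filter fun p => P p.1 p.2).card : ℝ) ≤ σ * (B.card : ℝ) ^ 2) :
    ((univ.filter fun φ : W ↪ B => N ≤ ((hit H (fn φ) P).card : ℝ)).card : ℝ)
      * (N - 2 * j * (Fintype.card W : ℝ)) ^ j
      ≤ 2 * (Fintype.card (W ↪ B) : ℝ) * ((E H).card * σ) ^ j := by
  set n := Fintype.card W with hn
  set Q := (((B ×ˢ B).filter fun p => P p.1 p.2).card : ℝ) with hQ
  have hQ0 : 0 ≤ Q := by positivity
  set D := (B.card.descFactorial (2 * j) : ℝ) with hD
  have hD2 : ((B.card : ℝ) ^ 2) ^ j ≤ 2 * D := by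
    have h1 := descFactorial_half B.card (2 * j) (by
      calc (2 * j) ^ 2 = 4 * j ^ 2 := by ring
        _ ≤ B.card := hb)
    rw [← pow_mul]
    exact h1
  have hD0 : 0 ≤ D := by positivity
  -- the double count
  have hlow : ((univ.filter fun φ : W ↪ B => N ≤ ((hit H (fn φ) P).card : ℝ)).card : ℝ)
      * (N - 2 * j * (n : ℝ)) ^ j ≤ ∑ φ : W ↪ B, ((tup (hit H (fn φ) P) j).card : ℝ) := by
    calc ((univ.filter fun φ : W ↪ B => N ≤ ((hit H (fn φ) P).card : ℝ)).card : ℝ)
        * (N - 2 * j * (n : ℝ)) ^ j
        = ∑ φ ∈ univ.filter (fun φ : W ↪ B => N ≤ ((hit H (fn φ) P).card : ℝ)),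
          (N - 2 * j * (n : ℝ)) ^ j := by rw [sum_const, nsmul_eq_mul]
      _ ≤ ∑ φ ∈ univ.filter (fun φ : W ↪ B => N ≤ ((hit H (fn φ) P).card : ℝ)),
          ((tup (hit H (fn φ) P) j).card : ℝ) := by
          apply sum_le_sum
          intro φ hφ
          exact card_tup_ge H _ (filter_subset _ _) j N hN (mem_filter.1 hφ).2
      _ ≤ ∑ φ : W ↪ B, ((tup (hit H (fn φ) P) j).card : ℝ) := by
          apply sum_le_sum_of_subset_of_nonneg (filter_subset _ _)
          intro φ _ _
          positivity
  have hswap : ∑ φ : W ↪ B, ((tup (hit H (fn φ) P) j).card : ℝ) ≤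
      ∑ t ∈ tup (E H) j, ((univ.filter fun φ : W ↪ B => ∀ i, t i ∈ hit H (fn φ) P).card : ℝ) := by
    have h1 : ∀ φ : W ↪ B, (tup (hit H (fn φ) P) j).card ≤
        ((tup (E H) j).filter fun t => ∀ i, t i ∈ hit H (fn φ) P).card := by
      intro φ
      apply card_le_card
      intro t ht
      unfold tup at ht ⊢
      rw [mem_filter, Fintype.mem_piFinset] at ht
      rw [mem_filter, mem_filter, Fintype.mem_piFinset]
      exact ⟨⟨fun i => filter_subset _ _ (ht.1 i), ht.2⟩, ht.1⟩
    have h2 : ∑ φ : W ↪ B, ((tup (E H) j).filter fun t => ∀ i, t i ∈ hit H (fn φ) P).card =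
        ∑ t ∈ tup (E H) j, (univ.filter fun φ : W ↪ B => ∀ i, t i ∈ hit H (fn φ) P).card := by
      simp only [card_filter]
      rw [sum_comm]
    have h3 := sum_le_sum (s := (univ : Finset (W ↪ B))) fun φ _ => h1 φ
    rw [h2] at h3
    exact_mod_cast h3
  have hup : (∑ t ∈ tup (E H) j, ((univ.filter fun φ : W ↪ B =>
      ∀ i, t i ∈ hit H (fn φ) P).card : ℝ)) * D ≤
      ((E H).card : ℝ) ^ j * ((Fintype.card (W ↪ B) : ℝ) * Q ^ j) := by
    rw [sum_mul]
    calc ∑ t ∈ tup (E H) j, ((univ.filter fun φ : W ↪ B =>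
        ∀ i, t i ∈ hit H (fn φ) P).card : ℝ) * D
        ≤ ∑ t ∈ tup (E H) j, (Fintype.card (W ↪ B) : ℝ) * Q ^ j := by
          apply sum_le_sum
          intro t ht
          exact card_hit_all H B hWB P hP j t ht
      _ = ((tup (E H) j).card : ℝ) * ((Fintype.card (W ↪ B) : ℝ) * Q ^ j) := by
          rw [sum_const, nsmul_eq_mul]
      _ ≤ ((E H).card : ℝ) ^ j * ((Fintype.card (W ↪ B) : ℝ) * Q ^ j) := by
          apply mul_le_mul_of_nonneg_right _ (by positivity)
          have h4 : (tup (E H) j).card ≤ (E H).card ^ j := by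
            unfold tup
            calc _ ≤ (Fintype.piFinset fun _ : Fin j => E H).card := card_filter_le _ _
              _ = (E H).card ^ j := Fintype.card_piFinset_const _ _
          exact_mod_cast h4
  set X := ((univ.filter fun φ : W ↪ B => N ≤ ((hit H (fn φ) P).card : ℝ)).card : ℝ)
      * (N - 2 * j * (n : ℝ)) ^ j with hX
  have hX0 : 0 ≤ X := by
    have : 0 ≤ N - 2 * j * (n : ℝ) := by linarith
    positivity
  have h5 : X * D ≤ ((E H).card : ℝ) ^ j * ((Fintype.card (W ↪ B) : ℝ) * Q ^ j) :=
    (mul_le_mul_of_nonneg_right (hlow.trans hswap) hD0).trans hup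
  have hQj : Q ^ j ≤ (σ * (B.card : ℝ) ^ 2) ^ j := pow_le_pow_left₀ hQ0 hσ j
  have hDpos : 0 < D := by
    rw [hD]
    have : 0 < B.card.descFactorial (2 * j) := by
      apply Nat.descFactorial_pos.2
      nlinarith [Nat.le_self_pow (two_ne_zero) (2 * j)]
    exact_mod_cast this
  have h6 : X * D ≤ 2 * (Fintype.card (W ↪ B) : ℝ) * ((E H).card * σ) ^ j * D := by
    calc X * D ≤ ((E H).card : ℝ) ^ j * ((Fintype.card (W ↪ B) : ℝ) * Q ^ j) := h5
      _ ≤ ((E H).card : ℝ) ^ j * ((Fintype.card (W ↪ B) : ℝ) * (σ * (B.card : ℝ) ^ 2) ^ j) := by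
          apply mul_le_mul_of_nonneg_left _ (by positivity)
          apply mul_le_mul_of_nonneg_left hQj (by positivity)
      _ = (Fintype.card (W ↪ B) : ℝ) * ((E H).card * σ) ^ j * ((B.card : ℝ) ^ 2) ^ j := by
          rw [mul_pow, mul_pow]; ring
      _ ≤ (Fintype.card (W ↪ B) : ℝ) * ((E H).card * σ) ^ j * (2 * D) := by
          apply mul_le_mul_of_nonneg_left hD2
          positivity
      _ = _ := by ring
  exact le_of_mul_le_mul_right h6 hDpos

end Pool.Agent.Lib.MP_0dbebe_co.OneSub
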