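import Pool.Agent.Lib.MP_0dbebe_co.OneSub.LtB

/-!
# LT: few uncut edges are unlikely if the minority class is not tiny
-/

set_option autoImplicit false
set_option linter.unusedSectionVars false

namespace Pool.Agent.Lib.MP_0dbebe_co.OneSub

open Finset
open scoped Classical

section lt

variable {V W : Type} [Fintype V] [Fintype W]

/-- uncut edges between `A` and its complement -/
theorem cross_le_hit (H : SimpleGraph W) (f : W → V) (R : Finset V) (A : Finset W) :
    ∑ v ∈ A, (univ.filter fun u => (u ∉ A ∧ H.Adj v u) ∧ (f v ∈ R ↔ f u ∈ R)).card ≤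
      (hit H f fun u v => (u ∈ R ↔ v ∈ R)).card := by
  rw [← Finset.card_sigma]
  apply Finset.card_le_card_of_injOn (fun x : Σ _ : W, W => s(x.1, x.2))
  · intro x hx
    rw [mem_coe, mem_sigma, mem_filter] at hx
    rw [mem_coe, mem_hit]
    refine ⟨?_, x.1, x.2, rfl, hx.2.2.2⟩
    rw [SimpleGraph.mem_edgeSet]
    exact hx.2.2.1.2
  · intro x hx y hy hxy
    rw [mem_coe, mem_sigma, mem_filter] at hx hy
    simp only [Sym2.eq_iff] at hxy
    rcases hxy with ⟨h1, h2⟩ | ⟨h1, h2⟩
    · exact Sigma.ext h1 (heq_of_eq h2)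
    · exfalso
      apply hx.2.2.1.1
      rw [h2]; exact hy.1

theorem sum_sub (A : Finset W) (F : W → ℝ) :
    ∑ v : {v // ¬ ¬ v ∈ A}, F v = ∑ v ∈ A, F v :=
  (Finset.sum_subtype A (p := fun v => ¬ ¬ v ∈ A) (fun _ => not_not.symm) F).symm

/-- the bound for a fixed restriction to the complement of `A` -/
theorem fibre_bound (H : SimpleGraph W) (B R : Finset V) (A : Finset W) {D : ℝ} (hD : 0 < D)
    (hdeg : ∀ v ∈ A, (dg H v : ℝ) ≤ D)
    (hcr : 3 / 8 * ((E H).card : ℝ) ≤ ∑ v ∈ A, (outd H A v : ℝ))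
    (h12 : 12 * Fintype.card W ≤ B.card) (hRB : R ⊆ B) (hR2 : 2 * R.card ≤ B.card)
    (hR0 : 0 < R.card)
    (f : {v // ¬ v ∈ A} ↪ B) (hf : 2 * (univ.filter fun v => (f v : V) ∈ R).card ≤ R.card) :
    ((univ.filter fun g : {v // ¬ ¬ v ∈ A} ↪ ↥(Set.range f)ᶜ =>
      16 * B.card * (hit H (fn ((splitE (fun v => ¬ v ∈ A)).symm ⟨f, g⟩))
        fun u v => (u ∈ R ↔ v ∈ R)).card ≤ R.card * (E H).card).card : ℝ) ≤
      Real.exp (-((R.card : ℝ) / B.card * (E H).card / (192 * D))) *
        Fintype.card ({v // ¬ ¬ v ∈ A} ↪ ↥(Set.range f)ᶜ) := by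
  set r : ℝ := (R.card : ℝ) with hr
  set b : ℝ := (B.card : ℝ) with hb
  set m : ℝ := ((E H).card : ℝ) with hm
  have hr0 : 0 < r := by rw [hr]; exact_mod_cast hR0
  have hb0 : 0 < b := by
    rw [hb]; have : 0 < B.card := by omega
    exact_mod_cast this
  have hm0 : 0 ≤ m := Nat.cast_nonneg _
  have hrb : 2 * r ≤ b := by rw [hr, hb]; exact_mod_cast hR2
  -- sizes
  have hcB : Fintype.card B = B.card := by simp
  have hcA : Fintype.card {v // ¬ ¬ v ∈ A} = A.card := by
    simp
  have hcA' : Fintype.card {v // ¬ v ∈ A} = Fintype.card W - A.card := by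
    rw [Fintype.card_subtype_compl]; simp
  have hAW : A.card ≤ Fintype.card W := card_le_univ A
  have hcr' : Fintype.card ↥(Set.range f)ᶜ = B.card - (Fintype.card W - A.card) := by
    have h := card_rest f
    rw [hcB, hcA'] at h
    convert h
  set k : ℕ := Fintype.card ↥(Set.range f)ᶜ with hk
  have hkb : k ≤ B.card := by omega
  have hkl : 11 * B.card ≤ 12 * k := by omega
  have hαβ : Fintype.card {v // ¬ ¬ v ∈ A} ≤ Fintype.card ↥(Set.range f)ᶜ := by
    rw [← hk, hcA]; omega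
  -- the rest of R
  set R' : Finset ↥(Set.range f)ᶜ := univ.filter fun x => ((x : B) : V) ∈ R with hR'
  have hR'u : R'.card ≤ R.card := by
    apply Finset.card_le_card_of_injOn (fun x : ↥(Set.range f)ᶜ => ((x : B) : V))
    · intro x hx
      have := (mem_filter.mp (mem_coe.mp hx)).2
      exact mem_coe.mpr this
    · intro x _ y _ hxy
      exact Subtype.ext (Subtype.ext hxy)
  have hR'l : R.card ≤ R'.card + (univ.filter fun v => (f v : V) ∈ R).card := by
    have h1 : R ⊆ (R'.image fun x : ↥(Set.range f)ᶜ => ((x : B) : V)) ∪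
        ((univ.filter fun v : {v // ¬ v ∈ A} => (f v : V) ∈ R).image
          fun v : {v // ¬ v ∈ A} => (f v : V)) := by
      intro x hx
      rw [mem_union, mem_image, mem_image]
      by_cases h : (⟨x, hRB hx⟩ : B) ∈ Set.range f
      · obtain ⟨v, hv⟩ := h
        right
        refine ⟨v, ?_, by rw [hv]⟩
        rw [mem_filter]
        exact ⟨mem_univ _, by rw [hv]; exact hx⟩
      · left
        exact ⟨(⟨⟨x, hRB hx⟩, h⟩ : ↥(Set.range f)ᶜ),
          mem_filter.mpr ⟨mem_univ _, hx⟩, rfl⟩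
    refine (card_le_card h1).trans ((card_union_le _ _).trans ?_)
    exact Nat.add_le_add card_image_le card_image_le
  have hR'h : r ≤ 2 * (R'.card : ℝ) := by
    have : R.card ≤ 2 * R'.card := by omega
    rw [hr]; exact_mod_cast this
  have hkR : (k : ℝ) ≤ b := by rw [hb]; exact_mod_cast hkb
  have hkR' : 11 * b ≤ 12 * (k : ℝ) := by rw [hb]; exact_mod_cast hkl
  set q : ℝ := r / (2 * b) with hq
  have hq0 : 0 ≤ q := by positivity
  have hqk : q * k ≤ r / 2 := by
    rw [hq, div_mul_eq_mul_div, div_le_div_iff₀ (by positivity) (by norm_num)]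
    have := mul_le_mul_of_nonneg_left hkR hr0.le
    linarith
  -- weights
  set wa : {v // ¬ ¬ v ∈ A} → ℝ := fun v =>
    ((univ.filter fun u : {v // ¬ v ∈ A} => H.Adj v u ∧ (f u : V) ∈ R).card : ℝ) with hwa
  set wb : {v // ¬ ¬ v ∈ A} → ℝ := fun v =>
    ((univ.filter fun u : {v // ¬ v ∈ A} => H.Adj v u ∧ ¬ (f u : V) ∈ R).card : ℝ) with hwb
  have hout : ∀ v : {v // ¬ ¬ v ∈ A}, wa v + wb v = (outd H A v : ℝ) := by
    intro v
    have h1 : (univ.filter fun u : {v // ¬ v ∈ A} => H.Adj v u).card = outd H A v := by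
      unfold outd
      apply Finset.card_bij (fun (u : {v // ¬ v ∈ A}) _ => (u : W))
      · intro u hu
        rw [mem_filter] at hu ⊢
        exact ⟨mem_univ _, u.2, hu.2⟩
      · intro u _ u' _ h; exact Subtype.ext h
      · intro u hu
        rw [mem_filter] at hu
        exact ⟨⟨u, hu.2.1⟩, by rw [mem_filter]; exact ⟨mem_univ _, hu.2.2⟩, rfl⟩
    rw [← h1]
    have h2 := Finset.card_filter_add_card_filter_not
      (s := univ.filter fun u : {v // ¬ v ∈ A} => H.Adj v u) (fun u => (f u : V) ∈ R)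
    rw [Finset.filter_filter, Finset.filter_filter] at h2
    simp only [hwa, hwb]
    exact_mod_cast h2
  have hsumout : ∑ v : {v // ¬ ¬ v ∈ A}, (outd H A v : ℝ) = ∑ v ∈ A, (outd H A v : ℝ) := by
    exact sum_sub A (fun v => (outd H A v : ℝ))
  have hsum : 3 / 8 * m ≤ (∑ v, wa v) + ∑ v, wb v := by
    rw [← Finset.sum_add_distrib, Finset.sum_congr rfl (fun v _ => hout v), hsumout]
    exact hcr
  have hwa0 : ∀ v, 0 ≤ wa v := fun v => Nat.cast_nonneg _
  have hwb0 : ∀ v, 0 ≤ wb v := fun v => Nat.cast_nonneg _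
  have hoD : ∀ v : {v // ¬ ¬ v ∈ A}, (outd H A v : ℝ) ≤ D := by
    intro v
    refine le_trans ?_ (hdeg v (not_not.mp v.2))
    unfold outd dg
    have : (univ.filter fun u => u ∉ A ∧ H.Adj (v : W) u).card ≤
        (univ.filter fun u => H.Adj (v : W) u).card := by
      apply card_le_card
      intro u hu
      rw [mem_filter] at hu ⊢
      exact ⟨mem_univ _, hu.2.2⟩
    exact_mod_cast this
  have hwaD : ∀ v, wa v ≤ D := fun v => by linarith [hoD v, hout v, hwb0 v]
  have hwbD : ∀ v, wb v ≤ D := fun v => by linarith [hoD v, hout v, hwa0 v]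
  -- lower bound of the number of uncut edges
  have hU : ∀ g : {v // ¬ ¬ v ∈ A} ↪ ↥(Set.range f)ᶜ,
      ∑ v, (if g v ∈ R' then wa v else wb v) ≤
        ((hit H (fn ((splitE (fun v => ¬ v ∈ A)).symm ⟨f, g⟩)) fun u v => (u ∈ R ↔ v ∈ R)).card
          : ℝ) := by
    intro g
    have h1 := cross_le_hit H (fn ((splitE (fun v => ¬ v ∈ A)).symm ⟨f, g⟩)) R A
    have h1' : ((∑ v ∈ A, (univ.filter fun u => (u ∉ A ∧ H.Adj v u) ∧
        (fn ((splitE (fun v => ¬ v ∈ A)).symm ⟨f, g⟩) v ∈ R ↔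
          fn ((splitE (fun v => ¬ v ∈ A)).symm ⟨f, g⟩) u ∈ R)).card : ℕ) : ℝ) ≤
        ((hit H (fn ((splitE (fun v => ¬ v ∈ A)).symm ⟨f, g⟩)) fun u v => (u ∈ R ↔ v ∈ R)).card
          : ℝ) := by exact_mod_cast h1
    refine le_trans (le_of_eq ?_) h1'
    push_cast
    rw [← sum_sub A (fun v => ((univ.filter fun u => (u ∉ A ∧ H.Adj v u) ∧
      (fn ((splitE (fun v => ¬ v ∈ A)).symm ⟨f, g⟩) v ∈ R ↔
        fn ((splitE (fun v => ¬ v ∈ A)).symm ⟨f, g⟩) u ∈ R)).card : ℝ))]
    apply Finset.sum_congr rfl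
    · intro v _
      have hgv : fn ((splitE (fun v => ¬ v ∈ A)).symm ⟨f, g⟩) (v : W) = ((g v : B) : V) := by
        unfold fn
        rw [splitE_symm_neg (fun v => ¬ v ∈ A) ⟨f, g⟩ v]
      have hfu : ∀ u : {v // ¬ v ∈ A},
          fn ((splitE (fun v => ¬ v ∈ A)).symm ⟨f, g⟩) (u : W) = (f u : V) := by
        intro u
        unfold fn
        rw [splitE_symm_pos (fun v => ¬ v ∈ A) ⟨f, g⟩ u]
      rw [hgv]
      by_cases h : g v ∈ R'
      · have hgR : ((g v : B) : V) ∈ R := (mem_filter.mp h).2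
        rw [if_pos h]
        simp only [hwa]
        congr 1
        apply Finset.card_bij (fun (u : {v // ¬ v ∈ A}) _ => (u : W))
        · intro u hu
          rw [mem_filter] at hu ⊢
          refine ⟨mem_univ _, ⟨u.2, hu.2.1⟩, ?_⟩
          rw [hfu u]
          exact ⟨fun _ => hu.2.2, fun _ => hgR⟩
        · intro u _ u' _ h; exact Subtype.ext h
        · intro u hu
          rw [mem_filter] at hu
          refine ⟨⟨u, hu.2.1.1⟩, ?_, rfl⟩
          rw [mem_filter]
          refine ⟨mem_univ _, hu.2.1.2, ?_⟩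
          have := hu.2.2.mp hgR
          rwa [hfu ⟨u, hu.2.1.1⟩] at this
      · have hgR : ¬ ((g v : B) : V) ∈ R := fun h' => h (mem_filter.mpr ⟨mem_univ _, h'⟩)
        rw [if_neg h]
        simp only [hwb]
        congr 1
        apply Finset.card_bij (fun (u : {v // ¬ v ∈ A}) _ => (u : W))
        · intro u hu
          rw [mem_filter] at hu ⊢
          refine ⟨mem_univ _, ⟨u.2, hu.2.1⟩, ?_⟩
          rw [hfu u]
          exact ⟨fun h' => absurd h' hgR, fun h' => absurd h' hu.2.2⟩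
        · intro u _ u' _ h; exact Subtype.ext h
        · intro u hu
          rw [mem_filter] at hu
          refine ⟨⟨u, hu.2.1.1⟩, ?_, rfl⟩
          rw [mem_filter]
          refine ⟨mem_univ _, hu.2.1.2, fun h' => ?_⟩
          apply hgR
          apply hu.2.2.mpr
          rw [hfu ⟨u, hu.2.1.1⟩]
          exact h'
  -- the event
  have hev : ∀ g : {v // ¬ ¬ v ∈ A} ↪ ↥(Set.range f)ᶜ,
      16 * B.card * (hit H (fn ((splitE (fun v => ¬ v ∈ A)).symm ⟨f, g⟩))
        fun u v => (u ∈ R ↔ v ∈ R)).card ≤ R.card * (E H).card →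
      ∑ v, (if g v ∈ R' then wa v else wb v) ≤ r / b * m / 16 := by
    intro g hg
    refine (hU g).trans ?_
    have h1 : 16 * b * ((hit H (fn ((splitE (fun v => ¬ v ∈ A)).symm ⟨f, g⟩))
        fun u v => (u ∈ R ↔ v ∈ R)).card : ℝ) ≤ r * m := by
      rw [hb, hr, hm]; exact_mod_cast hg
    have e : r / b * m / 16 = r * m / (16 * b) := by field_simp
    rw [e, le_div_iff₀ (by positivity)]
    linarith
  have hεm : 0 ≤ r / b * m := by positivity
  -- final exponent
  have hfin : ∀ s : ℝ, 3 / 16 * m ≤ s →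
      Real.exp ((r / b * m / 16) / (3 * D) - 5 / 18 * q * s / D) ≤
        Real.exp (-(r / b * m / (192 * D))) := by
    intro s hs
    apply Real.exp_le_exp.mpr
    have h1 : 5 / 18 * q * (3 / 16 * m) / D ≤ 5 / 18 * q * s / D := by
      apply div_le_div_of_nonneg_right _ hD.le
      exact mul_le_mul_of_nonneg_left hs (by positivity)
    have h2 : 5 / 18 * q * (3 / 16 * m) / D = 5 * (r / b * m / (192 * D)) := by
      rw [hq]; field_simp; ring
    have h3 : (r / b * m / 16) / (3 * D) = 4 * (r / b * m / (192 * D)) := by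
      field_simp; ring
    linarith
  rcases le_total (3 / 16 * m) (∑ v, wa v) with hcase | hcase
  · have hch := chernoff hαβ R' hq0 (by rw [← hk]; linarith) wa (θ := r / b * m / 16) hD hwa0 hwaD
    refine le_trans ?_ (hch.trans (mul_le_mul_of_nonneg_right (hfin _ hcase) (Nat.cast_nonneg _)))
    have hsub : (univ.filter fun g : {v // ¬ ¬ v ∈ A} ↪ ↥(Set.range f)ᶜ =>
        16 * B.card * (hit H (fn ((splitE (fun v => ¬ v ∈ A)).symm ⟨f, g⟩))
          fun u v => (u ∈ R ↔ v ∈ R)).card ≤ R.card * (E H).card) ⊆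
        (univ.filter fun g : {v // ¬ ¬ v ∈ A} ↪ ↥(Set.range f)ᶜ =>
          ∑ v, (if g v ∈ R' then wa v else 0) ≤ r / b * m / 16) := by
      intro g hg
      rw [mem_filter] at hg ⊢
      refine ⟨mem_univ _, le_trans (Finset.sum_le_sum fun v _ => ?_) (hev g hg.2)⟩
      split_ifs
      · exact le_rfl
      · exact hwb0 v
    exact_mod_cast card_le_card hsub
  · have hcase' : 3 / 16 * m ≤ ∑ v, wb v := by linarith
    have hQ : q * (k : ℝ) ≤ ((R'ᶜ).card : ℝ) := by
      have hR'k : R'.card ≤ k := card_le_univ R'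
      rw [card_compl, ← hk, Nat.cast_sub hR'k]
      have : (R'.card : ℝ) ≤ r := by rw [hr]; exact_mod_cast hR'u
      linarith
    have hch := chernoff hαβ R'ᶜ hq0 (by rw [← hk]; exact hQ) wb (θ := r / b * m / 16) hD hwb0 hwbD
    refine le_trans ?_ (hch.trans (mul_le_mul_of_nonneg_right (hfin _ hcase') (Nat.cast_nonneg _)))
    have hsub : (univ.filter fun g : {v // ¬ ¬ v ∈ A} ↪ ↥(Set.range f)ᶜ =>
        16 * B.card * (hit H (fn ((splitE (fun v => ¬ v ∈ A)).symm ⟨f, g⟩))
          fun u v => (u ∈ R ↔ v ∈ R)).card ≤ R.card * (E H).card) ⊆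
        (univ.filter fun g : {v // ¬ ¬ v ∈ A} ↪ ↥(Set.range f)ᶜ =>
          ∑ v, (if g v ∈ R'ᶜ then wb v else 0) ≤ r / b * m / 16) := by
      intro g hg
      rw [mem_filter] at hg ⊢
      refine ⟨mem_univ _, le_trans (Finset.sum_le_sum fun v _ => ?_) (hev g hg.2)⟩
      by_cases h : g v ∈ R'
      · rw [if_neg (by simpa using h), if_pos h]
        exact hwa0 v
      · rw [if_pos (by simpa using h), if_neg h]
    exact_mod_cast card_le_card hsub

theorem lt_real (H : SimpleGraph W) (B R : Finset V) {D : ℝ} (hD : 0 < D)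
    (hD2 : 8 * ((E H).card : ℝ) ≤ D ^ 2)
    (h12 : 12 * Fintype.card W ≤ B.card) (hRB : R ⊆ B) (hR2 : 2 * R.card ≤ B.card)
    (hR0 : 0 < R.card) :
    ((univ.filter fun φ : W ↪ B =>
      16 * B.card * (hit H (fn φ) fun u v => (u ∈ R ↔ v ∈ R)).card ≤ R.card * (E H).card).card : ℝ)
      ≤ ((1 / 2) ^ (R.card / 2 + 1) + Real.exp (-((R.card : ℝ) / B.card * (E H).card / (192 * D)))) *
        Fintype.card (W ↪ B) := by
  obtain ⟨A, hdeg, hcr⟩ := exists_cross H hD hD2
  set δ : ℝ := Real.exp (-((R.card : ℝ) / B.card * (E H).card / (192 * D))) with hδ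
  have hδ0 : 0 ≤ δ := (Real.exp_pos _).le
  set EV : (W ↪ B) → Prop := fun φ =>
    16 * B.card * (hit H (fn φ) fun u v => (u ∈ R ↔ v ∈ R)).card ≤ R.card * (E H).card with hEV
  set p : W → Prop := fun v => ¬ v ∈ A with hp
  -- the set R inside B
  set RB : Finset B := univ.filter fun x => (x : V) ∈ R with hRBd
  have hRBc : RB.card = R.card := by
    apply Finset.card_bij (fun (x : B) _ => (x : V))
    · intro x hx; exact (mem_filter.mp hx).2
    · intro x _ y _ h; exact Subtype.ext h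
    · intro x hx; exact ⟨⟨x, hRB hx⟩, mem_filter.mpr ⟨mem_univ _, hx⟩, rfl⟩
  have hused := used_gen (α := W) RB (by simpa using h12) (card_pos.mp (by rw [hRBc]; exact hR0))
  rw [hRBc] at hused
  set US : Finset (W ↪ B) :=
    univ.filter fun φ : W ↪ B => R.card < 2 * (univ.filter fun v => φ v ∈ RB).card with hUS
  -- the rest
  have hrest : ((univ.filter fun φ : W ↪ B => EV φ ∧
      2 * (univ.filter fun v : {v // p v} => ((φ v : B) : V) ∈ R).card ≤ R.card).card : ℝ) ≤
      δ * Fintype.card (W ↪ B) := by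
    have h1 := card_split p (fun φ : W ↪ B => EV φ ∧
      2 * (univ.filter fun v : {v // p v} => ((φ v : B) : V) ∈ R).card ≤ R.card)
    have h1' : ((univ.filter fun φ : W ↪ B => EV φ ∧
      2 * (univ.filter fun v : {v // p v} => ((φ v : B) : V) ∈ R).card ≤ R.card).card : ℝ) =
      ∑ f : {v // p v} ↪ B, ((univ.filter fun g : {v // ¬ p v} ↪ ↥(Set.range f)ᶜ =>
        EV ((splitE p).symm ⟨f, g⟩) ∧ 2 * (univ.filter fun v : {v // p v} =>
          (((splitE p).symm ⟨f, g⟩ v : B) : V) ∈ R).card ≤ R.card).card : ℝ) := by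
      rw [← Nat.cast_sum]
      congr 1
      exact card_split_inst p (fun φ : W ↪ B => EV φ ∧
        2 * (univ.filter fun v : {v // p v} => ((φ v : B) : V) ∈ R).card ≤ R.card) _ _ _ _
    rw [h1']
    have h2 : (Fintype.card (W ↪ B) : ℝ) =
        ∑ f : {v // p v} ↪ B, (Fintype.card ({v // ¬ p v} ↪ ↥(Set.range f)ᶜ) : ℝ) := by
      rw [Fintype.card_congr (splitE p), Fintype.card_sigma]
      push_cast
      rfl
    rw [h2, Finset.mul_sum]
    apply Finset.sum_le_sum
    intro f _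
    have hval : ∀ (g : {v // ¬ p v} ↪ ↥(Set.range f)ᶜ) (v : {v // p v}),
        ((splitE p).symm ⟨f, g⟩ v : B) = f v := fun g v => splitE_symm_pos p ⟨f, g⟩ v
    by_cases hf : 2 * (univ.filter fun v : {v // p v} => (f v : V) ∈ R).card ≤ R.card
    · have h3 := fibre_bound H B R A hD hdeg hcr h12 hRB hR2 hR0 f hf
      refine le_trans ?_ h3
      have hsub : (univ.filter fun g : {v // ¬ p v} ↪ ↥(Set.range f)ᶜ =>
        EV ((splitE p).symm ⟨f, g⟩) ∧ 2 * (univ.filter fun v : {v // p v} =>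
          (((splitE p).symm ⟨f, g⟩ v : B) : V) ∈ R).card ≤ R.card) ⊆
          (univ.filter fun g : {v // ¬ p v} ↪ ↥(Set.range f)ᶜ =>
            EV ((splitE p).symm ⟨f, g⟩)) := by
        intro g hg
        rw [mem_filter] at hg ⊢
        exact ⟨hg.1, hg.2.1⟩
      exact_mod_cast card_le_card hsub
    · have h4 : (univ.filter fun g : {v // ¬ p v} ↪ ↥(Set.range f)ᶜ =>
        EV ((splitE p).symm ⟨f, g⟩) ∧ 2 * (univ.filter fun v : {v // p v} =>
          (((splitE p).symm ⟨f, g⟩ v : B) : V) ∈ R).card ≤ R.card) = ∅ := by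
        rw [Finset.filter_eq_empty_iff]
        rintro g _ ⟨_, h5⟩
        apply hf
        have : (univ.filter fun v : {v // p v} =>
          (((splitE p).symm ⟨f, g⟩ v : B) : V) ∈ R) =
            (univ.filter fun v : {v // p v} => (f v : V) ∈ R) := by
          ext v
          simp only [mem_filter, hval]
        rwa [this] at h5
      rw [h4, card_empty, Nat.cast_zero]
      exact mul_nonneg hδ0 (Nat.cast_nonneg _)
  -- union
  have hsub : (univ.filter fun φ : W ↪ B => EV φ) ⊆ US ∪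
      (univ.filter fun φ : W ↪ B => EV φ ∧
        2 * (univ.filter fun v : {v // p v} => ((φ v : B) : V) ∈ R).card ≤ R.card) := by
    intro φ hφ
    rw [mem_filter] at hφ
    rw [mem_union]
    by_cases h : R.card < 2 * (univ.filter fun v => φ v ∈ RB).card
    · left; exact mem_filter.mpr ⟨mem_univ _, h⟩
    · right
      rw [mem_filter]
      refine ⟨mem_univ _, hφ.2, ?_⟩
      push Not at h
      refine le_trans (Nat.mul_le_mul_left 2 ?_) h
      apply Finset.card_le_card_of_injOn (fun v : {v // p v} => (v : W))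
      · intro v hv
        have := (mem_filter.mp (mem_coe.mp hv)).2
        exact mem_coe.mpr (mem_filter.mpr ⟨mem_univ _, mem_filter.mpr ⟨mem_univ _, this⟩⟩)
      · intro v _ v' _ h; exact Subtype.ext h
  have hle : ((univ.filter fun φ : W ↪ B => EV φ).card : ℝ) ≤ (US.card : ℝ) +
      ((univ.filter fun φ : W ↪ B => EV φ ∧
        2 * (univ.filter fun v : {v // p v} => ((φ v : B) : V) ∈ R).card ≤ R.card).card : ℝ) := by
    have := (card_le_card hsub).trans (card_union_le _ _)
    exact_mod_cast this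
  have hused' : (US.card : ℝ) ≤ (1 / 2) ^ (R.card / 2 + 1) * Fintype.card (W ↪ B) := by
    rw [hUS]
    convert hused
  rw [add_mul]
  exact hle.trans (add_le_add hused' hrest)

end lt

lemma exists_t0 (c : ℝ) (hc : 0 < c) : ∃ t0 : ℝ, 1 ≤ t0 ∧ ∀ t : ℝ, t0 ≤ t →
    128 * t ^ 4 * Real.exp (-(c * t)) ≤ 1 := by
  have h1 := Real.tendsto_pow_mul_exp_neg_atTop_nhds_zero 4
  have h2 : Filter.Tendsto (fun t : ℝ => c * t) Filter.atTop Filter.atTop :=
    Filter.Tendsto.const_mul_atTop hc Filter.tendsto_id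
  have h3 := (h1.comp h2).const_mul (128 / c ^ 4)
  rw [mul_zero] at h3
  have h4 := (h3.eventually_le_const (show (0:ℝ) < 1 by norm_num)).and
    (Filter.eventually_ge_atTop (1 : ℝ))
  obtain ⟨t0, ht0⟩ := h4.exists_forall_of_atTop
  refine ⟨max t0 1, le_max_right _ _, fun t ht => ?_⟩
  have h5 := (ht0 t ((le_max_left _ _).trans ht)).1
  refine le_trans (le_of_eq ?_) h5
  simp only [Function.comp_apply]
  field_simp

/-- LT -/
theorem lt_lemma (K : ℕ) : ∃ C : ℝ, 1 ≤ C ∧ ∀ (V W : Type) [Fintype V] [Fintype W]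
    (H : SimpleGraph W) (B R : Finset V), Fintype.card W ≤ B.card → R ⊆ B →
    2 * R.card ≤ B.card → (B.card : ℝ) ^ 4 ≤ (R.card : ℝ) ^ 4 * (E H).card →
    (E H).card ≤ K * B.card → C * (Fintype.card W : ℝ) ≤ (E H).card → C ≤ (E H).card →
    64 * (E H).card * (univ.filter fun φ : W ↪ B =>
      16 * B.card * (hit H (fn φ) fun u v => (u ∈ R ↔ v ∈ R)).card ≤ R.card * (E H).card).card
      ≤ Fintype.card (W ↪ B) := by
  set c : ℝ := 1 / (4 * K + 576) with hc
  have hc0 : 0 < c := by positivity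
  obtain ⟨t0, ht01, ht0⟩ := exists_t0 c hc0
  refine ⟨t0 ^ 4 + 12 * K, ?_, ?_⟩
  · have : 1 ≤ t0 ^ 4 := one_le_pow₀ ht01
    have : (0:ℝ) ≤ K := Nat.cast_nonneg K
    linarith
  intro V W _ _ H B R hWB hRB hR2 h4 hK hC1 hC2
  set m : ℝ := ((E H).card : ℝ) with hm
  have hK0 : (0:ℝ) ≤ K := Nat.cast_nonneg K
  have ht04 : 1 ≤ t0 ^ 4 := one_le_pow₀ ht01
  have hm1 : 1 ≤ m := by linarith
  have hKb : m ≤ K * B.card := by rw [hm]; exact_mod_cast hK
  have hKpos : 0 < (K : ℝ) := by
    rcases hK0.eq_or_lt with h | h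
    · rw [← h, zero_mul] at hKb; linarith
    · exact h
  have hb0 : 0 < (B.card : ℝ) := by
    by_contra hcon
    have : (B.card : ℝ) ≤ 0 := not_lt.mp hcon
    have := mul_nonpos_of_nonneg_of_nonpos hK0 this
    linarith
  have hr0 : 0 < (R.card : ℝ) := by
    rcases (Nat.cast_nonneg R.card : (0:ℝ) ≤ R.card).eq_or_lt with h | h
    · rw [← h] at h4
      have : (0:ℝ) < (B.card : ℝ) ^ 4 := by positivity
      simp at h4
      linarith
    · exact h
  have hR0 : 0 < R.card := by exact_mod_cast hr0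
  -- 12 n ≤ b
  have h12 : 12 * Fintype.card W ≤ B.card := by
    have h1 : 12 * K * (Fintype.card W : ℝ) ≤ (t0 ^ 4 + 12 * K) * (Fintype.card W : ℝ) :=
      mul_le_mul_of_nonneg_right (by linarith) (Nat.cast_nonneg _)
    have h2 : (K : ℝ) * (12 * (Fintype.card W : ℝ)) ≤ K * B.card := by linarith
    have h3 : 12 * (Fintype.card W : ℝ) ≤ B.card := le_of_mul_le_mul_left h2 hKpos
    exact_mod_cast h3
  -- t
  set t : ℝ := Real.sqrt (Real.sqrt m) with ht
  have ht4 : t ^ 4 = m := by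
    have : t ^ 4 = (t ^ 2) ^ 2 := by ring
    rw [this, ht, Real.sq_sqrt (Real.sqrt_nonneg m), Real.sq_sqrt (by linarith)]
  have htnn : 0 ≤ t := Real.sqrt_nonneg _
  have htt0 : t0 ≤ t := by
    have h1 : t0 ^ 4 ≤ t ^ 4 := by rw [ht4]; linarith
    exact (pow_le_pow_iff_left₀ (by linarith) htnn (by norm_num)).mp h1
  have ht1 : 1 ≤ t := ht01.trans htt0
  have hbrt : (B.card : ℝ) ≤ R.card * t := by
    have h1 : (B.card : ℝ) ^ 4 ≤ (R.card * t) ^ 4 := by rw [mul_pow, ht4]; exact h4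
    exact (pow_le_pow_iff_left₀ hb0.le (by positivity) (by norm_num)).mp h1
  set D : ℝ := 3 * t ^ 2 with hD
  have hD0 : 0 < D := by positivity
  have hD2 : 8 * m ≤ D ^ 2 := by
    have : D ^ 2 = 9 * t ^ 4 := by rw [hD]; ring
    rw [this, ht4]; linarith
  have hmain := lt_real H B R hD0 hD2 h12 hRB hR2 hR0
  -- exponents
  have hε : 1 / t ≤ (R.card : ℝ) / B.card := by
    rw [div_le_div_iff₀ (by linarith) hb0]; linarith
  have hexp2 : Real.exp (-((R.card : ℝ) / B.card * (E H).card / (192 * D))) ≤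
      Real.exp (-(c * t)) := by
    apply Real.exp_le_exp.mpr
    apply neg_le_neg
    have h1 : c * t ≤ t / 576 := by
      rw [hc, one_div, inv_mul_eq_div]
      apply div_le_div_of_nonneg_left htnn (by norm_num) (by linarith)
    have h2 : t / 576 = (1 / t) * t ^ 4 / (192 * D) := by
      rw [hD]; field_simp; ring
    have h3 : (1 / t) * t ^ 4 / (192 * D) ≤ (R.card : ℝ) / B.card * (E H).card / (192 * D) := by
      apply div_le_div_of_nonneg_right _ (by positivity)
      rw [ht4]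
      exact mul_le_mul_of_nonneg_right hε (by linarith)
    linarith
  have hexp1 : (1 / 2 : ℝ) ^ (R.card / 2 + 1) ≤ Real.exp (-(c * t)) := by
    have h1 : (1 / 2 : ℝ) ≤ Real.exp (-(1 / 2)) := by
      have := Real.add_one_le_exp (-(1 / 2 : ℝ))
      linarith
    have h2 : (1 / 2 : ℝ) ^ (R.card / 2 + 1) ≤ Real.exp (-(1 / 2)) ^ (R.card / 2 + 1) :=
      pow_le_pow_left₀ (by norm_num) h1 _
    refine h2.trans ?_
    rw [← Real.exp_nat_mul]
    apply Real.exp_le_exp.mpr
    have h3 : (R.card : ℝ) / 2 ≤ ((R.card / 2 + 1 : ℕ) : ℝ) := by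
      have : R.card ≤ 2 * (R.card / 2 + 1) := by omega
      have : (R.card : ℝ) ≤ 2 * ((R.card / 2 + 1 : ℕ) : ℝ) := by exact_mod_cast this
      linarith
    have h4' : t ^ 3 ≤ K * (R.card : ℝ) := by
      have h5 : t ^ 3 * t ≤ (K * (R.card : ℝ)) * t := by
        calc t ^ 3 * t = m := by rw [← ht4]; ring
          _ ≤ K * B.card := hKb
          _ ≤ K * (R.card * t) := mul_le_mul_of_nonneg_left hbrt hK0
          _ = _ := by ring
      exact le_of_mul_le_mul_right h5 (by linarith)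
    have h6 : t ≤ t ^ 3 := by
      have : t * 1 ≤ t * t ^ 2 := mul_le_mul_of_nonneg_left (one_le_pow₀ ht1) htnn
      calc t = t * 1 := by ring
        _ ≤ t * t ^ 2 := this
        _ = t ^ 3 := by ring
    have h7 : c * t ≤ (R.card : ℝ) / 4 := by
      have h8 : c * t ≤ t / (4 * K) := by
        rw [hc, one_div, inv_mul_eq_div]
        apply div_le_div_of_nonneg_left htnn (by positivity) (by linarith)
      have h9 : t / (4 * K) ≤ (R.card : ℝ) / 4 := by
        rw [div_le_div_iff₀ (by positivity) (by norm_num)]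
        linarith
      linarith
    linarith
  have h64 := ht0 t htt0
  have hfin : 64 * m * ((1 / 2) ^ (R.card / 2 + 1) +
      Real.exp (-((R.card : ℝ) / B.card * (E H).card / (192 * D)))) ≤ 1 := by
    have h1 : (1 / 2 : ℝ) ^ (R.card / 2 + 1) +
        Real.exp (-((R.card : ℝ) / B.card * (E H).card / (192 * D))) ≤
        2 * Real.exp (-(c * t)) := by linarith
    have h2 := mul_le_mul_of_nonneg_left h1 (show 0 ≤ 64 * m by linarith)
    have h3 : 64 * m * (2 * Real.exp (-(c * t))) = 128 * t ^ 4 * Real.exp (-(c * t)) := by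
      rw [ht4]; ring
    linarith
  have h5 := mul_le_mul_of_nonneg_left hmain (show 0 ≤ 64 * m by linarith)
  have h6 : 64 * m * (((1 / 2) ^ (R.card / 2 + 1) +
      Real.exp (-((R.card : ℝ) / B.card * (E H).card / (192 * D)))) *
        Fintype.card (W ↪ B)) ≤ 1 * Fintype.card (W ↪ B) := by
    rw [← mul_assoc]
    exact mul_le_mul_of_nonneg_right hfin (Nat.cast_nonneg _)
  rw [one_mul] at h6
  have h7 := h5.trans h6
  rw [hm] at h7
  exact_mod_cast h7

end Pool.Agent.Lib.MP_0dbebe_co.OneSub
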