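import Pool.Agent.Lib.MP_0dbebe_co.OneSub.Fm
import Pool.Agent.Lib.MP_0dbebe_co.OneSub.Lt

/-!
# AONE: condition A1 for most embeddings
-/

set_option autoImplicit false
set_option linter.unusedSectionVars false

namespace Pool.Agent.Lib.MP_0dbebe_co.OneSub

open Finset
open scoped Classical

/-- The minority class of the column `x` in `B`. -/
noncomputable def minor {V : Type} (c : V → V → Bool) (B : Finset V) (x : V) : Finset V :=
  if 2 * (B.filter fun u => c u x = true).card ≤ B.card then B.filter fun u => c u x = true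
  else B.filter fun u => c u x = false

theorem minor_subset {V : Type} (c : V → V → Bool) (B : Finset V) (x : V) : minor c B x ⊆ B := by
  unfold minor
  split_ifs
  · exact filter_subset _ _
  · exact filter_subset _ _

theorem minor_card {V : Type} (c : V → V → Bool) (B : Finset V) (x : V) :
    2 * (minor c B x).card ≤ B.card := by
  unfold minor
  split_ifs with h
  · exact h
  · have h1 : (B.filter fun u => c u x = true).card + (B.filter fun u => ¬ c u x = true).card
        = B.card := card_filter_add_card_filter_not _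
    have h2 : (B.filter fun u => ¬ c u x = true) = B.filter fun u => c u x = false := by
      apply filter_congr
      intro u _
      simp
    rw [h2] at h1
    omega

theorem minor_iff {V : Type} (c : V → V → Bool) (B : Finset V) (x : V) {u v : V} (hu : u ∈ B)
    (hv : v ∈ B) : (u ∈ minor c B x ↔ v ∈ minor c B x) ↔ c u x = c v x := by
  unfold minor
  split_ifs with h
  · simp only [mem_filter, hu, hv, true_and]
    cases c u x <;> cases c v x <;> simp
  · simp only [mem_filter, hu, hv, true_and]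
    cases c u x <;> cases c v x <;> simp

theorem cut_pairs_card {V : Type} [Fintype V] (c : V → V → Bool) (B : Finset V) (x : V) :
    (((B ×ˢ B).filter fun p => c p.1 x ≠ c p.2 x).card : ℝ)
      ≤ 2 * (minor c B x).card * (B.card - (minor c B x).card) := by
  have hsub : ((B ×ˢ B).filter fun p => c p.1 x ≠ c p.2 x)
      ⊆ (minor c B x ×ˢ (B \ minor c B x)) ∪ ((B \ minor c B x) ×ˢ minor c B x) := by
    intro p hp
    rw [mem_filter, mem_product] at hp
    obtain ⟨⟨h1, h2⟩, h3⟩ := hp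
    have h4 := minor_iff c B x h1 h2
    rw [mem_union, mem_product, mem_product, mem_sdiff, mem_sdiff]
    by_cases h5 : p.1 ∈ minor c B x
    · left
      refine ⟨h5, h2, fun h6 => h3 (h4.1 ⟨fun _ => h6, fun _ => h5⟩)⟩
    · right
      refine ⟨⟨h1, h5⟩, ?_⟩
      by_contra h6
      exact h3 (h4.1 ⟨fun h => absurd h h5, fun h => absurd h h6⟩)
  have h1 := (card_le_card hsub).trans (card_union_le _ _)
  rw [card_product, card_product, card_sdiff_of_subset (minor_subset c B x)] at h1
  have h2 : (minor c B x).card ≤ B.card := card_le_card (minor_subset c B x)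
  have h3 : ((B.card - (minor c B x).card : ℕ) : ℝ) = B.card - (minor c B x).card :=
    Nat.cast_sub h2
  have h4 : (((B ×ˢ B).filter fun p => c p.1 x ≠ c p.2 x).card : ℝ)
      ≤ ((minor c B x).card * (B.card - (minor c B x).card)
        + (B.card - (minor c B x).card) * (minor c B x).card : ℕ) := by exact_mod_cast h1
  rw [Nat.cast_add, Nat.cast_mul, Nat.cast_mul, h3] at h4
  linarith

/-- Uncut and cut edges are complementary. -/
theorem hit_add_hit {V W : Type} [Fintype V] [Fintype W] (H : SimpleGraph W) (c : V → V → Bool)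
    (B : Finset V) (x : V) (φ : W ↪ B) :
    (hit H (fn φ) fun u v => c u x ≠ c v x).card
      + (hit H (fn φ) fun u v => (u ∈ minor c B x ↔ v ∈ minor c B x)).card = (E H).card := by
  rw [← card_union_of_disjoint]
  · congr 1
    ext e
    rw [mem_union, mem_hit, mem_hit, mem_E]
    constructor
    · rintro (⟨h, -⟩ | ⟨h, -⟩) <;> exact h
    · intro he
      induction e using Sym2.ind with
      | _ u v =>
        by_cases h : c (fn φ u) x = c (fn φ v) x
        · right
          exact ⟨he, u, v, rfl, (minor_iff c B x (fn_mem φ u) (fn_mem φ v)).2 h⟩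
        · left
          exact ⟨he, u, v, rfl, h⟩
  · rw [disjoint_left]
    intro e h1 h2
    rw [mem_hit] at h1 h2
    obtain ⟨-, u, v, h3, h4⟩ := h1
    obtain ⟨-, u', v', h5, h6⟩ := h2
    rw [minor_iff c B x (fn_mem φ u') (fn_mem φ v')] at h6
    rw [h3] at h5
    rcases Sym2.eq_iff.1 h5 with ⟨h7, h8⟩ | ⟨h7, h8⟩
    · rw [h7, h8] at h4; exact h4 h6
    · rw [h7, h8] at h4; exact h4 h6.symm

/-- The factorial moment bound for the event that `x` cuts three quarters of the edges. -/
theorem a1_fm {V W : Type} [Fintype V] [Fintype W] (H : SimpleGraph W) (c : V → V → Bool)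
    (B : Finset V) (hWB : Fintype.card W ≤ B.card) (hb : 7056 ≤ B.card)
    (hn : 1008 * (Fintype.card W : ℝ) ≤ (E H).card) (hm : (1 : ℝ) ≤ (E H).card) (x : V) :
    ((univ.filter fun φ : W ↪ B =>
      3 * (E H).card ≤ 4 * (hit H (fn φ) fun u v => c u x ≠ c v x).card).card : ℝ)
      ≤ 2 * (Fintype.card (W ↪ B) : ℝ)
        * (3 * ((minor c B x).card / B.card) * (1 - (minor c B x).card / B.card)) ^ 42 := by
  set m : ℝ := ((E H).card : ℝ) with hmdef
  set b : ℝ := (B.card : ℝ) with hbdef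
  set ρ : ℝ := ((minor c B x).card : ℝ) with hρdef
  have hb0 : (0 : ℝ) < b := by
    have : (7056 : ℝ) ≤ b := by rw [hbdef]; exact_mod_cast hb
    linarith
  have hρb : ρ ≤ b := by
    rw [hρdef, hbdef]; exact_mod_cast card_le_card (minor_subset c B x)
  have hρ0 : 0 ≤ ρ := by rw [hρdef]; exact Nat.cast_nonneg _
  have h1 := fm H B hWB (fun u v => c u x ≠ c v x) (fun u v h => h.symm) 42 (by omega)
    (3 * m / 4) (2 * (ρ / b) * (1 - ρ / b)) (by push_cast; linarith) (by
      apply mul_nonneg (by positivity)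
      rw [sub_nonneg, div_le_one hb0]; exact hρb) (by
      have h2 := cut_pairs_card c B x
      have h3 : 2 * (ρ / b) * (1 - ρ / b) * b ^ 2 = 2 * ρ * (b - ρ) := by
        field_simp
      rw [h3]
      convert h2)
  have hset : (univ.filter fun φ : W ↪ B =>
      3 * (E H).card ≤ 4 * (hit H (fn φ) fun u v => c u x ≠ c v x).card)
      = univ.filter fun φ : W ↪ B =>
        3 * m / 4 ≤ ((hit H (fn φ) fun u v => c u x ≠ c v x).card : ℝ) := by
    apply filter_congr
    intro φ _
    rw [div_le_iff₀ (by norm_num), hmdef]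
    constructor
    · intro h
      have : (3 : ℝ) * (E H).card ≤ 4 * (hit H (fn φ) fun u v => c u x ≠ c v x).card := by
        exact_mod_cast h
      linarith
    · intro h
      have : (3 : ℝ) * (E H).card ≤ 4 * (hit H (fn φ) fun u v => c u x ≠ c v x).card := by
        linarith
      exact_mod_cast this
  rw [hset]
  set Q : ℝ := ((univ.filter fun φ : W ↪ B =>
        3 * m / 4 ≤ ((hit H (fn φ) fun u v => c u x ≠ c v x).card : ℝ)).card : ℝ) with hQ
  have hQ0 : 0 ≤ Q := by rw [hQ]; exact Nat.cast_nonneg _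
  have h4 : (2 * m / 3) ^ 42 ≤ (3 * m / 4 - 2 * ((42 : ℕ) : ℝ) * (Fintype.card W : ℝ)) ^ 42 := by
    apply pow_le_pow_left₀ (by linarith)
    push_cast
    linarith
  have h5 : Q * (2 * m / 3) ^ 42
      ≤ 2 * (Fintype.card (W ↪ B) : ℝ) * (m * (2 * (ρ / b) * (1 - ρ / b))) ^ 42 :=
    (mul_le_mul_of_nonneg_left h4 hQ0).trans h1
  have h6 : (m * (2 * (ρ / b) * (1 - ρ / b))) = (2 * m / 3) * (3 * (ρ / b) * (1 - ρ / b)) := by
    ring
  rw [h6, mul_pow, mul_comm ((2 * m / 3) ^ 42) _, ← mul_assoc] at h5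
  have h7 : (0 : ℝ) < (2 * m / 3) ^ 42 := pow_pos (by linarith) 42
  exact le_of_mul_le_mul_right h5 h7

theorem real_aux {e : ℝ} (he0 : 0 ≤ e) (he1 : e ≤ 1 / 2) :
    0 ≤ 3 * e * (1 - e) ∧ 3 * e * (1 - e) ≤ 3 / 4 ∧ 3 * e * (1 - e) ≤ 3 * e := by
  refine ⟨?_, ?_, ?_⟩
  · nlinarith
  · nlinarith [sq_nonneg (e - 1 / 2)]
  · nlinarith

theorem real_aux2 {e : ℝ} (he0 : 0 ≤ e) (he1 : e ≤ 1 / 2) :
    (3 * e * (1 - e)) ^ 42 ≤ e ^ 2 * (1 / 8192) := by
  obtain ⟨h1, h2, h3⟩ := real_aux he0 he1
  calc (3 * e * (1 - e)) ^ 42 = (3 * e * (1 - e)) ^ 2 * (3 * e * (1 - e)) ^ 40 := by ring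
    _ ≤ (3 * e) ^ 2 * (3 / 4) ^ 40 := by
      apply mul_le_mul (pow_le_pow_left₀ h1 h3 2) (pow_le_pow_left₀ h1 h2 40) (by positivity)
        (by positivity)
    _ = e ^ 2 * (9 * (3 / 4) ^ 40) := by ring
    _ ≤ e ^ 2 * (1 / 8192) := by
      apply mul_le_mul_of_nonneg_left _ (sq_nonneg e)
      norm_num

theorem real_aux3 {e : ℝ} (he0 : 0 ≤ e) (he1 : e ≤ 1 / 2) :
    (3 * e * (1 - e)) ^ 42 ≤ 6561 * (e ^ 4) ^ 2 := by
  obtain ⟨h1, h2, h3⟩ := real_aux he0 he1
  calc (3 * e * (1 - e)) ^ 42 = (3 * e * (1 - e)) ^ 8 * (3 * e * (1 - e)) ^ 34 := by ring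
    _ ≤ (3 * e) ^ 8 * 1 := by
      apply mul_le_mul (pow_le_pow_left₀ h1 h3 8) _ (by positivity) (by positivity)
      exact pow_le_one₀ h1 (by linarith)
    _ = 6561 * (e ^ 4) ^ 2 := by ring

theorem a1 (K : ℕ) : ∃ C : ℝ, 1 ≤ C ∧ ∀ (V W : Type) [Fintype V] [Fintype W]
    (H : SimpleGraph W) (c : V → V → Bool) (B : Finset V), Fintype.card W ≤ B.card →
    Fintype.card V ≤ 2 * (E H).card → (E H).card ≤ K * B.card →
    C * (Fintype.card W : ℝ) ≤ (E H).card → C ≤ (E H).card →
    4 * (univ.filter fun φ : W ↪ B => ∃ t : ℕ, 4 * t < (E H).card ∧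
      t < (univ.filter fun x : V =>
        (E H).card ≤ (hit H (fn φ) fun u v => c u x ≠ c v x).card + t).card).card
      < Fintype.card (W ↪ B) := by
  obtain ⟨C₁, hC₁, hlt⟩ := lt_lemma K
  refine ⟨C₁ + 7056 * K + 1000000, by
    have : (0 : ℝ) ≤ K := Nat.cast_nonneg _
    linarith, ?_⟩
  intro V W _ _ H c B hWB hV hKb hCn hCm
  have hK0 : (0 : ℝ) ≤ K := Nat.cast_nonneg _
  have hn0 : (0 : ℝ) ≤ (Fintype.card W : ℝ) := Nat.cast_nonneg _
  -- basic numerical consequences
  have hm6 : (1000000 : ℝ) ≤ (E H).card := by linarith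
  have hb7 : 7056 ≤ B.card := by
    have h1 : (7056 : ℝ) * K < (E H).card := by linarith
    have h2 : ((E H).card : ℝ) ≤ K * B.card := by exact_mod_cast hKb
    have h3 : (7056 : ℝ) * K < K * B.card := by linarith
    have h4 : 7056 * K < K * B.card := by exact_mod_cast h3
    by_contra h5
    push Not at h5
    have : K * B.card ≤ K * 7056 := Nat.mul_le_mul_left _ h5.le
    omega
  have hCW : 1008 * (Fintype.card W : ℝ) ≤ (E H).card := by
    have : (1008 : ℝ) * Fintype.card W ≤ (C₁ + 7056 * K + 1000000) * Fintype.card W := by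
      apply mul_le_mul_of_nonneg_right _ hn0
      linarith
    linarith
  have hC1W : C₁ * (Fintype.card W : ℝ) ≤ (E H).card := by
    have : C₁ * Fintype.card W ≤ (C₁ + 7056 * K + 1000000) * Fintype.card W := by
      apply mul_le_mul_of_nonneg_right _ hn0
      linarith
    linarith
  have hC1m : C₁ ≤ (E H).card := by linarith
  have hV' : (Fintype.card V : ℝ) ≤ 2 * (E H).card := by exact_mod_cast hV
  have hembpos : 0 < Fintype.card (W ↪ B) := by
    rw [Fintype.card_pos_iff]
    exact Function.Embedding.nonempty_of_card_le (by simpa using hWB)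
  obtain ⟨m, hmdef⟩ : ∃ m : ℝ, m = ((E H).card : ℝ) := ⟨_, rfl⟩
  obtain ⟨b, hbdef⟩ : ∃ b : ℝ, b = (B.card : ℝ) := ⟨_, rfl⟩
  rw [← hmdef] at hV' hm6
  have hb0 : 0 < b := by
    have : (7056 : ℝ) ≤ b := by rw [hbdef]; exact_mod_cast hb7
    linarith
  have hm0 : 0 < m := by linarith
  obtain ⟨emb, hemb⟩ : ∃ emb : ℝ, emb = (Fintype.card (W ↪ B) : ℝ) := ⟨_, rfl⟩
  have hemb0 : 0 < emb := by rw [hemb]; exact_mod_cast hembpos
  -- the events
  obtain ⟨ρ, hρdef⟩ : ∃ ρ : V → ℝ, ∀ x, ρ x = ((minor c B x).card : ℝ) := ⟨_, fun _ => rfl⟩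
  obtain ⟨Ex, hExdef⟩ : ∃ Ex : V → Finset (W ↪ B), ∀ x, Ex x = univ.filter fun φ : W ↪ B =>
      3 * (E H).card ≤ 4 * (hit H (fn φ) fun u v => c u x ≠ c v x).card := ⟨_, fun _ => rfl⟩
  have hρ0 : ∀ x, 0 ≤ ρ x := fun x => by rw [hρdef]; exact Nat.cast_nonneg _
  have he0 : ∀ x, 0 ≤ ρ x / b := fun x => div_nonneg (hρ0 x) hb0.le
  have he1 : ∀ x, ρ x / b ≤ 1 / 2 := by
    intro x
    rw [div_le_iff₀ hb0]
    have h1 := minor_card c B x
    have h2 : 2 * ρ x ≤ b := by
      rw [hρdef, hbdef]; exact_mod_cast h1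
    linarith
  have hEx : ∀ x, ((Ex x).card : ℝ) ≤ 2 * emb * (3 * (ρ x / b) * (1 - ρ x / b)) ^ 42 := by
    intro x
    rw [hExdef, hρdef, hbdef, hemb]
    exact a1_fm H c B hWB hb7 hCW (by rw [← hmdef]; linarith) x
  obtain ⟨Aα, hAα⟩ : ∃ Aα : Finset V, ∀ x, x ∈ Aα ↔ b ^ 4 ≤ ρ x ^ 4 * m :=
    ⟨univ.filter fun x => b ^ 4 ≤ ρ x ^ 4 * m, fun x => by simp⟩
  obtain ⟨Aβ, hAβ⟩ : ∃ Aβ : Finset V, ∀ x, x ∈ Aβ ↔ ¬ b ^ 4 ≤ ρ x ^ 4 * m :=
    ⟨univ.filter fun x => ¬ b ^ 4 ≤ ρ x ^ 4 * m, fun x => by simp⟩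
  obtain ⟨Lx, hLxdef⟩ : ∃ Lx : V → Finset (W ↪ B), ∀ x, Lx x = univ.filter fun φ : W ↪ B =>
      16 * B.card * (hit H (fn φ) fun u v => (u ∈ minor c B x ↔ v ∈ minor c B x)).card
        ≤ (minor c B x).card * (E H).card := ⟨_, fun _ => rfl⟩
  obtain ⟨S, hS⟩ : ∃ S : (W ↪ B) → ℝ, ∀ φ, S φ = ∑ x ∈ Aα, if φ ∈ Ex x then (b / ρ x) ^ 2 else 0 :=
    ⟨_, fun _ => rfl⟩
  obtain ⟨Γ, hΓ⟩ : ∃ Γ : Finset (W ↪ B), ∀ φ, φ ∈ Γ ↔ m / 64 < S φ :=
    ⟨univ.filter fun φ => m / 64 < S φ, fun φ => by simp⟩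
  obtain ⟨Bad, hBad⟩ : ∃ Bad : Finset (W ↪ B), Bad = univ.filter fun φ : W ↪ B =>
      ∃ t : ℕ, 4 * t < (E H).card ∧ t < (univ.filter fun x : V =>
        (E H).card ≤ (hit H (fn φ) fun u v => c u x ≠ c v x).card + t).card := ⟨_, rfl⟩
  have hVm : (Fintype.card V : ℝ) / m ≤ 2 := by
    rw [div_le_iff₀ hm0]; exact hV'
  -- event beta
  have hβ : ((Aβ.biUnion Ex).card : ℝ) ≤ emb / 32 := by
    have h1 : ((Aβ.biUnion Ex).card : ℝ) ≤ ∑ x ∈ Aβ, ((Ex x).card : ℝ) := by
      exact_mod_cast card_biUnion_le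
    have h2 : ∀ x ∈ Aβ, ((Ex x).card : ℝ) ≤ 13122 * emb / m ^ 2 := by
      intro x hx
      rw [hAβ] at hx
      have h3 := hEx x
      have h4 := real_aux3 (he0 x) (he1 x)
      have h5 : (ρ x / b) ^ 4 * m < 1 := by
        rw [div_pow, div_mul_eq_mul_div, div_lt_one (by positivity)]
        exact not_le.1 hx
      have h6 : ((ρ x / b) ^ 4) ^ 2 ≤ 1 / m ^ 2 := by
        rw [le_div_iff₀ (by positivity), ← mul_pow]
        exact pow_le_one₀ (by positivity) h5.le
      calc ((Ex x).card : ℝ) ≤ 2 * emb * (3 * (ρ x / b) * (1 - ρ x / b)) ^ 42 := h3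
        _ ≤ 2 * emb * (6561 * (1 / m ^ 2)) := by
          apply mul_le_mul_of_nonneg_left _ (by positivity)
          linarith
        _ = 13122 * emb / m ^ 2 := by ring
    calc ((Aβ.biUnion Ex).card : ℝ) ≤ ∑ x ∈ Aβ, ((Ex x).card : ℝ) := h1
      _ ≤ ∑ x ∈ Aβ, 13122 * emb / m ^ 2 := sum_le_sum h2
      _ = Aβ.card * (13122 * emb / m ^ 2) := by rw [sum_const, nsmul_eq_mul]
      _ ≤ Fintype.card V * (13122 * emb / m ^ 2) := by
        apply mul_le_mul_of_nonneg_right _ (by positivity)
        exact_mod_cast card_le_univ _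
      _ = (Fintype.card V / m) * (13122 * emb / m) := by
        field_simp
      _ ≤ 2 * (13122 * emb / m) := by
        apply mul_le_mul_of_nonneg_right hVm (by positivity)
      _ ≤ emb / 32 := by
        rw [mul_div_assoc', div_le_div_iff₀ hm0 (by norm_num)]
        nlinarith
  -- event alpha
  have hα : ((Aα.biUnion Lx).card : ℝ) ≤ emb / 32 := by
    have h1 : ((Aα.biUnion Lx).card : ℝ) ≤ ∑ x ∈ Aα, ((Lx x).card : ℝ) := by
      exact_mod_cast card_biUnion_le
    have h2 : ∀ x ∈ Aα, ((Lx x).card : ℝ) ≤ emb / (64 * m) := by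
      intro x hx
      rw [hAα] at hx
      have h3 := hlt V W H B (minor c B x) hWB (minor_subset c B x) (minor_card c B x)
        (by rw [← hbdef, ← hmdef, ← hρdef]; exact hx) hKb
        hC1W hC1m
      rw [le_div_iff₀ (by positivity)]
      have h4 : (64 : ℝ) * (E H).card * ((Lx x).card : ℝ) ≤ Fintype.card (W ↪ B) := by
        rw [hLxdef]
        exact_mod_cast h3
      rw [← hemb, ← hmdef] at h4
      linarith
    calc ((Aα.biUnion Lx).card : ℝ) ≤ ∑ x ∈ Aα, ((Lx x).card : ℝ) := h1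
      _ ≤ ∑ x ∈ Aα, emb / (64 * m) := sum_le_sum h2
      _ = Aα.card * (emb / (64 * m)) := by rw [sum_const, nsmul_eq_mul]
      _ ≤ Fintype.card V * (emb / (64 * m)) := by
        apply mul_le_mul_of_nonneg_right _ (by positivity)
        exact_mod_cast card_le_univ _
      _ = (Fintype.card V / m) * (emb / 64) := by
        field_simp
      _ ≤ 2 * (emb / 64) := mul_le_mul_of_nonneg_right hVm (by positivity)
      _ = emb / 32 := by ring
  -- event gamma
  have hγ : (Γ.card : ℝ) ≤ emb / 32 := by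
    have h1 : (Γ.card : ℝ) * (m / 64) ≤ ∑ φ : W ↪ B, S φ := by
      calc (Γ.card : ℝ) * (m / 64) = ∑ φ ∈ Γ, m / 64 := by rw [sum_const, nsmul_eq_mul]
        _ ≤ ∑ φ ∈ Γ, S φ := by
          apply sum_le_sum
          intro φ hφ
          rw [hΓ] at hφ
          exact hφ.le
        _ ≤ ∑ φ : W ↪ B, S φ := by
          apply sum_le_sum_of_subset_of_nonneg (subset_univ _)
          intro φ _ _
          rw [hS]
          apply sum_nonneg
          intro x _
          split_ifs
          · positivity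
          · exact le_refl _
    have h2 : ∑ φ : W ↪ B, S φ = ∑ x ∈ Aα, ((Ex x).card : ℝ) * (b / ρ x) ^ 2 := by
      simp only [hS]
      rw [sum_comm]
      apply sum_congr rfl
      intro x _
      rw [← sum_filter, sum_const, nsmul_eq_mul, filter_mem_eq_inter, univ_inter]
    have h3 : ∀ x ∈ Aα, ((Ex x).card : ℝ) * (b / ρ x) ^ 2 ≤ emb / 4096 := by
      intro x hx
      rw [hAα] at hx
      have hρpos : 0 < ρ x := by
        rcases (hρ0 x).lt_or_eq with h | h
        · exact h
        · exfalso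
          have := hx
          rw [← h] at this
          have hb4 : 0 < b ^ 4 := by positivity
          norm_num at this
          linarith
      have h4 := hEx x
      have h5 := real_aux2 (he0 x) (he1 x)
      calc ((Ex x).card : ℝ) * (b / ρ x) ^ 2
          ≤ (2 * emb * ((ρ x / b) ^ 2 * (1 / 8192))) * (b / ρ x) ^ 2 := by
            apply mul_le_mul_of_nonneg_right _ (by positivity)
            refine h4.trans ?_
            apply mul_le_mul_of_nonneg_left h5 (by positivity)
        _ = emb / 4096 := by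
          field_simp
          norm_num
    have h6 : (Γ.card : ℝ) * (m / 64) ≤ m * emb / 2048 := by
      calc (Γ.card : ℝ) * (m / 64) ≤ ∑ φ : W ↪ B, S φ := h1
        _ = ∑ x ∈ Aα, ((Ex x).card : ℝ) * (b / ρ x) ^ 2 := h2
        _ ≤ ∑ x ∈ Aα, emb / 4096 := sum_le_sum h3
        _ = Aα.card * (emb / 4096) := by rw [sum_const, nsmul_eq_mul]
        _ ≤ Fintype.card V * (emb / 4096) := by
          apply mul_le_mul_of_nonneg_right _ (by positivity)
          exact_mod_cast card_le_univ _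
        _ ≤ (2 * m) * (emb / 4096) := mul_le_mul_of_nonneg_right hV' (by positivity)
        _ = m * emb / 2048 := by ring
    have h7 : (Γ.card : ℝ) * (m / 64) ≤ (emb / 32) * (m / 64) := by
      calc _ ≤ m * emb / 2048 := h6
        _ = (emb / 32) * (m / 64) := by ring
    exact le_of_mul_le_mul_right h7 (by positivity)
  -- outside the three events the condition holds
  have hsub : Bad ⊆ (Aβ.biUnion Ex) ∪ ((Aα.biUnion Lx) ∪ Γ) := by
    intro φ hφ
    rw [hBad, mem_filter] at hφ
    obtain ⟨-, t, ht, htx⟩ := hφ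
    by_contra hcon
    rw [mem_union, mem_union, not_or, not_or] at hcon
    obtain ⟨hc1, hc2, hc3⟩ := hcon
    obtain ⟨X, hX⟩ : ∃ X : Finset V, X = univ.filter fun x : V =>
        (E H).card ≤ (hit H (fn φ) fun u v => c u x ≠ c v x).card + t := ⟨_, rfl⟩
    rw [← hX] at htx
    have hXE : ∀ x ∈ X, φ ∈ Ex x := by
      intro x hx
      rw [hX, mem_filter] at hx
      rw [hExdef, mem_filter]
      refine ⟨mem_univ _, ?_⟩
      have := hx.2
      omega
    have hXα : ∀ x ∈ X, x ∈ Aα := by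
      intro x hx
      rw [hAα]
      by_contra h
      apply hc1
      rw [mem_biUnion]
      refine ⟨x, ?_, hXE x hx⟩
      rw [hAβ]
      exact h
    have hXL : ∀ x ∈ X, ρ x * m < 16 * b * t := by
      intro x hx
      have h1 : φ ∉ Lx x := by
        intro h
        apply hc2
        rw [mem_biUnion]
        exact ⟨x, hXα x hx, h⟩
      rw [hLxdef, mem_filter] at h1
      push Not at h1
      have h2 := h1 (mem_univ _)
      have h3 := hit_add_hit H c B x φ
      rw [hX, mem_filter] at hx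
      have h4 := hx.2
      have h5 : (hit H (fn φ) fun u v => (u ∈ minor c B x ↔ v ∈ minor c B x)).card ≤ t := by
        omega
      have h6 : (minor c B x).card * (E H).card < 16 * B.card * t :=
        lt_of_lt_of_le h2 (Nat.mul_le_mul_left _ h5)
      have h7 : ((minor c B x).card : ℝ) * (E H).card < 16 * B.card * t := by
        exact_mod_cast h6
      rw [hρdef, hmdef, hbdef]
      exact h7
    have hXne : X.Nonempty := by
      rw [← card_pos]; omega
    obtain ⟨x₀, hx₀⟩ := hXne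
    have ht0 : 0 < t := by
      rcases Nat.eq_zero_or_pos t with h | h
      · exfalso
        have h1 := hXL x₀ hx₀
        rw [h] at h1
        have h2 : 0 ≤ ρ x₀ * m := mul_nonneg (hρ0 x₀) hm0.le
        norm_num at h1
        linarith
      · exact h
    have ht0' : (0 : ℝ) < t := by exact_mod_cast ht0
    have hterm : ∀ x ∈ X, (m / (16 * t)) ^ 2 ≤ (b / ρ x) ^ 2 := by
      intro x hx
      have h1 := hXL x hx
      have h2 := hXα x hx
      rw [hAα] at h2
      have hρpos : 0 < ρ x := by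
        rcases (hρ0 x).lt_or_eq with h | h
        · exact h
        · exfalso
          have := h2
          rw [← h] at this
          have hb4 : 0 < b ^ 4 := by positivity
          norm_num at this
          linarith
      apply pow_le_pow_left₀ (by positivity)
      rw [div_le_div_iff₀ (by positivity) hρpos]
      nlinarith
    have hSle : S φ ≤ m / 64 := by
      by_contra h
      apply hc3
      rw [hΓ]
      exact not_le.1 h
    have hSge : X.card * (m / (16 * t)) ^ 2 ≤ S φ := by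
      calc (X.card : ℝ) * (m / (16 * t)) ^ 2 = ∑ x ∈ X, (m / (16 * t)) ^ 2 := by
            rw [sum_const, nsmul_eq_mul]
        _ ≤ ∑ x ∈ X, (b / ρ x) ^ 2 := sum_le_sum hterm
        _ = ∑ x ∈ X, (if φ ∈ Ex x then (b / ρ x) ^ 2 else 0) := by
            apply sum_congr rfl
            intro x hx
            rw [if_pos (hXE x hx)]
        _ ≤ S φ := by
            rw [hS]
            apply sum_le_sum_of_subset_of_nonneg (fun x hx => hXα x hx)
            intro x _ _
            split_ifs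
            · positivity
            · exact le_refl _
    have hXt : (t : ℝ) < X.card := by exact_mod_cast htx
    have h1 : (t : ℝ) * (m / (16 * t)) ^ 2 < m / 64 := by
      calc (t : ℝ) * (m / (16 * t)) ^ 2 < X.card * (m / (16 * t)) ^ 2 := by
            apply mul_lt_mul_of_pos_right hXt (by positivity)
        _ ≤ m / 64 := hSge.trans hSle
    have h2 : (t : ℝ) * (m / (16 * t)) ^ 2 = m * m / (256 * t) := by
      field_simp
      norm_num
    rw [h2, div_lt_div_iff₀ (by positivity) (by norm_num)] at h1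
    have h3 : 4 * (t : ℝ) < m := by rw [hmdef]; exact_mod_cast ht
    nlinarith
  have hBadle : (Bad.card : ℝ) ≤ 3 * emb / 32 := by
    have h1 : Bad.card ≤ (Aβ.biUnion Ex).card + ((Aα.biUnion Lx).card + Γ.card) :=
      (card_le_card hsub).trans ((card_union_le _ _).trans (Nat.add_le_add_left (card_union_le _ _) _))
    have h2 : (Bad.card : ℝ) ≤ (Aβ.biUnion Ex).card + ((Aα.biUnion Lx).card + Γ.card) := by
      exact_mod_cast h1
    linarith
  have hfin : (4 : ℝ) * Bad.card < Fintype.card (W ↪ B) := by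
    rw [← hemb]; linarith
  rw [hBad] at hfin
  exact_mod_cast hfin

end Pool.Agent.Lib.MP_0dbebe_co.OneSub
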