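import Pool.Agent.Lib.MP_0dbebe_co.OneSub.Marg

/-! Condition A3: few edges are mapped to pairs with few agreeing columns. -/

set_option autoImplicit false

namespace Pool.Agent.Lib.MP_0dbebe_co.OneSub

open Finset
open scoped Classical

theorem agr_comm {V : Type} (c : V → V → Bool) (C : Finset V) (u v : V) :
    agr c C u v = agr c C v u := by
  unfold agr
  congr 1
  ext x
  simp only [mem_filter]
  exact ⟨fun h => ⟨h.1, h.2.symm⟩, fun h => ⟨h.1, h.2.symm⟩⟩

theorem hit_sub {V W : Type} [Fintype V] [Fintype W] (H : SimpleGraph W) (f : W → V) (P : V → V → Prop) :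
    hit H f P ⊆ E H := fun _ he => mem_E.2 (mem_hit.1 he).1

theorem a3 {V W : Type} [Fintype V] [Fintype W] (H : SimpleGraph W) (c : V → V → Bool)
    (B C : Finset V) (hWB : Fintype.card W ≤ B.card) (hB : 2 ≤ B.card) (T : ℕ) (M : ℝ)
    (hpos : ∀ u ∈ B, ∀ v ∈ B, 0 < agr c C u v)
    (hM : ∑ u ∈ B, ∑ v ∈ B, ((agr c C u v : ℝ)⁻¹) ^ T ≤ M * (B.card : ℝ) ^ 2) :
    4 * (univ.filter fun φ : W ↪ B => ∃ t : ℕ, 1 ≤ t ∧
      8 * M * (E H).card * (t : ℝ) ^ T < ((hit H (fn φ) fun u v => agr c C u v ≤ t).card : ℝ)).card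
      ≤ Fintype.card (W ↪ B) := by
  set m := (E H).card with hm
  set bad := univ.filter fun φ : W ↪ B => ∃ t : ℕ, 1 ≤ t ∧
      8 * M * m * (t : ℝ) ^ T < ((hit H (fn φ) fun u v => agr c C u v ≤ t).card : ℝ) with hbad
  have hbR : (2 : ℝ) ≤ B.card := by exact_mod_cast hB
  -- `M` is positive
  have hMpos : 0 < M := by
    obtain ⟨u, hu⟩ : B.Nonempty := card_pos.1 (by omega)
    have h1 : 0 < ∑ u ∈ B, ∑ v ∈ B, ((agr c C u v : ℝ)⁻¹) ^ T := by
      apply sum_pos _ ⟨u, hu⟩
      intro u hu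
      apply sum_pos _ ⟨u, hu⟩
      intro v hv
      have := hpos u hu v hv
      positivity
    have h2 : 0 < M * (B.card : ℝ) ^ 2 := h1.trans_le hM
    exact (mul_pos_iff_of_pos_right (by positivity)).1 h2
  rcases Nat.eq_zero_or_pos m with h0 | hmpos
  · have hE : bad = ∅ := by
      rw [hbad, filter_eq_empty_iff]
      intro φ _
      push Not
      intro t _
      have h1 : (hit H (fn φ) fun u v => agr c C u v ≤ t).card ≤ m := card_le_card (hit_sub _ _ _)
      have h2 : (hit H (fn φ) fun u v => agr c C u v ≤ t).card = 0 := by omega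
      rw [h2, h0]; simp
    rw [hE]; simp
  have hmR : (0 : ℝ) < m := by exact_mod_cast hmpos
  have hrep : ∀ e : Sym2 W, ∃ a b : W, e = s(a, b) := fun e => by
    induction e using Sym2.ind with
    | _ a b => exact ⟨a, b, rfl⟩
  choose a b hab using hrep
  let w : (W ↪ B) → Sym2 W → ℝ := fun φ e => ((agr c C (fn φ (a e)) (fn φ (b e)) : ℝ)⁻¹) ^ T
  have hw0 : ∀ φ e, 0 ≤ w φ e := fun φ e => by simp only [w]; positivity
  -- lower bound on the bad set
  have hlow : ∀ φ ∈ bad, 8 * M * m ≤ ∑ e ∈ E H, w φ e := by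
    intro φ hφ
    rw [hbad, mem_filter] at hφ
    obtain ⟨-, t, ht, hlt⟩ := hφ
    have htR : (0 : ℝ) < t := by exact_mod_cast ht
    have h1 : ∀ e ∈ hit H (fn φ) (fun u v => agr c C u v ≤ t), ((t : ℝ)⁻¹) ^ T ≤ w φ e := by
      intro e he
      rw [mem_hit] at he
      obtain ⟨-, u, v, huv, hle⟩ := he
      have h2 : agr c C (fn φ (a e)) (fn φ (b e)) ≤ t := by
        rw [hab e, Sym2.eq_iff] at huv
        rcases huv with ⟨e1, e2⟩ | ⟨e1, e2⟩
        · rw [e1, e2]; exact hle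
        · rw [e1, e2, agr_comm]; exact hle
      have h3 := hpos _ (fn_mem φ (a e)) _ (fn_mem φ (b e))
      have h4 : ((agr c C (fn φ (a e)) (fn φ (b e)) : ℕ) : ℝ) ≤ t := by exact_mod_cast h2
      have h5 : (0 : ℝ) < (agr c C (fn φ (a e)) (fn φ (b e)) : ℕ) := by exact_mod_cast h3
      apply pow_le_pow_left₀ (by positivity)
      exact inv_anti₀ h5 h4
    have h2 : ((hit H (fn φ) fun u v => agr c C u v ≤ t).card : ℝ) * ((t : ℝ)⁻¹) ^ T ≤
        ∑ e ∈ E H, w φ e := by
      calc ((hit H (fn φ) fun u v => agr c C u v ≤ t).card : ℝ) * ((t : ℝ)⁻¹) ^ T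
          = ∑ e ∈ hit H (fn φ) (fun u v => agr c C u v ≤ t), ((t : ℝ)⁻¹) ^ T := by
            rw [sum_const, nsmul_eq_mul]
        _ ≤ ∑ e ∈ hit H (fn φ) (fun u v => agr c C u v ≤ t), w φ e := sum_le_sum h1
        _ ≤ ∑ e ∈ E H, w φ e :=
            sum_le_sum_of_subset_of_nonneg (hit_sub _ _ _) fun e _ _ => hw0 φ e
    have h3 : (0 : ℝ) < ((t : ℝ)⁻¹) ^ T := by positivity
    have h4 : (t : ℝ) ^ T * ((t : ℝ)⁻¹) ^ T = 1 := by
      rw [← mul_pow, mul_inv_cancel₀ htR.ne', one_pow]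
    calc 8 * M * m = 8 * M * m * ((t : ℝ) ^ T * ((t : ℝ)⁻¹) ^ T) := by rw [h4, mul_one]
      _ = 8 * M * m * (t : ℝ) ^ T * ((t : ℝ)⁻¹) ^ T := by ring
      _ ≤ ((hit H (fn φ) fun u v => agr c C u v ≤ t).card : ℝ) * ((t : ℝ)⁻¹) ^ T :=
          mul_le_mul_of_nonneg_right hlt.le h3.le
      _ ≤ _ := h2
  -- first moment
  have hfm : ∀ e ∈ E H, ∑ φ : W ↪ B, w φ e ≤ 2 * M * Fintype.card (W ↪ B) := by
    intro e he
    have hne : a e ≠ b e := by
      intro h
      have h1 := mem_E.1 he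
      rw [hab e, h] at h1
      exact H.loopless.irrefl _ h1
    let f : Bool → W := fun x => if x then b e else a e
    have hf : Function.Injective f := by
      intro x y h
      cases x <;> cases y <;> simp [f] at h ⊢
      · exact hne h
      · exact hne h.symm
    have hmg := marg (β := B) ⟨f, hf⟩ (by rw [Fintype.card_coe]; exact hWB)
      (fun g => ((agr c C (g false) (g true) : ℝ)⁻¹) ^ T)
    rw [Fintype.card_bool, Fintype.card_coe] at hmg
    have h1 : ∑ g : Bool ↪ B, ((agr c C (g false) (g true) : ℝ)⁻¹) ^ T ≤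
        ∑ p ∈ B ×ˢ B, ((agr c C p.1 p.2 : ℝ)⁻¹) ^ T := by
      have hinj : Set.InjOn (fun g : Bool ↪ B => ((g false : V), (g true : V)))
          ((univ : Finset (Bool ↪ B)) : Set (Bool ↪ B)) := by
        intro g _ g' _ h
        ext x
        have h5 := congrArg Prod.fst h
        have h6 := congrArg Prod.snd h
        cases x
        · exact h5
        · exact h6
      rw [← sum_image (f := fun p : V × V => ((agr c C p.1 p.2 : ℝ)⁻¹) ^ T) hinj]
      apply sum_le_sum_of_subset_of_nonneg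
      · intro p hp
        rw [mem_image] at hp
        obtain ⟨g, -, rfl⟩ := hp
        rw [mem_product]
        exact ⟨(g false).2, (g true).2⟩
      · intro p _ _
        positivity
    rw [sum_product] at h1
    have h2 : ((B.card.descFactorial 2 : ℕ) : ℝ) = B.card * (B.card - 1) := by
      have e0 : B.card.descFactorial 2 = (B.card - 1) * B.card := by
        rw [Nat.descFactorial_succ, Nat.descFactorial_one]
      rw [e0, Nat.cast_mul, Nat.cast_sub (by omega : 1 ≤ B.card), Nat.cast_one]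
      ring
    rw [h2] at hmg
    have h3 : (∑ φ : W ↪ B, w φ e) * (B.card * (B.card - 1)) =
        (Fintype.card (W ↪ B) : ℝ) * ∑ g : Bool ↪ B, ((agr c C (g false) (g true) : ℝ)⁻¹) ^ T := by
      rw [← hmg]
      rfl
    have h4 : (∑ φ : W ↪ B, w φ e) * (B.card * (B.card - 1)) ≤
        (2 * M * Fintype.card (W ↪ B)) * (B.card * (B.card - 1)) := by
      rw [h3]
      calc (Fintype.card (W ↪ B) : ℝ) * ∑ g : Bool ↪ B, ((agr c C (g false) (g true) : ℝ)⁻¹) ^ T
          ≤ (Fintype.card (W ↪ B) : ℝ) * (M * (B.card : ℝ) ^ 2) := by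
            apply mul_le_mul_of_nonneg_left (h1.trans hM) (by positivity)
        _ ≤ (2 * M * Fintype.card (W ↪ B)) * (B.card * (B.card - 1)) := by
            have h5 : (B.card : ℝ) ^ 2 ≤ 2 * (B.card * (B.card - 1)) := by nlinarith
            have h6 : (0 : ℝ) ≤ (Fintype.card (W ↪ B) : ℝ) * M := by positivity
            nlinarith [mul_le_mul_of_nonneg_left h5 h6]
    have h5 : (0 : ℝ) < B.card * (B.card - 1) := by
      apply mul_pos <;> linarith
    exact le_of_mul_le_mul_right h4 h5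
  have hsum : (bad.card : ℝ) * (8 * M * m) ≤ m * (2 * M * Fintype.card (W ↪ B)) := by
    calc (bad.card : ℝ) * (8 * M * m) = ∑ φ ∈ bad, 8 * M * m := by rw [sum_const, nsmul_eq_mul]
      _ ≤ ∑ φ ∈ bad, ∑ e ∈ E H, w φ e := sum_le_sum hlow
      _ ≤ ∑ φ : W ↪ B, ∑ e ∈ E H, w φ e := by
          apply sum_le_sum_of_subset_of_nonneg (subset_univ _)
          intro φ _ _
          exact sum_nonneg fun e _ => hw0 φ e
      _ = ∑ e ∈ E H, ∑ φ : W ↪ B, w φ e := sum_comm
      _ ≤ ∑ e ∈ E H, 2 * M * Fintype.card (W ↪ B) := sum_le_sum hfm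
      _ = m * (2 * M * Fintype.card (W ↪ B)) := by rw [sum_const, nsmul_eq_mul]
  have h6 : (2 * M * m) * (4 * (bad.card : ℝ)) ≤ (2 * M * m) * (Fintype.card (W ↪ B) : ℝ) := by
    linarith
  have h7 : 4 * (bad.card : ℝ) ≤ (Fintype.card (W ↪ B) : ℝ) :=
    le_of_mul_le_mul_left h6 (mul_pos (mul_pos two_pos hMpos) hmR)
  exact_mod_cast h7

end Pool.Agent.Lib.MP_0dbebe_co.OneSub
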