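import Pool.Agent.Lib.MP_0dbebe_co.OneSub.Tset

/-! Module BAD: few tuples cut many pairs simultaneously. -/

set_option autoImplicit false

namespace Pool.Agent.Lib.MP_0dbebe_co.OneSub

open Finset
open scoped Classical

/-- The number of ordered pairs of `B` cut by all `y i`. -/
noncomputable def cutPairs {V : Type} (c : V → V → Bool) (B : Finset V) {k : ℕ} (y : Fin k → V) : ℕ :=
  ((B ×ˢ B).filter fun p => ∀ i, c p.1 (y i) ≠ c p.2 (y i)).card

/-- Counting functions with two prescribed values. -/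
theorem card_pi_two {ι V : Type} [Fintype ι] [DecidableEq ι] (B : Finset V) (s t : ι)
    (hst : s ≠ t) (D : Finset (V × V)) :
    ((Fintype.piFinset fun _ : ι => B).filter fun w => (w s, w t) ∈ D).card ≤
      D.card * B.card ^ (Fintype.card ι - 2) := by
  have hsub : Fintype.card {i : ι // i ≠ s ∧ i ≠ t} = Fintype.card ι - 2 := by
    rw [Fintype.card_subtype]
    have h1 : (univ.filter fun i : ι => i ≠ s ∧ i ≠ t) = (univ.erase s).erase t := by
      ext i; simp [and_comm]
    rw [h1, Finset.card_erase_of_mem (by simp [hst.symm]),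
      Finset.card_erase_of_mem (Finset.mem_univ _), Finset.card_univ]
    rfl
  have hcard : (D ×ˢ (Fintype.piFinset fun _ : {i : ι // i ≠ s ∧ i ≠ t} => B)).card =
      D.card * B.card ^ (Fintype.card ι - 2) := by
    rw [Finset.card_product, Fintype.card_piFinset]
    simp only [Finset.prod_const, Finset.card_univ]
    rw [hsub]
  rw [← hcard]
  refine Finset.card_le_card_of_injOn (fun w => ((w s, w t), fun i => w i.1)) ?_ ?_
  · intro w hw
    simp only [Finset.coe_filter, Set.mem_ofPred_eq, Fintype.mem_piFinset] at hw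
    simp only [Finset.coe_product, Set.mem_prod, Finset.mem_coe, Fintype.mem_piFinset]
    exact ⟨hw.2, fun i => hw.1 i.1⟩
  · intro w _ w' _ h
    simp only [Prod.mk.injEq] at h
    obtain ⟨⟨h1, h2⟩, h3⟩ := h
    ext i
    by_cases his : i = s
    · rw [his, h1]
    · by_cases hit : i = t
      · rw [hit, h2]
      · exact congrFun h3 ⟨i, his, hit⟩

/-- A tuple cutting many pairs cuts all pairs between two large sets. -/
theorem exists_large {V : Type} [Fintype V] (c : V → V → Bool) (B : Finset V) {k : ℕ}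
    (y : Fin k → V) (h : B.card ^ 2 < 192 * cutPairs c B y) :
    ∃ L ⊆ B, ∃ M ⊆ B, B.card ≤ 384 * L.card ∧ B.card ≤ 384 * M.card ∧
      ∃ s : Fin k → Bool, (∀ u ∈ L, ∀ i, c u (y i) = s i) ∧ ∀ v ∈ M, ∀ i, c v (y i) = !(s i) := by
  set C := (B ×ˢ B).filter fun p => ∀ i, c p.1 (y i) ≠ c p.2 (y i) with hC
  set Mf : V → Finset V := fun u => B.filter fun v => ∀ i, c u (y i) ≠ c v (y i) with hMf
  set C1 := C.filter fun p => 384 * (Mf p.1).card < B.card with hC1
  set C2 := C.filter fun p => 384 * (Mf p.2).card < B.card with hC2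
  have hC1c : 384 * C1.card ≤ B.card ^ 2 := by
    have h1 := Finset.card_eq_sum_card_fiberwise (f := fun p : V × V => p.1) (s := C1) (t := B)
      (by
        intro p hp
        simp only [hC1, hC, Finset.coe_filter, Set.mem_ofPred_eq, Finset.mem_filter,
          Finset.mem_product] at hp
        exact hp.1.1.1)
    rw [h1, Finset.mul_sum, sq]
    refine (Finset.sum_le_card_nsmul B _ B.card (fun u _ => ?_)).trans (by simp)
    by_cases hu : 384 * (Mf u).card < B.card
    · refine le_trans (Nat.mul_le_mul_left _ ?_) hu.le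
      refine Finset.card_le_card_of_injOn (fun p => p.2) ?_ ?_
      · intro p hp
        simp only [hC1, hC, Finset.coe_filter, Set.mem_ofPred_eq, Finset.mem_filter,
          Finset.mem_product] at hp
        obtain ⟨⟨⟨⟨_, h2⟩, h3⟩, _⟩, h4⟩ := hp
        simp only [hMf, Finset.coe_filter, Set.mem_ofPred_eq]
        rw [← h4]
        exact ⟨h2, h3⟩
      · intro p hp q hq hpq
        simp only [Finset.coe_filter, Set.mem_ofPred_eq] at hp hq
        exact Prod.ext (hp.2.trans hq.2.symm) hpq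
    · have h2 : (C1.filter fun p => p.1 = u) = ∅ := by
        rw [Finset.filter_eq_empty_iff]
        intro p hp hpu
        rw [hC1, Finset.mem_filter] at hp
        exact hu (hpu ▸ hp.2)
      rw [h2]
      simp
  have hC2c : 384 * C2.card ≤ B.card ^ 2 := by
    have h1 := Finset.card_eq_sum_card_fiberwise (f := fun p : V × V => p.2) (s := C2) (t := B)
      (by
        intro p hp
        simp only [hC2, hC, Finset.coe_filter, Set.mem_ofPred_eq, Finset.mem_filter,
          Finset.mem_product] at hp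
        exact hp.1.1.2)
    rw [h1, Finset.mul_sum, sq]
    refine (Finset.sum_le_card_nsmul B _ B.card (fun u _ => ?_)).trans (by simp)
    by_cases hu : 384 * (Mf u).card < B.card
    · refine le_trans (Nat.mul_le_mul_left _ ?_) hu.le
      refine Finset.card_le_card_of_injOn (fun p => p.1) ?_ ?_
      · intro p hp
        simp only [hC2, hC, Finset.coe_filter, Set.mem_ofPred_eq, Finset.mem_filter,
          Finset.mem_product] at hp
        obtain ⟨⟨⟨⟨h2, _⟩, h3⟩, _⟩, h4⟩ := hp
        simp only [hMf, Finset.coe_filter, Set.mem_ofPred_eq]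
        rw [← h4]
        exact ⟨h2, fun i => (h3 i).symm⟩
      · intro p hp q hq hpq
        simp only [Finset.coe_filter, Set.mem_ofPred_eq] at hp hq
        exact Prod.ext hpq (hp.2.trans hq.2.symm)
    · have h2 : (C2.filter fun p => p.2 = u) = ∅ := by
        rw [Finset.filter_eq_empty_iff]
        intro p hp hpu
        rw [hC2, Finset.mem_filter] at hp
        exact hu (hpu ▸ hp.2)
      rw [h2]
      simp
  obtain ⟨p, hpC, hp12⟩ : ∃ p ∈ C, p ∉ C1 ∪ C2 := by
    apply Finset.exists_mem_notMem_of_card_lt_card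
    have h1 := Finset.card_union_le C1 C2
    have h2 : cutPairs c B y = C.card := rfl
    rw [h2] at h
    omega
  rw [Finset.mem_union, not_or] at hp12
  obtain ⟨hp1, hp2⟩ := hp12
  rw [hC1, Finset.mem_filter, not_and, not_lt] at hp1
  rw [hC2, Finset.mem_filter, not_and, not_lt] at hp2
  have h1 := hp1 hpC
  have h2 := hp2 hpC
  rw [hC, Finset.mem_filter] at hpC
  refine ⟨Mf p.2, Finset.filter_subset _ _, Mf p.1, Finset.filter_subset _ _, h2, h1,
    fun i => c p.1 (y i), ?_, ?_⟩
  · intro u hu i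
    have h3 := (Finset.mem_filter.1 hu).2 i
    have h4 := hpC.2 i
    have key : ∀ a b d : Bool, b ≠ d → a ≠ b → d = a := by decide
    exact key _ _ _ h3 h4
  · intro v hv i
    have h3 := (Finset.mem_filter.1 hv).2 i
    have key : ∀ a d : Bool, a ≠ d → d = !a := by decide
    exact key _ _ h3

theorem bad_aux (k : ℕ) (ξ : ℝ) (hξ0 : 0 ≤ ξ) {V : Type} [Fintype V]
    (c : V → V → Bool) (B : Finset V) (g : ℝ) (hB : B.Nonempty) (hg0 : 0 ≤ g)
    (hG : ∑ u ∈ B, ∑ v ∈ B, (G c u v - g) ^ 2 ≤ ξ * (B.card : ℝ) ^ 2) :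
    ((univ.filter fun y : Fin k → V => (B.card : ℝ) ^ 2 < 192 * (cutPairs c B y : ℝ)).card : ℝ)
      ≤ 384 ^ 20 * ((1 / 10) ^ k + 160000 * ξ) * (Fintype.card V : ℝ) ^ k := by
  obtain ⟨b0, hb0⟩ := hB
  have : Nonempty V := ⟨b0⟩
  have hb : (0 : ℝ) < B.card := by
    have : 0 < B.card := Finset.card_pos.2 ⟨b0, hb0⟩
    exact_mod_cast this
  have hf : (0 : ℝ) < Fintype.card V := by exact_mod_cast Fintype.card_pos
  set bad := univ.filter fun y : Fin k → V =>
    (B.card : ℝ) ^ 2 < 192 * (cutPairs c B y : ℝ) with hbad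
  let ι := Fin 10 ⊕ Fin 10
  set P : Finset (ι → V) := Fintype.piFinset fun _ => B with hP
  have hPc : P.card = B.card ^ 20 := by
    rw [hP, Fintype.card_piFinset]; simp [ι]
  set tS : (ι → V) → Finset V := fun w => univ.filter fun x =>
    (∀ a b, c (w (Sum.inl a)) x = c (w (Sum.inl b)) x) ∧
      ∀ a b, c (w (Sum.inr a)) x ≠ c (w (Sum.inl b)) x with htS
  set D : Finset (V × V) := (B ×ˢ B).filter fun p => 1 / 20 < |G c p.1 p.2 - g| with hD
  have hDc : (D.card : ℝ) ≤ 400 * ξ * (B.card : ℝ) ^ 2 := by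
    have h1 : (D.card : ℝ) * (1 / 400) ≤ ∑ p ∈ D, (G c p.1 p.2 - g) ^ 2 := by
      have := Finset.card_nsmul_le_sum D (fun p => (G c p.1 p.2 - g) ^ 2) (1 / 400) (by
        intro p hp
        have h2 := (Finset.mem_filter.1 hp).2
        have h3 : (1 / 20 : ℝ) ^ 2 ≤ |G c p.1 p.2 - g| ^ 2 :=
          pow_le_pow_left₀ (by norm_num) h2.le 2
        rw [sq_abs] at h3
        norm_num at h3 ⊢
        exact h3)
      rw [nsmul_eq_mul] at this
      exact this
    have h2 : ∑ p ∈ D, (G c p.1 p.2 - g) ^ 2 ≤ ∑ p ∈ B ×ˢ B, (G c p.1 p.2 - g) ^ 2 :=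
      Finset.sum_le_sum_of_subset_of_nonneg (Finset.filter_subset _ _)
        (fun _ _ _ => sq_nonneg _)
    rw [Finset.sum_product] at h2
    linarith
  -- tuples with a bad pair
  set Q := P.filter fun w => ∃ s t : ι, s ≠ t ∧ (w s, w t) ∈ D with hQ
  have hQc : (Q.card : ℝ) ≤ 400 * (400 * ξ) * (B.card : ℝ) ^ 20 := by
    have h1 : Q ⊆ ((univ : Finset (ι × ι)).filter fun p => p.1 ≠ p.2).biUnion
        fun p => P.filter fun w => (w p.1, w p.2) ∈ D := by
      intro w hw
      rw [hQ, Finset.mem_filter] at hw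
      obtain ⟨hwP, s, t, hst, hwst⟩ := hw
      rw [Finset.mem_biUnion]
      exact ⟨(s, t), by simpa using hst, Finset.mem_filter.2 ⟨hwP, hwst⟩⟩
    have h2 : ∀ p ∈ ((univ : Finset (ι × ι)).filter fun p => p.1 ≠ p.2),
        (P.filter fun w => (w p.1, w p.2) ∈ D).card ≤ D.card * B.card ^ 18 := by
      intro p hp
      have := card_pi_two B p.1 p.2 (Finset.mem_filter.1 hp).2 D
      rw [hP]
      simpa [ι] using this
    have h3 := (Finset.card_le_card h1).trans (Finset.card_biUnion_le.trans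
      (Finset.sum_le_card_nsmul _ _ _ h2))
    have h4 : ((univ : Finset (ι × ι)).filter fun p => p.1 ≠ p.2).card ≤ 400 := by
      refine (Finset.card_filter_le _ _).trans ?_
      simp [ι]
    have h5 : Q.card ≤ 400 * (D.card * B.card ^ 18) := by
      refine h3.trans ?_
      rw [smul_eq_mul]
      exact Nat.mul_le_mul_right _ h4
    have h6 : (Q.card : ℝ) ≤ 400 * (D.card * (B.card : ℝ) ^ 18) := by exact_mod_cast h5
    refine h6.trans ?_
    have h7 : (D.card : ℝ) * (B.card : ℝ) ^ 18 ≤ (400 * ξ * (B.card : ℝ) ^ 2) * (B.card : ℝ) ^ 18 :=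
      mul_le_mul_of_nonneg_right hDc (by positivity)
    have h8 : (400 * ξ * (B.card : ℝ) ^ 2) * (B.card : ℝ) ^ 18 =
        (400 * ξ) * (B.card : ℝ) ^ 20 := by ring
    rw [h8] at h7
    linarith
  have hgood : ∀ w ∈ P, w ∉ Q → ((tS w).card : ℝ) ≤ (1 / 10) * Fintype.card V := by
    intro w hwP hwQ
    have hall : ∀ s t : ι, s ≠ t → |G c (w s) (w t) - g| ≤ 1 / 20 := by
      intro s t hst
      by_contra hcon
      push Not at hcon
      apply hwQ
      rw [hQ, Finset.mem_filter]
      rw [hP, Fintype.mem_piFinset] at hwP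
      exact ⟨by rw [hP, Fintype.mem_piFinset]; exact hwP, s, t, hst,
        Finset.mem_filter.2 ⟨Finset.mem_product.2 ⟨hwP s, hwP t⟩, hcon⟩⟩
    have h1 := tset c g hg0 10 (by norm_num) (1 / 20) (fun a => w (Sum.inl a))
      (fun a => w (Sum.inr a))
      (fun a b hab => by
        have := (abs_le.1 (hall (Sum.inl a) (Sum.inl b) (fun h => hab (Sum.inl.inj h)))).2
        linarith)
      (fun a b hab => by
        have := (abs_le.1 (hall (Sum.inr a) (Sum.inr b) (fun h => hab (Sum.inr.inj h)))).2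
        linarith)
      (fun a b => by
        have := (abs_le.1 (hall (Sum.inl a) (Sum.inr b) (by simp))).1
        linarith) (by norm_num)
    refine h1.trans (le_of_eq ?_)
    norm_num
  -- lower bound for every bad tuple
  have hlow : ∀ y ∈ bad, (B.card : ℝ) ^ 20 ≤ 384 ^ 20 *
      ((P.filter fun w => ∀ i, y i ∈ tS w).card : ℝ) := by
    intro y hy
    rw [hbad, Finset.mem_filter] at hy
    have hy2 : B.card ^ 2 < 192 * cutPairs c B y := by exact_mod_cast hy.2
    obtain ⟨L, hL, M, hM, hLc, hMc, s, hs1, hs2⟩ := exists_large c B y hy2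
    have h1 : (Fintype.piFinset fun i : ι => (Sum.elim (fun _ => L) (fun _ => M) i :
        Finset V)) ⊆ P.filter fun w => ∀ i, y i ∈ tS w := by
      intro w hw
      rw [Fintype.mem_piFinset] at hw
      rw [Finset.mem_filter, hP, Fintype.mem_piFinset]
      have hwl : ∀ a, w (Sum.inl a) ∈ L := fun a => hw (Sum.inl a)
      have hwr : ∀ a, w (Sum.inr a) ∈ M := fun a => hw (Sum.inr a)
      refine ⟨?_, fun i => ?_⟩
      · rintro (a | a)
        · exact hL (hwl a)
        · exact hM (hwr a)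
      · rw [htS, Finset.mem_filter]
        refine ⟨Finset.mem_univ _, fun a b => ?_, fun a b => ?_⟩
        · rw [hs1 _ (hwl a), hs1 _ (hwl b)]
        · rw [hs2 _ (hwr a), hs1 _ (hwl b)]
          cases s i <;> simp
    have h2 := Finset.card_le_card h1
    rw [Fintype.card_piFinset, Fintype.prod_sum_type] at h2
    simp only [Sum.elim_inl, Sum.elim_inr, Finset.prod_const, Finset.card_univ,
      Fintype.card_fin] at h2
    have h3 : B.card ^ 20 ≤ 384 ^ 20 * (L.card ^ 10 * M.card ^ 10) := by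
      have h4 := Nat.pow_le_pow_left hLc 10
      have h5 := Nat.pow_le_pow_left hMc 10
      calc B.card ^ 20 = B.card ^ 10 * B.card ^ 10 := by ring
        _ ≤ (384 * L.card) ^ 10 * (384 * M.card) ^ 10 := Nat.mul_le_mul h4 h5
        _ = 384 ^ 20 * (L.card ^ 10 * M.card ^ 10) := by ring
    have h4 := h3.trans (Nat.mul_le_mul_left _ h2)
    exact_mod_cast h4
  -- double counting
  have hdc : (bad.card : ℝ) * (B.card : ℝ) ^ 20 ≤ 384 ^ 20 *
      ∑ w ∈ P, ((tS w).card : ℝ) ^ k := by
    have h1 : ∑ y ∈ bad, ((P.filter fun w => ∀ i, y i ∈ tS w).card : ℝ) ≤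
        ∑ w ∈ P, ((tS w).card : ℝ) ^ k := by
      have e1 : ∑ y ∈ bad, ((P.filter fun w => ∀ i, y i ∈ tS w).card : ℝ) =
          ∑ w ∈ P, ((bad.filter fun y => ∀ i, y i ∈ tS w).card : ℝ) := by
        have h3 : ∀ y ∈ bad, ((P.filter fun w => ∀ i, y i ∈ tS w).card : ℝ) =
            ∑ w ∈ P, if ∀ i, y i ∈ tS w then (1 : ℝ) else 0 := by
          intro y _; rw [Finset.card_filter]; push_cast; rfl
        have h4 : ∀ w ∈ P, ((bad.filter fun y => ∀ i, y i ∈ tS w).card : ℝ) =
            ∑ y ∈ bad, if ∀ i, y i ∈ tS w then (1 : ℝ) else 0 := by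
          intro y _; rw [Finset.card_filter]; push_cast; rfl
        rw [Finset.sum_congr rfl h3, Finset.sum_congr rfl h4, Finset.sum_comm]
      rw [e1]
      refine Finset.sum_le_sum (fun w _ => ?_)
      have h3 : (bad.filter fun y => ∀ i, y i ∈ tS w) ⊆ Fintype.piFinset fun _ => tS w := by
        intro y hy
        rw [Fintype.mem_piFinset]
        exact (Finset.mem_filter.1 hy).2
      have h4 := Finset.card_le_card h3
      rw [Fintype.card_piFinset] at h4
      simp only [Finset.prod_const, Finset.card_univ, Fintype.card_fin] at h4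
      exact_mod_cast h4
    have h2 : ∑ y ∈ bad, (B.card : ℝ) ^ 20 ≤ ∑ y ∈ bad, 384 ^ 20 *
        ((P.filter fun w => ∀ i, y i ∈ tS w).card : ℝ) := Finset.sum_le_sum hlow
    rw [Finset.sum_const, nsmul_eq_mul, ← Finset.mul_sum] at h2
    refine h2.trans (mul_le_mul_of_nonneg_left h1 (by positivity))
  have hup : ∑ w ∈ P, ((tS w).card : ℝ) ^ k ≤ (B.card : ℝ) ^ 20 *
      ((1 / 10) ^ k + 160000 * ξ) * (Fintype.card V : ℝ) ^ k := by
    have h1 : ∀ w ∈ P, ((tS w).card : ℝ) ^ k ≤ ((1 / 10) * Fintype.card V) ^ k +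
        (if w ∈ Q then (Fintype.card V : ℝ) ^ k else 0) := by
      intro w hw
      by_cases hwQ : w ∈ Q
      · rw [if_pos hwQ]
        have h2 : ((tS w).card : ℝ) ≤ Fintype.card V := by
          exact_mod_cast Finset.card_le_univ (tS w)
        have h3 : ((tS w).card : ℝ) ^ k ≤ (Fintype.card V : ℝ) ^ k :=
          pow_le_pow_left₀ (by positivity) h2 k
        have h4 : (0 : ℝ) ≤ ((1 / 10) * Fintype.card V) ^ k := by positivity
        linarith
      · rw [if_neg hwQ, add_zero]
        exact pow_le_pow_left₀ (by positivity) (hgood w hw hwQ) k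
    refine (Finset.sum_le_sum h1).trans ?_
    rw [Finset.sum_add_distrib, Finset.sum_const, hPc, nsmul_eq_mul, ← Finset.sum_filter,
      Finset.sum_const, nsmul_eq_mul]
    have h2 : (P.filter fun w => w ∈ Q) = Q := by
      ext w
      rw [Finset.mem_filter]
      exact ⟨fun h => h.2, fun h => ⟨(Finset.mem_filter.1 h).1, h⟩⟩
    rw [h2]
    have h3 : (Q.card : ℝ) * (Fintype.card V : ℝ) ^ k ≤
        (400 * (400 * ξ) * (B.card : ℝ) ^ 20) * (Fintype.card V : ℝ) ^ k :=
      mul_le_mul_of_nonneg_right hQc (by positivity)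
    rw [mul_pow]
    push_cast
    have e : (B.card : ℝ) ^ 20 * ((1 / 10) ^ k + 160000 * ξ) * (Fintype.card V : ℝ) ^ k =
        (B.card : ℝ) ^ 20 * ((1 / 10) ^ k * (Fintype.card V : ℝ) ^ k) +
        (400 * (400 * ξ) * (B.card : ℝ) ^ 20) * (Fintype.card V : ℝ) ^ k := by ring
    rw [e]
    linarith
  have h1 := hdc.trans (mul_le_mul_of_nonneg_left hup (by positivity))
  have h2 : (bad.card : ℝ) * (B.card : ℝ) ^ 20 ≤ (384 ^ 20 * ((1 / 10) ^ k + 160000 * ξ) *
    (Fintype.card V : ℝ) ^ k) * (B.card : ℝ) ^ 20 := by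
    refine h1.trans (le_of_eq ?_)
    ring
  exact le_of_mul_le_mul_right h2 (by positivity)

theorem bad_tuples : ∃ (ξ : ℝ) (k : ℕ), 0 < ξ ∧ 1 ≤ k ∧ ∀ (V : Type) [Fintype V]
    (c : V → V → Bool) (B : Finset V) (g : ℝ), B.Nonempty → 0 ≤ g → g ≤ 1 →
    ∑ u ∈ B, ∑ v ∈ B, (G c u v - g) ^ 2 ≤ ξ * (B.card : ℝ) ^ 2 →
    ((univ.filter fun y : Fin k → V => (B.card : ℝ) ^ 2 < 192 * (cutPairs c B y : ℝ)).card : ℝ)
      * (8 * 5 ^ k) ≤ (Fintype.card V : ℝ) ^ k := by
  refine ⟨1 / (16 * 384 ^ 20 * 5 ^ 200 * 160000), 200, by positivity, by norm_num, ?_⟩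
  intro V _ c B g hB hg0 _ hG
  have h := bad_aux 200 _ (by positivity) c B g hB hg0 hG
  have hconst : (384 : ℝ) ^ 20 * ((1 / 10) ^ 200 +
      160000 * (1 / (16 * 384 ^ 20 * 5 ^ 200 * 160000))) * (8 * 5 ^ 200) ≤ 1 := by
    norm_num
  have h1 := mul_le_mul_of_nonneg_right h (show (0 : ℝ) ≤ 8 * 5 ^ 200 by positivity)
  refine h1.trans ?_
  have h2 := mul_le_mul_of_nonneg_right hconst
    (show (0 : ℝ) ≤ (Fintype.card V : ℝ) ^ 200 by positivity)
  rw [one_mul] at h2
  refine le_trans (le_of_eq ?_) h2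
  generalize (Fintype.card V : ℝ) ^ 200 = F
  generalize (384 : ℝ) ^ 20 * ((1 / 10) ^ 200 +
      160000 * (1 / (16 * 384 ^ 20 * 5 ^ 200 * 160000))) = A
  generalize (8 : ℝ) * 5 ^ 200 = C
  ring

end Pool.Agent.Lib.MP_0dbebe_co.OneSub
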