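import Pool.Agent.Lib.MP_0dbebe_co.OneSub.Fm
import Pool.Agent.Lib.MP_0dbebe_co.OneSub.Athree
import Pool.Agent.Lib.MP_0dbebe_co.OneSub.Bad

/-! Condition A2: few columns cut many edges simultaneously. -/

set_option autoImplicit false

namespace Pool.Agent.Lib.MP_0dbebe_co.OneSub

open Finset
open scoped Classical

theorem a2 (k : ℕ) (hk : 1 ≤ k) : ∃ C : ℝ, 1 ≤ C ∧ ∀ (V W : Type) [Fintype V] [Fintype W]
    (H : SimpleGraph W) (c : V → V → Bool) (B : Finset V), Fintype.card W ≤ B.card →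
    C * (Fintype.card W : ℝ) ≤ (E H).card → C ≤ (B.card : ℝ) → 1 ≤ (E H).card →
    4 * Fintype.card V ≤ 5 * (E H).card →
    ((univ.filter fun y : Fin k → V => (B.card : ℝ) ^ 2 < 192 * (cutPairs c B y : ℝ)).card : ℝ)
      * (8 * 5 ^ k) ≤ (Fintype.card V : ℝ) ^ k →
    4 * (univ.filter fun φ : W ↪ B => ∃ Y : Finset V, (E H).card ≤ 4 * Y.card ∧
      (E H).card ≤ 64 * (hit H (fn φ) fun u v => ∀ y ∈ Y, c u y ≠ c v y).card).card
      ≤ Fintype.card (W ↪ B) := by
  -- the exponent `j`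
  obtain ⟨j, hj⟩ : ∃ j : ℕ, 2 * (4 / 9 : ℝ) ^ j * (8 * 5 ^ k) ≤ 1 := by
    have h1 : (0 : ℝ) < 1 / (2 * (8 * 5 ^ k)) := by positivity
    obtain ⟨j, hj⟩ := exists_pow_lt_of_lt_one h1 (by norm_num : (4 / 9 : ℝ) < 1)
    refine ⟨j, ?_⟩
    rw [lt_div_iff₀ (by positivity)] at hj
    linarith
  refine ⟨512 * j + 4 * j ^ 2 + 1, by
    have : (0 : ℝ) ≤ 512 * j + 4 * j ^ 2 := by positivity
    linarith, ?_⟩
  intro V W _ _ H c B hWB hCm hCb hm1 hVm hbadc
  set m := (E H).card with hm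
  set n := Fintype.card W with hn
  set f := Fintype.card V with hf
  set emb := Fintype.card (W ↪ B) with hemb
  set bad := univ.filter fun φ : W ↪ B => ∃ Y : Finset V, m ≤ 4 * Y.card ∧
      m ≤ 64 * (hit H (fn φ) fun u v => ∀ y ∈ Y, c u y ≠ c v y).card with hbad
  have hmR : (1 : ℝ) ≤ m := by exact_mod_cast hm1
  have hn0 : (0 : ℝ) ≤ n := by positivity
  have hjR : (0 : ℝ) ≤ j := by positivity
  have hjn : 512 * (j : ℝ) * n + n ≤ m := by
    have h1 : (0 : ℝ) ≤ 4 * (j : ℝ) ^ 2 * n := by positivity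
    nlinarith
  have hjb : 4 * j ^ 2 ≤ B.card := by
    have h1 : (4 * (j : ℝ) ^ 2) ≤ B.card := by nlinarith
    exact_mod_cast h1
  have hnpos : 1 ≤ n := by
    have hne : (E H).Nonempty := card_pos.1 (by omega)
    obtain ⟨e, he⟩ := hne
    induction e using Sym2.ind with
    | _ u v => exact Fintype.card_pos_iff.2 ⟨u⟩
  have hnposR : (1 : ℝ) ≤ n := by exact_mod_cast hnpos
  -- for a tuple `y`
  let Q : (Fin k → V) → (W ↪ B) → Prop := fun y φ =>
    (m : ℝ) / 64 ≤ ((hit H (fn φ) fun u v => ∀ i, c u (y i) ≠ c v (y i)).card : ℝ)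
  -- good tuples
  have hgood : ∀ y : Fin k → V, ¬ ((B.card : ℝ) ^ 2 < 192 * (cutPairs c B y : ℝ)) →
      ((univ.filter fun φ : W ↪ B => Q y φ).card : ℝ) ≤ emb * (2 * (4 / 9 : ℝ) ^ j) := by
    intro y hy
    have hσ : (((B ×ˢ B).filter fun p => (fun u v => ∀ i, c u (y i) ≠ c v (y i)) p.1 p.2).card : ℝ) ≤
        (1 / 192) * (B.card : ℝ) ^ 2 := by
      have h1 : 192 * (cutPairs c B y : ℝ) ≤ (B.card : ℝ) ^ 2 := not_lt.1 hy
      unfold cutPairs at h1
      linarith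
    have h2 := fm H B hWB (fun u v => ∀ i, c u (y i) ≠ c v (y i))
      (fun u v h i => (h i).symm) j hjb ((m : ℝ) / 64) (1 / 192) (by linarith) (by norm_num)
      (by convert hσ)
    set X := ((univ.filter fun φ : W ↪ B => Q y φ).card : ℝ) with hX
    have hX0 : 0 ≤ X := by positivity
    have h3 : (3 * (m : ℝ) / 256) ^ j ≤ ((m : ℝ) / 64 - 2 * j * (n : ℝ)) ^ j := by
      apply pow_le_pow_left₀ (by positivity)
      linarith
    have h4 : X * (3 * (m : ℝ) / 256) ^ j ≤ 2 * (emb : ℝ) * (m * (1 / 192)) ^ j :=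
      (mul_le_mul_of_nonneg_left h3 hX0).trans h2
    have h5 : ((m : ℝ) * (1 / 192)) ^ j = (4 / 9) ^ j * (3 * (m : ℝ) / 256) ^ j := by
      rw [← mul_pow]; congr 1; ring
    rw [h5] at h4
    have h6 : (0 : ℝ) < (3 * (m : ℝ) / 256) ^ j := by positivity
    have h7 : X * (3 * (m : ℝ) / 256) ^ j ≤ (emb * (2 * (4 / 9 : ℝ) ^ j)) * (3 * (m : ℝ) / 256) ^ j := by
      linarith
    exact le_of_mul_le_mul_right h7 h6
  -- lower bound of the double count
  have hlow : ∀ φ ∈ bad, ((m : ℝ) / 4) ^ k ≤ ((univ.filter fun y : Fin k → V => Q y φ).card : ℝ) := by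
    intro φ hφ
    rw [hbad, mem_filter] at hφ
    obtain ⟨-, Y, hY1, hY2⟩ := hφ
    have h1 : (Fintype.piFinset fun _ : Fin k => Y) ⊆ univ.filter fun y : Fin k → V => Q y φ := by
      intro y hy
      rw [Fintype.mem_piFinset] at hy
      rw [mem_filter]
      refine ⟨mem_univ _, ?_⟩
      have h2 : (hit H (fn φ) fun u v => ∀ y ∈ Y, c u y ≠ c v y) ⊆
          (hit H (fn φ) fun u v => ∀ i, c u (y i) ≠ c v (y i)) :=
        hit_mono fun u v h i => h _ (hy i)
      have h3 := card_le_card h2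
      have h4 : m ≤ 64 * (hit H (fn φ) fun u v => ∀ i, c u (y i) ≠ c v (y i)).card := by omega
      have h5 : (m : ℝ) ≤ 64 * ((hit H (fn φ) fun u v => ∀ i, c u (y i) ≠ c v (y i)).card : ℝ) := by
        exact_mod_cast h4
      show (m : ℝ) / 64 ≤ ((hit H (fn φ) fun u v => ∀ i, c u (y i) ≠ c v (y i)).card : ℝ)
      linarith
    have h2 := card_le_card h1
    rw [Fintype.card_piFinset_const] at h2
    have h3 : (m : ℝ) / 4 ≤ Y.card := by
      have : (m : ℝ) ≤ 4 * Y.card := by exact_mod_cast hY1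
      linarith
    calc ((m : ℝ) / 4) ^ k ≤ (Y.card : ℝ) ^ k := pow_le_pow_left₀ (by positivity) h3 k
      _ ≤ _ := by exact_mod_cast h2
  -- upper bound
  set bt := univ.filter fun y : Fin k → V => (B.card : ℝ) ^ 2 < 192 * (cutPairs c B y : ℝ) with hbt
  have hup : ∑ y : Fin k → V, ((univ.filter fun φ : W ↪ B => Q y φ).card : ℝ) ≤
      bt.card * emb + (f : ℝ) ^ k * (emb * (2 * (4 / 9 : ℝ) ^ j)) := by
    rw [← sum_filter_add_sum_filter_not univ
      (fun y : Fin k → V => (B.card : ℝ) ^ 2 < 192 * (cutPairs c B y : ℝ))]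
    apply add_le_add
    · calc ∑ y ∈ bt, ((univ.filter fun φ : W ↪ B => Q y φ).card : ℝ)
          ≤ ∑ y ∈ bt, (emb : ℝ) := by
            apply sum_le_sum
            intro y _
            have : (univ.filter fun φ : W ↪ B => Q y φ).card ≤ emb := by
              rw [hemb, ← card_univ]; exact card_le_card (filter_subset _ _)
            exact_mod_cast this
        _ = bt.card * emb := by rw [sum_const, nsmul_eq_mul]
    · calc ∑ y ∈ univ.filter (fun y : Fin k → V => ¬ (B.card : ℝ) ^ 2 < 192 * (cutPairs c B y : ℝ)),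
            ((univ.filter fun φ : W ↪ B => Q y φ).card : ℝ)
          ≤ ∑ y ∈ univ.filter (fun y : Fin k → V => ¬ (B.card : ℝ) ^ 2 < 192 * (cutPairs c B y : ℝ)),
            (emb * (2 * (4 / 9 : ℝ) ^ j)) := by
            apply sum_le_sum
            intro y hy
            exact hgood y (mem_filter.1 hy).2
        _ = ((univ.filter (fun y : Fin k → V =>
            ¬ (B.card : ℝ) ^ 2 < 192 * (cutPairs c B y : ℝ))).card : ℝ) *
            (emb * (2 * (4 / 9 : ℝ) ^ j)) := by rw [sum_const, nsmul_eq_mul]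
        _ ≤ (f : ℝ) ^ k * (emb * (2 * (4 / 9 : ℝ) ^ j)) := by
            apply mul_le_mul_of_nonneg_right _ (by positivity)
            have h1 : (univ.filter (fun y : Fin k → V =>
                ¬ (B.card : ℝ) ^ 2 < 192 * (cutPairs c B y : ℝ))).card ≤ f ^ k := by
              calc _ ≤ (univ : Finset (Fin k → V)).card := card_le_card (filter_subset _ _)
                _ = f ^ k := by rw [card_univ, Fintype.card_fun, Fintype.card_fin]
            exact_mod_cast h1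
  have hdc : (bad.card : ℝ) * ((m : ℝ) / 4) ^ k ≤
      bt.card * emb + (f : ℝ) ^ k * (emb * (2 * (4 / 9 : ℝ) ^ j)) := by
    calc (bad.card : ℝ) * ((m : ℝ) / 4) ^ k = ∑ φ ∈ bad, ((m : ℝ) / 4) ^ k := by
          rw [sum_const, nsmul_eq_mul]
      _ ≤ ∑ φ ∈ bad, ((univ.filter fun y : Fin k → V => Q y φ).card : ℝ) := sum_le_sum hlow
      _ ≤ ∑ φ : W ↪ B, ((univ.filter fun y : Fin k → V => Q y φ).card : ℝ) := by
          apply sum_le_sum_of_subset_of_nonneg (subset_univ _)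
          intro φ _ _
          positivity
      _ = ∑ y : Fin k → V, ((univ.filter fun φ : W ↪ B => Q y φ).card : ℝ) := by
          simp only [card_filter]
          push_cast
          rw [sum_comm]
      _ ≤ _ := hup
  have hfm : ((f : ℝ) / 5) ^ k ≤ ((m : ℝ) / 4) ^ k := by
    apply pow_le_pow_left₀ (by positivity)
    have : 4 * (f : ℝ) ≤ 5 * m := by exact_mod_cast hVm
    linarith
  have hemb0 : (0 : ℝ) ≤ emb := by positivity
  have h5k : (0 : ℝ) < 5 ^ k := by positivity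
  have hfk0 : (0 : ℝ) ≤ (f : ℝ) ^ k := by positivity
  -- both terms are at most `f^k emb / (8 5^k)`
  have h1 : (bt.card : ℝ) * emb * (8 * 5 ^ k) ≤ (f : ℝ) ^ k * emb := by
    calc (bt.card : ℝ) * emb * (8 * 5 ^ k) = (bt.card * (8 * 5 ^ k)) * emb := by ring
      _ ≤ (f : ℝ) ^ k * emb := mul_le_mul_of_nonneg_right hbadc hemb0
  have h2 : (f : ℝ) ^ k * (emb * (2 * (4 / 9 : ℝ) ^ j)) * (8 * 5 ^ k) ≤ (f : ℝ) ^ k * emb := by
    calc (f : ℝ) ^ k * (emb * (2 * (4 / 9 : ℝ) ^ j)) * (8 * 5 ^ k)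
        = ((f : ℝ) ^ k * emb) * (2 * (4 / 9 : ℝ) ^ j * (8 * 5 ^ k)) := by ring
      _ ≤ ((f : ℝ) ^ k * emb) * 1 := mul_le_mul_of_nonneg_left hj (by positivity)
      _ = _ := mul_one _
  have h3 : (bad.card : ℝ) * ((f : ℝ) / 5) ^ k * (8 * 5 ^ k) ≤ 2 * ((f : ℝ) ^ k * emb) := by
    have h4 : (bad.card : ℝ) * ((f : ℝ) / 5) ^ k ≤
        bt.card * emb + (f : ℝ) ^ k * (emb * (2 * (4 / 9 : ℝ) ^ j)) :=
      (mul_le_mul_of_nonneg_left hfm (by positivity)).trans hdc
    have h5 := mul_le_mul_of_nonneg_right h4 (by positivity : (0 : ℝ) ≤ 8 * 5 ^ k)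
    linarith
  have h4 : ((f : ℝ) / 5) ^ k * 5 ^ k = (f : ℝ) ^ k := by
    rw [← mul_pow]; congr 1; ring
  have hfpos : (0 : ℝ) < (f : ℝ) ^ k := by
    have : 0 < f := by
      have h6 : 0 < B.card := by omega
      have h7 : B.card ≤ f := card_le_univ B
      omega
    positivity
  have h5 : (f : ℝ) ^ k * (8 * (bad.card : ℝ)) ≤ (f : ℝ) ^ k * (2 * emb) := by
    calc (f : ℝ) ^ k * (8 * (bad.card : ℝ)) = (bad.card : ℝ) * (((f : ℝ) / 5) ^ k * 5 ^ k) * 8 := by
          rw [h4]; ring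
      _ = (bad.card : ℝ) * ((f : ℝ) / 5) ^ k * (8 * 5 ^ k) := by ring
      _ ≤ 2 * ((f : ℝ) ^ k * emb) := h3
      _ = (f : ℝ) ^ k * (2 * emb) := by ring
  have h6 := le_of_mul_le_mul_left h5 hfpos
  have h7 : 4 * (bad.card : ℝ) ≤ emb := by linarith
  exact_mod_cast h7

end Pool.Agent.Lib.MP_0dbebe_co.OneSub
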