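import Pool.Agent.Lib.MP_0dbebe_co.OneSub.Defs

/-! A symmetric Hall criterion. -/

set_option autoImplicit false

namespace Pool.Agent.Lib.MP_0dbebe_co.OneSub

open Finset
open scoped Classical

theorem hall_fin {α β : Type} [Nonempty β] (A : Finset α) (X : Finset β) (hAX : A.card = X.card)
    (Ag : α → β → Prop)
    (h1 : ∀ t : ℕ, 4 * t < A.card →
      (X.filter fun x => (A.filter fun e => Ag e x).card ≤ t).card ≤ t)
    (h2 : ∀ Y ⊆ X, A.card ≤ 4 * Y.card →
      64 * (A.filter fun e => ∀ y ∈ Y, ¬ Ag e y).card < A.card)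
    (h3 : ∀ t : ℕ, 64 * t < A.card →
      (A.filter fun e => (X.filter fun x => Ag e x).card ≤ t).card ≤ t) :
    ∃ ψ : α → β, Set.InjOn ψ (A : Set α) ∧ ∀ e ∈ A, ψ e ∈ X ∧ Ag e (ψ e) := by
  have hall : ∀ F : Finset A, F.card ≤ (F.biUnion fun e => X.filter fun x => Ag e x).card := by
    intro F
    by_contra hcon
    push Not at hcon
    set N := F.biUnion fun e => X.filter fun x => Ag e x with hN
    have hNX : N ⊆ X := by
      intro x hx
      rw [hN, mem_biUnion] at hx
      obtain ⟨e, -, he⟩ := hx
      exact (mem_filter.1 he).1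
    let F' : Finset α := F.map ⟨Subtype.val, Subtype.val_injective⟩
    have hF'c : F'.card = F.card := card_map _
    have hF'A : F' ⊆ A := by
      intro e he
      rw [mem_map] at he
      obtain ⟨e, -, rfl⟩ := he
      exact e.2
    have hnot : ∀ e ∈ F', ∀ y ∈ X, y ∉ N → ¬ Ag e y := by
      intro e he y hy hyN hA
      rw [mem_map] at he
      obtain ⟨e, he, rfl⟩ := he
      apply hyN
      rw [hN, mem_biUnion]
      exact ⟨e, he, mem_filter.2 ⟨hy, hA⟩⟩
    let Y := X \ N
    have hYc : Y.card + N.card = X.card := card_sdiff_add_card_eq_card hNX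
    have hYX : Y ⊆ X := sdiff_subset
    have hFA : F.card ≤ A.card := by
      rw [← hF'c]; exact card_le_card hF'A
    have hYpos : 1 ≤ Y.card := by omega
    -- every `y ∈ Y` agrees with at most `|Y| - 1` elements
    have hYt : ∀ y ∈ Y, (A.filter fun e => Ag e y).card ≤ Y.card - 1 := by
      intro y hy
      have hy' := mem_sdiff.1 hy
      have hsub : (A.filter fun e => Ag e y) ⊆ A \ F' := by
        intro e he
        rw [mem_filter] at he
        rw [mem_sdiff]
        exact ⟨he.1, fun h => hnot e h y hy'.1 hy'.2 he.2⟩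
      have h4 := card_le_card hsub
      have h5 := card_sdiff_add_card_eq_card hF'A
      omega
    have hbig : A.card ≤ 4 * Y.card := by
      by_contra hlt
      push Not at hlt
      have h4 := h1 (Y.card - 1) (by omega)
      have hsub : Y ⊆ X.filter fun x => (A.filter fun e => Ag e x).card ≤ Y.card - 1 := by
        intro y hy
        exact mem_filter.2 ⟨hYX hy, hYt y hy⟩
      have h5 := card_le_card hsub
      omega
    have h4 := h2 Y hYX hbig
    have h5 : F.card ≤ (A.filter fun e => ∀ y ∈ Y, ¬ Ag e y).card := by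
      rw [← hF'c]
      apply card_le_card
      intro e he
      rw [mem_filter]
      refine ⟨hF'A he, ?_⟩
      intro y hy
      have hy' := mem_sdiff.1 hy
      exact hnot e he y hy'.1 hy'.2
    have h6 := h3 N.card (by omega)
    have h7 : F.card ≤ (A.filter fun e => (X.filter fun x => Ag e x).card ≤ N.card).card := by
      rw [← hF'c]
      apply card_le_card
      intro e he
      rw [mem_filter]
      refine ⟨hF'A he, ?_⟩
      apply card_le_card
      intro x hx
      rw [mem_filter] at hx
      by_contra hxN
      exact hnot e he x hx.1 hxN hx.2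
    omega
  obtain ⟨f, hf, hfm⟩ := (Finset.all_card_le_biUnion_card_iff_exists_injective
    (fun e : A => X.filter fun x => Ag e x)).1 hall
  obtain ⟨b⟩ := (inferInstance : Nonempty β)
  refine ⟨fun e => if h : e ∈ A then f ⟨e, h⟩ else b, ?_, ?_⟩
  · intro e he e' he' hee
    have he2 : e ∈ A := he
    have he2' : e' ∈ A := he'
    simp only [he2, he2', dif_pos] at hee
    exact congrArg Subtype.val (hf hee)
  · intro e he
    simp only [he, dif_pos]
    have := hfm ⟨e, he⟩
    exact mem_filter.1 this

end Pool.Agent.Lib.MP_0dbebe_co.OneSub
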