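import Pool.Agent.Lib.MP_0dbebe_co.OneSub.Defs

/-! Module LTWO: cut norm small implies L2 small. -/

set_option autoImplicit false

namespace Pool.Agent.Lib.MP_0dbebe_co.OneSub

open Finset
open scoped Classical

theorem l2 {V : Type} [Fintype V] (c : V → V → Bool) (B : Finset V) (g κ : ℝ) (h0 : 0 ≤ g)
    (hg : ∑ u ∈ B, ∑ v ∈ B, G c u v = g * (B.card : ℝ) ^ 2)
    (h : ∀ L ⊆ B, ∀ M ⊆ B, |∑ u ∈ L, ∑ v ∈ M, (G c u v - g)| ≤ κ * (B.card : ℝ) ^ 2) :
    ∑ u ∈ B, ∑ v ∈ B, (G c u v - g) ^ 2 ≤ 4 * κ * (B.card : ℝ) ^ 2 := by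
  rcases B.eq_empty_or_nonempty with hB | ⟨b0, hb0⟩
  · subst hB; simp
  have hf : (0 : ℝ) < Fintype.card V := by
    have : 0 < Fintype.card V := Fintype.card_pos_iff.2 ⟨b0⟩
    exact_mod_cast this
  have hz : ∑ u ∈ B, ∑ v ∈ B, (G c u v - g) = 0 := by
    simp only [Finset.sum_sub_distrib, Finset.sum_const, nsmul_eq_mul]
    rw [hg]; ring
  have hcol : ∀ x : V, ∑ u ∈ B, ∑ v ∈ B, (G c u v - g) * (sg (c u x) * sg (c v x)) ≤
      4 * (κ * (B.card : ℝ) ^ 2) := by
    intro x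
    set P := B.filter fun u => c u x = true with hP
    set N := B.filter fun u => ¬ c u x = true with hN
    have hPs : P ⊆ B := Finset.filter_subset _ _
    have hNs : N ⊆ B := Finset.filter_subset _ _
    have hsplit : ∀ f : V → ℝ, ∑ u ∈ B, f u = ∑ u ∈ P, f u + ∑ u ∈ N, f u := fun f =>
      (Finset.sum_filter_add_sum_filter_not B (fun u => c u x = true) f).symm
    have hsP : ∀ u ∈ P, sg (c u x) = 1 := by
      intro u hu
      rw [(Finset.mem_filter.1 hu).2]; simp [sg]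
    have hsN : ∀ u ∈ N, sg (c u x) = -1 := by
      intro u hu
      have := (Finset.mem_filter.1 hu).2
      simp [sg, this]
    have e : ∑ u ∈ B, ∑ v ∈ B, (G c u v - g) * (sg (c u x) * sg (c v x)) =
        (∑ u ∈ P, ∑ v ∈ P, (G c u v - g)) - (∑ u ∈ P, ∑ v ∈ N, (G c u v - g))
        - (∑ u ∈ N, ∑ v ∈ P, (G c u v - g)) + ∑ u ∈ N, ∑ v ∈ N, (G c u v - g) := by
      rw [hsplit]
      have e1 : ∑ u ∈ P, ∑ v ∈ B, (G c u v - g) * (sg (c u x) * sg (c v x)) =
          (∑ u ∈ P, ∑ v ∈ P, (G c u v - g)) - (∑ u ∈ P, ∑ v ∈ N, (G c u v - g)) := by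
        rw [← Finset.sum_sub_distrib]
        refine Finset.sum_congr rfl (fun u hu => ?_)
        rw [hsplit, sub_eq_add_neg, ← Finset.sum_neg_distrib]
        congr 1
        · refine Finset.sum_congr rfl (fun v hv => ?_)
          rw [hsP u hu, hsP v hv]; ring
        · refine Finset.sum_congr rfl (fun v hv => ?_)
          rw [hsP u hu, hsN v hv]; ring
      have e2 : ∑ u ∈ N, ∑ v ∈ B, (G c u v - g) * (sg (c u x) * sg (c v x)) =
          (∑ u ∈ N, ∑ v ∈ N, (G c u v - g)) - (∑ u ∈ N, ∑ v ∈ P, (G c u v - g)) := by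
        rw [← Finset.sum_sub_distrib]
        refine Finset.sum_congr rfl (fun u hu => ?_)
        rw [hsplit, add_comm, sub_eq_add_neg, ← Finset.sum_neg_distrib]
        congr 1
        · refine Finset.sum_congr rfl (fun v hv => ?_)
          rw [hsN u hu, hsN v hv]; ring
        · refine Finset.sum_congr rfl (fun v hv => ?_)
          rw [hsN u hu, hsP v hv]; ring
      rw [e1, e2]; ring
    rw [e]
    have a1 := (abs_le.1 (h P hPs P hPs)).2
    have a2 := (abs_le.1 (h P hPs N hNs)).1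
    have a3 := (abs_le.1 (h N hNs P hPs)).1
    have a4 := (abs_le.1 (h N hNs N hNs)).2
    linarith
  have hG : ∑ u ∈ B, ∑ v ∈ B, (G c u v - g) * G c u v =
      (∑ x : V, ∑ u ∈ B, ∑ v ∈ B, (G c u v - g) * (sg (c u x) * sg (c v x))) /
        (Fintype.card V : ℝ) := by
    have e1 : ∑ x : V, ∑ u ∈ B, ∑ v ∈ B, (G c u v - g) * (sg (c u x) * sg (c v x)) =
        ∑ u ∈ B, ∑ v ∈ B, (G c u v - g) * (G c u v * (Fintype.card V : ℝ)) := by
      rw [Finset.sum_comm]
      refine Finset.sum_congr rfl (fun u _ => ?_)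
      rw [Finset.sum_comm]
      refine Finset.sum_congr rfl (fun v _ => ?_)
      rw [← Finset.mul_sum]
      congr 1
      unfold G
      field_simp
    rw [e1, Finset.sum_div]
    refine Finset.sum_congr rfl (fun u _ => ?_)
    rw [Finset.sum_div]
    refine Finset.sum_congr rfl (fun v _ => ?_)
    field_simp
  have hexp : ∑ u ∈ B, ∑ v ∈ B, (G c u v - g) ^ 2 =
      ∑ u ∈ B, ∑ v ∈ B, (G c u v - g) * G c u v - g * ∑ u ∈ B, ∑ v ∈ B, (G c u v - g) := by
    rw [Finset.mul_sum, ← Finset.sum_sub_distrib]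
    refine Finset.sum_congr rfl (fun u _ => ?_)
    rw [Finset.mul_sum, ← Finset.sum_sub_distrib]
    refine Finset.sum_congr rfl (fun v _ => ?_)
    ring
  rw [hexp, hz, hG, mul_zero, sub_zero, div_le_iff₀ hf]
  refine (Finset.sum_le_sum (fun x _ => hcol x)).trans ?_
  simp only [Finset.sum_const, Finset.card_univ, nsmul_eq_mul]
  apply le_of_eq; ring

end Pool.Agent.Lib.MP_0dbebe_co.OneSub
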