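import Pool.Agent.Lib.MP_0dbebe_co.OneSub.Drc
import Pool.Agent.Lib.MP_0dbebe_co.OneSub.Energy
import Pool.Agent.Lib.MP_0dbebe_co.OneSub.Ltwo
import Pool.Agent.Lib.MP_0dbebe_co.OneSub.Bad
import Pool.Agent.Lib.MP_0dbebe_co.OneSub.Atwo
import Pool.Agent.Lib.MP_0dbebe_co.OneSub.Aone
import Pool.Agent.Lib.MP_0dbebe_co.OneSub.Athree
import Pool.Agent.Lib.MP_0dbebe_co.OneSub.Hall

set_option autoImplicit false

namespace Pool.Agent.Lib.MP_0dbebe_co.OneSub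

open Finset
open scoped Classical

/-- The numerical end of condition A3. -/
theorem a3_numeric (T K t m q : ℕ) (hT : 512 * K ^ 2 ≤ 8 ^ T) (hT1 : 1 ≤ T) (hq : m ≤ 2 * q)
    (hm : 1 ≤ m) (ht : 64 * t < m) :
    8 * ((2 ^ T * K : ℝ) ^ 2 / (q : ℝ) ^ T) * m * (t : ℝ) ^ T ≤ t := by
  obtain ⟨T', rfl⟩ : ∃ T', T = T' + 1 := ⟨T - 1, by omega⟩
  have hqpos : (0 : ℝ) < q := by
    have : 1 ≤ q := by omega
    exact_mod_cast this
  have hqR : (m : ℝ) ≤ 2 * q := by exact_mod_cast hq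
  have htR : 64 * (t : ℝ) ≤ m := by exact_mod_cast ht.le
  have ht0 : (0 : ℝ) ≤ t := by positivity
  have h1 : (t : ℝ) / q ≤ 1 / 32 := by
    rw [div_le_div_iff₀ hqpos (by norm_num)]
    linarith
  have h2 : (m : ℝ) / q ≤ 2 := by
    rw [div_le_iff₀ hqpos]; exact hqR
  have h3 : ((t : ℝ) / q) ^ T' ≤ (1 / 32) ^ T' := by
    apply pow_le_pow_left₀ (by positivity) h1
  have hTR : 512 * (K : ℝ) ^ 2 ≤ 8 ^ (T' + 1) := by exact_mod_cast hT
  have h4 : 8 * ((2 ^ (T' + 1) * K : ℝ) ^ 2 / (q : ℝ) ^ (T' + 1)) * m * (t : ℝ) ^ (T' + 1)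
      = (8 * (2 ^ (T' + 1) * K : ℝ) ^ 2) * ((m : ℝ) / q) * ((t : ℝ) / q) ^ T' * t := by
    rw [div_pow, pow_succ (t : ℝ) T', pow_succ (q : ℝ) T']
    field_simp
  rw [h4]
  have h5 : (8 * (2 ^ (T' + 1) * K : ℝ) ^ 2) * ((m : ℝ) / q) * ((t : ℝ) / q) ^ T' ≤ 1 := by
    calc (8 * (2 ^ (T' + 1) * K : ℝ) ^ 2) * ((m : ℝ) / q) * ((t : ℝ) / q) ^ T'
        ≤ (8 * (2 ^ (T' + 1) * K : ℝ) ^ 2) * 2 * (1 / 32) ^ T' := by
          apply mul_le_mul _ h3 (by positivity) (by positivity)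
          apply mul_le_mul_of_nonneg_left h2 (by positivity)
      _ = (512 * (K : ℝ) ^ 2) / 8 ^ (T' + 1) := by
          have e1 : ((2 : ℝ) ^ (T' + 1)) ^ 2 = 4 * 4 ^ T' := by
            rw [← pow_mul, mul_comm, pow_mul]; norm_num [pow_succ]; ring
          have e2 : (8 : ℝ) ^ (T' + 1) = 8 * 8 ^ T' := by ring
          have e3 : (1 / 32 : ℝ) ^ T' * 8 ^ T' * 4 ^ T' = 1 := by
            rw [← mul_pow, ← mul_pow]; norm_num
          have h8 : (0 : ℝ) < 8 ^ T' := by positivity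
          rw [mul_pow, e1, e2, eq_div_iff (by positivity)]
          calc 8 * (4 * 4 ^ T' * (K : ℝ) ^ 2) * 2 * (1 / 32) ^ T' * (8 * 8 ^ T')
              = 512 * (K : ℝ) ^ 2 * ((1 / 32 : ℝ) ^ T' * 8 ^ T' * 4 ^ T') := by ring
            _ = 512 * (K : ℝ) ^ 2 := by rw [e3, mul_one]
      _ ≤ 1 := by
          rw [div_le_one (by positivity)]
          exact hTR
  calc (8 * (2 ^ (T' + 1) * K : ℝ) ^ 2) * ((m : ℝ) / q) * ((t : ℝ) / q) ^ T' * t
      ≤ 1 * t := mul_le_mul_of_nonneg_right h5 ht0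
    _ = t := one_mul _

/-- From an embedding satisfying A1, A2, A3 to the one-subdivision. -/
theorem of_good {V W : Type} [Fintype V] [Fintype W] (H : SimpleGraph W) (c : V → V → Bool)
    (B C : Finset V) (hBC : Disjoint B C) (hV : Fintype.card V = (E H).card + Fintype.card W)
    (hm : 1 ≤ (E H).card) (φ : W ↪ B)
    (h1 : ∀ t : ℕ, 4 * t < (E H).card → (univ.filter fun x : V =>
        (E H).card ≤ (hit H (fn φ) fun u v => c u x ≠ c v x).card + t).card ≤ t)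
    (h2 : ∀ Y : Finset V, (E H).card ≤ 4 * Y.card →
      64 * (hit H (fn φ) fun u v => ∀ y ∈ Y, c u y ≠ c v y).card < (E H).card)
    (h3 : ∀ t : ℕ, 64 * t < (E H).card → (hit H (fn φ) fun u v => agr c C u v ≤ t).card ≤ t) :
    ∃ (φ : W → V) (ψ : H.edgeSet → V), Function.Injective φ ∧ Function.Injective ψ ∧
      (∀ e w, ψ e ≠ φ w) ∧
      ∀ (e : H.edgeSet) (u v : W), (e : Sym2 W) = s(u, v) → c (φ u) (ψ e) = c (φ v) (ψ e) := by
  let X : Finset V := (univ.image (fn φ))ᶜ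
  have hX : (E H).card = X.card := by
    rw [card_compl, card_image_of_injective _ (fn_inj φ), card_univ, hV]
    omega
  have hVne : Nonempty V := Fintype.card_pos_iff.1 (by omega)
  obtain ⟨Ag, hAgdef⟩ : ∃ Ag : Sym2 W → V → Prop, ∀ e x, Ag e x ↔ ∃ u v, e = s(u, v) ∧
    c (fn φ u) x = c (fn φ v) x := ⟨_, fun _ _ => Iff.rfl⟩
  have hcut : ∀ (e : Sym2 W) (x : V), ¬ Ag e x → ∀ u v, e = s(u, v) →
      c (fn φ u) x ≠ c (fn φ v) x := by
    intro e x h u v huv heq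
    exact h ((hAgdef e x).2 ⟨u, v, huv, heq⟩)
  obtain ⟨ψ, hψ, hAg⟩ := hall_fin (E H) X hX Ag
    (by
      intro t ht
      refine le_trans (card_le_card ?_) (h1 t ht)
      intro y hy
      rw [mem_filter] at hy ⊢
      refine ⟨mem_univ _, ?_⟩
      have hsub : E H ⊆ ((E H).filter fun e => Ag e y) ∪
          hit H (fn φ) fun u v => c u y ≠ c v y := by
        intro e he
        rw [mem_union]
        by_cases hA : Ag e y
        · left
          exact mem_filter.2 ⟨he, hA⟩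
        · right
          rw [mem_hit]
          refine ⟨mem_E.1 he, ?_⟩
          induction e using Sym2.ind with
          | _ u v => exact ⟨u, v, rfl, hcut _ y hA u v rfl⟩
      have h5 := card_le_card hsub
      have h6 := card_union_le ((E H).filter fun e => Ag e y)
        (hit H (fn φ) fun u v => c u y ≠ c v y)
      have h7 := hy.2
      omega)
    (by
      intro Y _ hY
      have key : 64 * ((E H).filter fun e => ∀ y ∈ Y, ¬ Ag e y).card < (E H).card := by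
        refine lt_of_le_of_lt (Nat.mul_le_mul_left _ (card_le_card ?_)) (h2 Y hY)
        intro e he
        rw [mem_filter] at he
        rw [mem_hit]
        refine ⟨mem_E.1 he.1, ?_⟩
        induction e using Sym2.ind with
        | _ u v => exact ⟨u, v, rfl, fun y hy => hcut _ y (he.2 y hy) u v rfl⟩
      convert key)
    (by
      intro t ht
      refine le_trans (card_le_card ?_) (h3 t ht)
      intro e he
      rw [mem_filter] at he
      rw [mem_hit]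
      refine ⟨mem_E.1 he.1, ?_⟩
      induction e using Sym2.ind with
      | _ u v =>
        refine ⟨u, v, rfl, le_trans (card_le_card ?_) he.2⟩
        intro x hx
        rw [mem_filter] at hx
        refine mem_filter.2 ⟨?_, (hAgdef _ _).2 ⟨u, v, rfl, hx.2⟩⟩
        rw [mem_compl, mem_image]
        rintro ⟨w, -, hw⟩
        exact disjoint_left.1 hBC (fn_mem φ w) (hw ▸ hx.1))
  refine ⟨fn φ, fun e => ψ e.1, fn_inj φ, ?_, ?_, ?_⟩
  · intro e e' h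
    exact Subtype.ext (hψ (mem_E.2 e.2) (mem_E.2 e'.2) h)
  · intro e w h
    have h4 := (hAg e.1 (mem_E.2 e.2)).1
    rw [mem_compl] at h4
    apply h4
    have h5 : ψ e.1 = fn φ w := h
    rw [h5]
    exact mem_image_of_mem _ (mem_univ w)
  · intro e u v huv
    obtain ⟨u', v', h4, h5⟩ := (hAgdef _ _).1 (hAg e.1 (mem_E.2 e.2)).2
    have h6 : s(u, v) = s(u', v') := by rw [← huv]; exact h4
    rw [Sym2.eq_iff] at h6
    rcases h6 with ⟨h7, h8⟩ | ⟨h7, h8⟩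
    · rw [h7, h8]; exact h5
    · rw [h7, h8]; exact h5.symm

theorem core : ∃ C : ℕ, 1 ≤ C ∧ ∀ (W : Type) [Fintype W] (H : SimpleGraph W) (V : Type) [Fintype V]
    (c : V → V → Bool), Fintype.card V = (E H).card + Fintype.card W → 1 ≤ (E H).card →
    C * Fintype.card W ≤ (E H).card →
    ∃ (φ : W → V) (ψ : H.edgeSet → V), Function.Injective φ ∧ Function.Injective ψ ∧
      (∀ e w, ψ e ≠ φ w) ∧
      ∀ (e : H.edgeSet) (u v : W), (e : Sym2 W) = s(u, v) → c (φ u) (ψ e) = c (φ v) (ψ e) := by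
  obtain ⟨ξ, k, hξ, hk, hbad⟩ := bad_tuples
  obtain ⟨K, hK, henergy⟩ := energy (ξ / 4) (by positivity)
  obtain ⟨T, hT1, hT⟩ : ∃ T : ℕ, 2 ≤ T ∧ 512 * K ^ 2 ≤ 8 ^ T := by
    refine ⟨512 * K ^ 2 + 2, by omega, ?_⟩
    have h1 : 512 * K ^ 2 + 2 < 8 ^ (512 * K ^ 2 + 2) := Nat.lt_pow_self (by norm_num)
    omega
  obtain ⟨C2, hC2, ha2⟩ := a2 k hk
  obtain ⟨C1, hC1, ha1⟩ := a1 (2 ^ (T + 1) * K)
  set K1 := 2 ^ (T + 1) * K with hK1
  have hK1pos : 1 ≤ K1 := by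
    rw [hK1]
    exact Nat.mul_pos (by positivity) hK
  refine ⟨⌈C1⌉₊ + ⌈C2⌉₊ * K1 + 4 + 2 * K1, by omega, ?_⟩
  intro W _ H V _ c hV hm hCn
  set m := (E H).card with hmdef
  set n := Fintype.card W with hn
  have hn1 : 1 ≤ n := by
    have hne : (E H).Nonempty := card_pos.1 (by omega)
    obtain ⟨e, he⟩ := hne
    induction e using Sym2.ind with
    | _ u v => exact Fintype.card_pos_iff.2 ⟨u⟩
  have hC1le : C1 ≤ (⌈C1⌉₊ : ℝ) := Nat.le_ceil _
  have hC2le : C2 ≤ (⌈C2⌉₊ : ℝ) := Nat.le_ceil _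
  have hbig : ⌈C1⌉₊ + ⌈C2⌉₊ * K1 + 4 + 2 * K1 ≤ m := by
    calc ⌈C1⌉₊ + ⌈C2⌉₊ * K1 + 4 + 2 * K1 ≤ (⌈C1⌉₊ + ⌈C2⌉₊ * K1 + 4 + 2 * K1) * n :=
          Nat.le_mul_of_pos_right _ hn1
      _ ≤ m := hCn
  have hn4 : 4 * n ≤ m := by
    calc 4 * n ≤ (⌈C1⌉₊ + ⌈C2⌉₊ * K1 + 4 + 2 * K1) * n := by
          apply Nat.mul_le_mul_right; omega
      _ ≤ m := hCn
  have hK1n : K1 * n ≤ m := by
    calc K1 * n ≤ (⌈C1⌉₊ + ⌈C2⌉₊ * K1 + 4 + 2 * K1) * n := by
          apply Nat.mul_le_mul_right; omega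
      _ ≤ m := hCn
  have hC1n : C1 * n ≤ m := by
    have h1 : ⌈C1⌉₊ * n ≤ m := by
      calc ⌈C1⌉₊ * n ≤ (⌈C1⌉₊ + ⌈C2⌉₊ * K1 + 4 + 2 * K1) * n := by
            apply Nat.mul_le_mul_right; omega
        _ ≤ m := hCn
    have h2 : (⌈C1⌉₊ : ℝ) * n ≤ m := by exact_mod_cast h1
    have h3 : C1 * n ≤ (⌈C1⌉₊ : ℝ) * n := mul_le_mul_of_nonneg_right hC1le (by positivity)
    linarith
  have hC2n : C2 * n ≤ m := by
    have h0 : ⌈C2⌉₊ ≤ ⌈C2⌉₊ * K1 := Nat.le_mul_of_pos_right _ hK1pos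
    have h1 : ⌈C2⌉₊ * n ≤ m := by
      calc ⌈C2⌉₊ * n ≤ (⌈C1⌉₊ + ⌈C2⌉₊ * K1 + 4 + 2 * K1) * n := by
            apply Nat.mul_le_mul_right; omega
        _ ≤ m := hCn
    have h2 : (⌈C2⌉₊ : ℝ) * n ≤ m := by exact_mod_cast h1
    have h3 : C2 * n ≤ (⌈C2⌉₊ : ℝ) * n := mul_le_mul_of_nonneg_right hC2le (by positivity)
    linarith
  -- the splitting of the vertex set
  obtain ⟨Cc, -, hCc⟩ := exists_subset_card_eq (s := (univ : Finset V)) (n := (m + 1) / 2)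
    (by rw [card_univ, hV]; omega)
  have hRcard : (Ccᶜ).card = m + n - (m + 1) / 2 := by
    rw [card_compl, hV, hCc]
  have hCcne : Cc.Nonempty := card_pos.1 (by omega)
  have hRne : (Ccᶜ).Nonempty := card_pos.1 (by omega)
  obtain ⟨I, hIR, hIne, hIcard, hIpos, hIsum⟩ := drc c Ccᶜ Cc hRne hCcne T (by omega)
  obtain ⟨B, hBI, hBne, hBcard, g, hg0, hg1, hgsum, hcut⟩ := henergy V c I hIne
  have hl2 := l2 c B g (ξ / 4) hg0 hgsum hcut
  have hl2' : ∑ u ∈ B, ∑ v ∈ B, (G c u v - g) ^ 2 ≤ ξ * (B.card : ℝ) ^ 2 := by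
    have : 4 * (ξ / 4) = ξ := by ring
    rw [this] at hl2
    exact hl2
  have hbd := hbad V c B g hBne hg0 hg1 hl2'
  have hBC : Disjoint B Cc := by
    apply disjoint_of_subset_left (hBI.trans hIR)
    exact disjoint_compl_left
  have hRB : (Ccᶜ).card ≤ 2 ^ T * K * B.card := by
    calc (Ccᶜ).card ≤ 2 ^ T * I.card := hIcard
      _ ≤ 2 ^ T * (K * B.card) := Nat.mul_le_mul_left _ hBcard
      _ = 2 ^ T * K * B.card := by ring
  have hmB : m ≤ K1 * B.card := by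
    have h1 : m ≤ 2 * (Ccᶜ).card := by omega
    calc m ≤ 2 * (Ccᶜ).card := h1
      _ ≤ 2 * (2 ^ T * K * B.card) := Nat.mul_le_mul_left _ hRB
      _ = K1 * B.card := by rw [hK1]; ring
  have hnB : n ≤ B.card := by
    have h1 : K1 * n ≤ K1 * B.card := hK1n.trans hmB
    exact Nat.le_of_mul_le_mul_left h1 hK1pos
  have hBbig : ⌈C2⌉₊ + 2 ≤ B.card := by
    have h1 : K1 * (⌈C2⌉₊ + 2) ≤ K1 * B.card := by
      calc K1 * (⌈C2⌉₊ + 2) = ⌈C2⌉₊ * K1 + 2 * K1 := by ring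
        _ ≤ m := by omega
        _ ≤ K1 * B.card := hmB
    exact Nat.le_of_mul_le_mul_left h1 hK1pos
  have hC2B : C2 ≤ (B.card : ℝ) := by
    have h1 : ((⌈C2⌉₊ : ℕ) : ℝ) ≤ B.card := by exact_mod_cast (by omega : ⌈C2⌉₊ ≤ B.card)
    linarith
  have hC1m : C1 ≤ (m : ℝ) := by
    have h1 : ((⌈C1⌉₊ : ℕ) : ℝ) ≤ m := by exact_mod_cast (by omega : ⌈C1⌉₊ ≤ m)
    linarith
  have e2 := ha2 V W H c B hnB hC2n hC2B hm (by rw [hV]; omega) hbd
  have e1 := ha1 V W H c B hnB (by rw [hV]; omega) hmB hC1n hC1m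
  have hqT : (0 : ℝ) < (Cc.card : ℝ) ^ T := by
    have : 0 < Cc.card := card_pos.2 hCcne
    positivity
  have e3 := a3 H c B Cc hnB (by omega) T ((2 ^ T * K : ℝ) ^ 2 / (Cc.card : ℝ) ^ T)
    (fun u hu v hv => hIpos u (hBI hu) v (hBI hv)) (by
      have h1 : ∑ u ∈ B, ∑ v ∈ B, ((agr c Cc u v : ℝ)⁻¹) ^ T ≤
          ∑ u ∈ I, ∑ v ∈ I, ((agr c Cc u v : ℝ)⁻¹) ^ T := by
        calc ∑ u ∈ B, ∑ v ∈ B, ((agr c Cc u v : ℝ)⁻¹) ^ T
            ≤ ∑ u ∈ B, ∑ v ∈ I, ((agr c Cc u v : ℝ)⁻¹) ^ T := by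
              apply sum_le_sum
              intro u _
              apply sum_le_sum_of_subset_of_nonneg hBI
              intro v _ _
              positivity
          _ ≤ ∑ u ∈ I, ∑ v ∈ I, ((agr c Cc u v : ℝ)⁻¹) ^ T := by
              apply sum_le_sum_of_subset_of_nonneg hBI
              intro v _ _
              positivity
      have h2 : (((Ccᶜ).card : ℕ) : ℝ) ≤ 2 ^ T * K * B.card := by exact_mod_cast hRB
      have h3 : (((Ccᶜ).card : ℕ) : ℝ) ^ 2 ≤ (2 ^ T * K * B.card) ^ 2 :=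
        pow_le_pow_left₀ (by positivity) h2 2
      rw [div_mul_eq_mul_div, le_div_iff₀ hqT]
      calc (∑ u ∈ B, ∑ v ∈ B, ((agr c Cc u v : ℝ)⁻¹) ^ T) * (Cc.card : ℝ) ^ T
          ≤ (∑ u ∈ I, ∑ v ∈ I, ((agr c Cc u v : ℝ)⁻¹) ^ T) * (Cc.card : ℝ) ^ T :=
            mul_le_mul_of_nonneg_right h1 hqT.le
        _ ≤ (((Ccᶜ).card : ℕ) : ℝ) ^ 2 := hIsum
        _ ≤ (2 ^ T * K * B.card) ^ 2 := h3
        _ = (2 ^ T * K : ℝ) ^ 2 * (B.card : ℝ) ^ 2 := by ring)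
  -- a good embedding
  obtain ⟨φ, hφ1, hφ2, hφ3⟩ : ∃ φ : W ↪ B,
      (¬ ∃ t : ℕ, 4 * t < (E H).card ∧ t < (univ.filter fun x : V =>
        (E H).card ≤ (hit H (fn φ) fun u v => c u x ≠ c v x).card + t).card) ∧
      (¬ ∃ Y : Finset V, (E H).card ≤ 4 * Y.card ∧
        (E H).card ≤ 64 * (hit H (fn φ) fun u v => ∀ y ∈ Y, c u y ≠ c v y).card) ∧
      ¬ ∃ t : ℕ, 1 ≤ t ∧ 8 * ((2 ^ T * K : ℝ) ^ 2 / (Cc.card : ℝ) ^ T) * (E H).card * (t : ℝ) ^ T <
        ((hit H (fn φ) fun u v => agr c Cc u v ≤ t).card : ℝ) := by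
    by_contra hcon
    push Not at hcon
    have hcover : (univ : Finset (W ↪ B)) ⊆
        (univ.filter fun φ : W ↪ B => ∃ t : ℕ, 4 * t < (E H).card ∧ t < (univ.filter fun x : V =>
          (E H).card ≤ (hit H (fn φ) fun u v => c u x ≠ c v x).card + t).card) ∪
        ((univ.filter fun φ : W ↪ B => ∃ Y : Finset V, (E H).card ≤ 4 * Y.card ∧
          (E H).card ≤ 64 * (hit H (fn φ) fun u v => ∀ y ∈ Y, c u y ≠ c v y).card) ∪
        (univ.filter fun φ : W ↪ B => ∃ t : ℕ, 1 ≤ t ∧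
          8 * ((2 ^ T * K : ℝ) ^ 2 / (Cc.card : ℝ) ^ T) * (E H).card * (t : ℝ) ^ T <
          ((hit H (fn φ) fun u v => agr c Cc u v ≤ t).card : ℝ))) := by
      intro φ _
      by_cases p1 : ∃ t : ℕ, 4 * t < (E H).card ∧ t < (univ.filter fun x : V =>
          (E H).card ≤ (hit H (fn φ) fun u v => c u x ≠ c v x).card + t).card
      · exact mem_union_left _ (mem_filter.2 ⟨mem_univ _, p1⟩)
      · apply mem_union_right
        by_cases p2 : ∃ Y : Finset V, (E H).card ≤ 4 * Y.card ∧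
            (E H).card ≤ 64 * (hit H (fn φ) fun u v => ∀ y ∈ Y, c u y ≠ c v y).card
        · exact mem_union_left _ (mem_filter.2 ⟨mem_univ _, p2⟩)
        · apply mem_union_right
          refine mem_filter.2 ⟨mem_univ _, ?_⟩
          push Not at p1 p2
          exact hcon φ p1 p2
    have hc1 := card_le_card hcover
    have hc2 := card_union_le (univ.filter fun φ : W ↪ B => ∃ t : ℕ, 4 * t < (E H).card ∧
        t < (univ.filter fun x : V =>
          (E H).card ≤ (hit H (fn φ) fun u v => c u x ≠ c v x).card + t).card)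
        ((univ.filter fun φ : W ↪ B => ∃ Y : Finset V, (E H).card ≤ 4 * Y.card ∧
          (E H).card ≤ 64 * (hit H (fn φ) fun u v => ∀ y ∈ Y, c u y ≠ c v y).card) ∪
        (univ.filter fun φ : W ↪ B => ∃ t : ℕ, 1 ≤ t ∧
          8 * ((2 ^ T * K : ℝ) ^ 2 / (Cc.card : ℝ) ^ T) * (E H).card * (t : ℝ) ^ T <
          ((hit H (fn φ) fun u v => agr c Cc u v ≤ t).card : ℝ)))
    have hc3 := card_union_le (univ.filter fun φ : W ↪ B => ∃ Y : Finset V,
        (E H).card ≤ 4 * Y.card ∧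
          (E H).card ≤ 64 * (hit H (fn φ) fun u v => ∀ y ∈ Y, c u y ≠ c v y).card)
        (univ.filter fun φ : W ↪ B => ∃ t : ℕ, 1 ≤ t ∧
          8 * ((2 ^ T * K : ℝ) ^ 2 / (Cc.card : ℝ) ^ T) * (E H).card * (t : ℝ) ^ T <
          ((hit H (fn φ) fun u v => agr c Cc u v ≤ t).card : ℝ))
    rw [card_univ] at hc1
    omega
  refine of_good H c B Cc hBC hV hm φ ?_ ?_ ?_
  · intro t ht
    by_contra hcon
    exact hφ1 ⟨t, ht, not_le.1 hcon⟩
  · intro Y hY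
    by_contra hcon
    exact hφ2 ⟨Y, hY, not_lt.1 hcon⟩
  · intro t ht
    rcases Nat.eq_zero_or_pos t with h0 | h0
    · subst h0
      rw [Nat.le_zero, card_eq_zero, eq_empty_iff_forall_notMem]
      intro e he
      rw [mem_hit] at he
      obtain ⟨-, u, v, -, h5⟩ := he
      have h6 := hIpos _ (hBI (fn_mem φ u)) _ (hBI (fn_mem φ v))
      omega
    · by_contra hcon
      apply hφ3
      refine ⟨t, h0, ?_⟩
      have h5 := a3_numeric T K t m Cc.card hT (by omega) (by rw [hCc]; omega) hm ht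
      have h6 : (t : ℝ) < ((hit H (fn φ) fun u v => agr c Cc u v ≤ t).card : ℝ) := by
        exact_mod_cast not_le.1 hcon
      exact lt_of_le_of_lt h5 h6

end Pool.Agent.Lib.MP_0dbebe_co.OneSub
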