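import Pool.Agent.Lib.MP_0dbebe_co.OneSub.Defs

/-! Module DRC: dependent random choice. -/

set_option autoImplicit false

namespace Pool.Agent.Lib.MP_0dbebe_co.OneSub

open Finset
open scoped Classical

theorem drc {V : Type} [Fintype V] (c : V → V → Bool) (R C : Finset V) (hR : R.Nonempty)
    (hC : C.Nonempty) (T : ℕ) (hT : 1 ≤ T) :
    ∃ I ⊆ R, I.Nonempty ∧ R.card ≤ 2 ^ T * I.card ∧ (∀ u ∈ I, ∀ v ∈ I, 0 < agr c C u v) ∧
      (∑ u ∈ I, ∑ v ∈ I, ((agr c C u v : ℝ)⁻¹) ^ T) * (C.card : ℝ) ^ T ≤ (R.card : ℝ) ^ 2 := by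
  set X : Finset (Fin T → V) := Fintype.piFinset fun _ => C with hX
  have hXc : X.card = C.card ^ T := by
    rw [hX, Fintype.card_piFinset]; simp
  set S : (Fin T → V) → ℝ := fun x => ∑ u ∈ R, ∑ v ∈ R,
    if ∀ i, c u (x i) = c v (x i) then ((agr c C u v : ℝ)⁻¹) ^ T else 0 with hS
  have hsum : ∑ x ∈ X, S x ≤ (R.card : ℝ) ^ 2 := by
    rw [hS]
    simp only
    rw [Finset.sum_comm]
    have h1 : ∀ u ∈ R, ∑ x ∈ X, ∑ v ∈ R,
        (if ∀ i, c u (x i) = c v (x i) then ((agr c C u v : ℝ)⁻¹) ^ T else 0) ≤ R.card := by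
      intro u _
      rw [Finset.sum_comm]
      have h2 : ∀ v ∈ R, ∑ x ∈ X,
          (if ∀ i, c u (x i) = c v (x i) then ((agr c C u v : ℝ)⁻¹) ^ T else 0) ≤ 1 := by
        intro v _
        rw [← Finset.sum_filter, Finset.sum_const]
        have h3 : (X.filter fun x => ∀ i, c u (x i) = c v (x i)) =
            Fintype.piFinset fun _ : Fin T => C.filter fun y => c u y = c v y := by
          ext x
          simp only [hX, Finset.mem_filter, Fintype.mem_piFinset]
          exact ⟨fun h i => ⟨h.1 i, h.2 i⟩, fun h => ⟨fun i => (h i).1, fun i => (h i).2⟩⟩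
        rw [h3, Fintype.card_piFinset]
        simp only [Finset.prod_const, Finset.card_univ, Fintype.card_fin, nsmul_eq_mul]
        have h4 : ((C.filter fun y => c u y = c v y).card : ℝ) = (agr c C u v : ℝ) := rfl
        push_cast
        rw [h4, ← mul_pow]
        by_cases h5 : (agr c C u v : ℝ) = 0
        · rw [h5]
          simp
          rw [zero_pow (by omega)]
          norm_num
        · rw [mul_inv_cancel₀ h5, one_pow]
      refine (Finset.sum_le_sum h2).trans ?_
      simp
    refine (Finset.sum_le_sum h1).trans ?_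
    simp [sq]
  obtain ⟨x, hxX, hx⟩ : ∃ x ∈ X, S x * (C.card : ℝ) ^ T ≤ (R.card : ℝ) ^ 2 := by
    by_contra hcon
    push Not at hcon
    have hCpos : (0 : ℝ) < (C.card : ℝ) ^ T := by
      have : 0 < C.card := Finset.card_pos.2 hC
      positivity
    have hXne : X.Nonempty := by
      rw [← Finset.card_pos, hXc]
      exact pow_pos (Finset.card_pos.2 hC) T
    have h1 : ∑ x ∈ X, (R.card : ℝ) ^ 2 < ∑ x ∈ X, S x * (C.card : ℝ) ^ T :=
      Finset.sum_lt_sum_of_nonempty hXne hcon
    rw [← Finset.sum_mul, Finset.sum_const, hXc, nsmul_eq_mul] at h1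
    push_cast at h1
    nlinarith
  -- the pattern classes
  set F : (Fin T → Bool) → Finset V := fun p => R.filter fun u => (fun i => c u (x i)) = p with hF
  obtain ⟨p, -, hp⟩ := Finset.exists_max_image (univ : Finset (Fin T → Bool))
    (fun p => (F p).card) ⟨fun _ => true, Finset.mem_univ _⟩
  have hRle : R.card ≤ 2 ^ T * (F p).card := by
    have h1 := Finset.card_eq_sum_card_fiberwise (f := fun u => (fun i => c u (x i))) (s := R)
      (t := (univ : Finset (Fin T → Bool))) (fun _ _ => by simp)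
    rw [h1]
    refine (Finset.sum_le_card_nsmul _ _ (F p).card (fun q hq => hp q hq)).trans ?_
    simp
  refine ⟨F p, Finset.filter_subset _ _, ?_, hRle, ?_, ?_⟩
  · rw [← Finset.card_pos]
    have : 0 < R.card := Finset.card_pos.2 hR
    by_contra hcon
    have : (F p).card = 0 := by omega
    rw [this] at hRle
    omega
  · intro u hu v hv
    unfold agr
    rw [Finset.card_pos]
    refine ⟨x ⟨0, hT⟩, ?_⟩
    rw [Finset.mem_filter]
    rw [hX, Fintype.mem_piFinset] at hxX
    refine ⟨hxX _, ?_⟩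
    have h1 := (Finset.mem_filter.1 hu).2
    have h2 := (Finset.mem_filter.1 hv).2
    exact congrFun (h1.trans h2.symm) ⟨0, hT⟩
  · refine le_trans ?_ hx
    refine mul_le_mul_of_nonneg_right ?_ (by positivity)
    rw [hS]
    simp only
    calc ∑ u ∈ F p, ∑ v ∈ F p, ((agr c C u v : ℝ)⁻¹) ^ T
        = ∑ u ∈ F p, ∑ v ∈ F p,
          (if ∀ i, c u (x i) = c v (x i) then ((agr c C u v : ℝ)⁻¹) ^ T else 0) := by
          refine Finset.sum_congr rfl (fun u hu => Finset.sum_congr rfl (fun v hv => ?_))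
          rw [if_pos]
          intro i
          have h1 := (Finset.mem_filter.1 hu).2
          have h2 := (Finset.mem_filter.1 hv).2
          exact congrFun (h1.trans h2.symm) i
      _ ≤ ∑ u ∈ F p, ∑ v ∈ R,
          (if ∀ i, c u (x i) = c v (x i) then ((agr c C u v : ℝ)⁻¹) ^ T else 0) := by
          refine Finset.sum_le_sum (fun u _ => ?_)
          refine Finset.sum_le_sum_of_subset_of_nonneg (Finset.filter_subset _ _) ?_
          intro v _ _
          positivity
      _ ≤ _ := by
          refine Finset.sum_le_sum_of_subset_of_nonneg (Finset.filter_subset _ _) ?_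
          intro u _ _
          positivity

end Pool.Agent.Lib.MP_0dbebe_co.OneSub
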