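import Pool.Agent.Lib.MP_0dbebe_co.OneSub.Defs

/-!
# Random injections: restriction to a subset, and a Chernoff bound for the lower tail
-/

set_option autoImplicit false
set_option linter.unusedSectionVars false

namespace Pool.Agent.Lib.MP_0dbebe_co.OneSub

open Finset
open scoped Classical

section split

variable {α β : Type} [Fintype α] [Fintype β]

/-- an embedding is an embedding of a part, and an embedding of the other part into the rest -/
noncomputable def splitE (p : α → Prop) :
    (α ↪ β) ≃ Σ f : {v // p v} ↪ β, {v // ¬ p v} ↪ ↥(Set.range f)ᶜ :=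
  (Equiv.embeddingCongr (Equiv.sumCompl p).symm (Equiv.refl β)).trans
    Equiv.sumEmbeddingEquivSigmaEmbeddingRestricted

theorem splitE_fst (p : α → Prop) (φ : α ↪ β) (v : {v // p v}) :
    (splitE p φ).1 v = φ v := by
  have h : ((Equiv.embeddingCongr (Equiv.sumCompl p).symm (Equiv.refl β)) φ) (Sum.inl v) = φ v := by
    simp [Equiv.embeddingCongr]
  exact h

theorem splitE_snd (p : α → Prop) (φ : α ↪ β) (v : {v // ¬ p v}) :
    ((splitE p φ).2 v : β) = φ v := by
  have h : ((Equiv.embeddingCongr (Equiv.sumCompl p).symm (Equiv.refl β)) φ) (Sum.inr v) = φ v := by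
    simp [Equiv.embeddingCongr]
  exact h

theorem splitE_symm_pos (p : α → Prop) (x : Σ f : {v // p v} ↪ β, {v // ¬ p v} ↪ ↥(Set.range f)ᶜ)
    (v : {v // p v}) : (splitE p).symm x v = x.1 v := by
  have := splitE_fst p ((splitE p).symm x) v
  rw [Equiv.apply_symm_apply] at this
  exact this.symm

theorem splitE_symm_neg (p : α → Prop) (x : Σ f : {v // p v} ↪ β, {v // ¬ p v} ↪ ↥(Set.range f)ᶜ)
    (v : {v // ¬ p v}) : (splitE p).symm x v = (x.2 v : β) := by
  have := splitE_snd p ((splitE p).symm x) v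
  rw [Equiv.apply_symm_apply] at this
  exact this.symm

theorem card_rest {γ : Type} [Fintype γ] (f : γ ↪ β) :
    Fintype.card ↥(Set.range f)ᶜ = Fintype.card β - Fintype.card γ := by
  rw [Fintype.card_compl_set, Set.card_range_of_injective f.injective]

theorem card_split (p : α → Prop) (P : (α ↪ β) → Prop) :
    (univ.filter P).card = ∑ f : {v // p v} ↪ β,
      (univ.filter fun g : {v // ¬ p v} ↪ ↥(Set.range f)ᶜ => P ((splitE p).symm ⟨f, g⟩)).card := by
  rw [← Finset.card_sigma]
  apply Finset.card_bij (fun φ _ => splitE p φ)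
  · intro φ hφ
    simp only [mem_sigma, mem_univ, mem_filter, true_and] at hφ ⊢
    have : (splitE p).symm ⟨(splitE p φ).1, (splitE p φ).2⟩ = φ := (splitE p).symm_apply_apply φ
    rw [this]; exact hφ
  · intro φ _ φ' _ h
    exact (splitE p).injective h
  · rintro ⟨f, g⟩ hx
    simp only [mem_sigma, mem_univ, mem_filter, true_and] at hx
    exact ⟨(splitE p).symm ⟨f, g⟩, by simpa using hx, by simp⟩

end split

theorem card_split_inst {α β : Type} [Fintype α] [Fintype β] (p : α → Prop)
    (P : (α ↪ β) → Prop) (d1 : DecidablePred P) (i1 : Fintype ({v // p v} ↪ β))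
    (i2 : ∀ f : {v // p v} ↪ β, Fintype ({v // ¬ p v} ↪ ↥(Set.range f)ᶜ))
    (d2 : ∀ f : {v // p v} ↪ β,
      DecidablePred fun g : {v // ¬ p v} ↪ ↥(Set.range f)ᶜ => P ((splitE p).symm ⟨f, g⟩)) :
    (@Finset.filter _ P d1 univ).card =
      ∑ f ∈ @univ _ i1, (@Finset.filter _ _ (d2 f) (@univ _ (i2 f))).card := by
  refine Eq.trans (congrArg Finset.card (Finset.ext fun φ => ?_)) ((card_split p P).trans ?_)
  · exact (@Finset.mem_filter _ P d1 univ φ).trans
      (@Finset.mem_filter _ P (fun a => Classical.propDecidable (P a)) univ φ).symm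
  · refine Finset.sum_congr (Finset.ext fun f => ?_)
      fun f _ => congrArg Finset.card (Finset.ext fun g => ?_)
    · simp only [mem_univ]
    · refine (@Finset.mem_filter _ _ (fun a => Classical.propDecidable _) _ g).trans
        (Iff.trans ?_ (@Finset.mem_filter _ _ (d2 f) (@univ _ (i2 f)) g).symm)
      simp only [mem_univ]

theorem filter_card_dec {γ : Type} {P : γ → Prop} (d1 d2 : DecidablePred P) (s : Finset γ) :
    (@Finset.filter γ P d1 s).card = (@Finset.filter γ P d2 s).card := by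
  have h : d1 = d2 := Subsingleton.elim _ _
  rw [h]

section step

theorem desc_le (k j : ℕ) (s : ℕ) (hs : s ≤ k) :
    (k - j).descFactorial s * k ^ s ≤ (k - j) ^ s * k.descFactorial s := by
  induction s with
  | zero => simp
  | succ s ih =>
    have ih := ih (by omega)
    rw [Nat.descFactorial_succ, Nat.descFactorial_succ, pow_succ, pow_succ]
    have h1 : (k - j - s) * k ≤ (k - j) * (k - s) := by
      rcases le_total k (j + s) with h | h
      · have : k - j - s = 0 := by omega
        rw [this]; simp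
      · obtain ⟨i, rfl⟩ : ∃ i, k = j + s + i := ⟨k - (j + s), by omega⟩
        have e1 : j + s + i - j - s = i := by omega
        have e2 : j + s + i - j = s + i := by omega
        have e3 : j + s + i - s = j + i := by omega
        rw [e1, e2, e3]
        nlinarith
    calc (k - j - s) * (k - j).descFactorial s * (k ^ s * k)
        = ((k - j - s) * k) * ((k - j).descFactorial s * k ^ s) := by ring
      _ ≤ ((k - j) * (k - s)) * ((k - j) ^ s * k.descFactorial s) := Nat.mul_le_mul h1 ih
      _ = (k - j) ^ s * (k - j) * ((k - s) * k.descFactorial s) := by ring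

variable {α β : Type} [Fintype α] [Fintype β]

theorem step (hαβ : Fintype.card α ≤ Fintype.card β) (S : Finset α) (Q : Finset β) :
    (univ.filter fun χ : α ↪ β => ∀ v ∈ S, χ v ∉ Q).card * Fintype.card β ^ S.card ≤
      (Fintype.card β - Q.card) ^ S.card * Fintype.card (α ↪ β) := by
  obtain ⟨p, hp⟩ : ∃ p : α → Prop, ∀ v, p v ↔ v ∈ S := ⟨fun v => v ∈ S, fun _ => Iff.rfl⟩
  have hcS : Fintype.card {v // p v} = S.card := by
    rw [Fintype.card_subtype]
    congr 1
    ext v
    rw [mem_filter, hp]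
    exact ⟨fun h => h.2, fun h => ⟨mem_univ _, h⟩⟩
  have hSα : S.card ≤ Fintype.card α := card_le_univ S
  set F : ℕ := (Fintype.card β - S.card).descFactorial (Fintype.card {v // ¬ p v}) with hF
  have hfib : ∀ f : {v // p v} ↪ β,
      Fintype.card ({v // ¬ p v} ↪ ↥(Set.range f)ᶜ) = F := by
    intro f
    rw [Fintype.card_embedding_eq, card_rest, hcS]
  have hall : Fintype.card (α ↪ β) = (Fintype.card β).descFactorial S.card * F := by
    rw [Fintype.card_congr (splitE p), Fintype.card_sigma, Finset.sum_congr rfl (fun f _ => hfib f),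
      Finset.sum_const, card_univ, Fintype.card_embedding_eq, hcS, smul_eq_mul]
  have hgood : (univ.filter fun f : {v // p v} ↪ β => ∀ v, f v ∉ Q).card ≤
      (Fintype.card β - Q.card).descFactorial S.card := by
    have h1 : (univ.filter fun f : {v // p v} ↪ β => ∀ v, f v ∉ Q).card =
        Fintype.card {f : {v // p v} ↪ β // ∀ v, f v ∉ Q} := by
      rw [Fintype.card_subtype]
    have h2 : Fintype.card ({v // p v} ↪ {x : β // x ∉ Q}) =
        (Fintype.card β - Q.card).descFactorial S.card := by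
      rw [Fintype.card_embedding_eq, hcS]
      congr 1
      rw [Fintype.card_subtype_compl]
      simp
    rw [h1, ← h2]
    apply Fintype.card_le_of_injective
      (fun f : {f : {v // p v} ↪ β // ∀ v, f v ∉ Q} =>
        (⟨fun v => (⟨f.1 v, f.2 v⟩ : {x : β // x ∉ Q}), fun a b hab => by
          apply f.1.injective
          exact congrArg Subtype.val hab⟩ : {v // p v} ↪ {x : β // x ∉ Q}))
    intro f g hfg
    apply Subtype.ext
    ext v
    have := congrArg (fun h : {v // p v} ↪ {x : β // x ∉ Q} => (h v : β)) hfg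
    exact this
  have hev : (univ.filter fun χ : α ↪ β => ∀ v ∈ S, χ v ∉ Q).card ≤
      (Fintype.card β - Q.card).descFactorial S.card * F := by
    have hs : (univ.filter fun χ : α ↪ β => ∀ v ∈ S, χ v ∉ Q).card =
        ∑ f : {v // p v} ↪ β, (univ.filter fun g : {v // ¬ p v} ↪ ↥(Set.range f)ᶜ =>
          ∀ v ∈ S, (splitE p).symm ⟨f, g⟩ v ∉ Q).card := by
      refine (filter_card_dec _ _ _).trans
        ((card_split p (fun χ : α ↪ β => ∀ v ∈ S, χ v ∉ Q)).trans ?_)
      exact Finset.sum_congr rfl fun f _ => filter_card_dec _ _ _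
    rw [hs]
    have h3 : ∀ f : {v // p v} ↪ β, (univ.filter fun g : {v // ¬ p v} ↪ ↥(Set.range f)ᶜ =>
        ∀ v ∈ S, (splitE p).symm ⟨f, g⟩ v ∉ Q).card ≤ if (∀ v, f v ∉ Q) then F else 0 := by
      intro f
      split_ifs with h
      · rw [← hfib f]
        exact card_le_univ _
      · rw [Nat.le_zero, Finset.card_eq_zero, Finset.filter_eq_empty_iff]
        intro g _ hg
        apply h
        intro v
        have := hg v ((hp _).1 v.2)
        rwa [splitE_symm_pos p ⟨f, g⟩ v] at this
    refine (Finset.sum_le_sum fun f _ => h3 f).trans ?_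
    rw [← Finset.sum_filter, Finset.sum_const, smul_eq_mul]
    exact Nat.mul_le_mul_right _ hgood
  calc (univ.filter fun χ : α ↪ β => ∀ v ∈ S, χ v ∉ Q).card * Fintype.card β ^ S.card
      ≤ ((Fintype.card β - Q.card).descFactorial S.card * F) * Fintype.card β ^ S.card :=
        Nat.mul_le_mul_right _ hev
    _ = ((Fintype.card β - Q.card).descFactorial S.card * Fintype.card β ^ S.card) * F := by ring
    _ ≤ ((Fintype.card β - Q.card) ^ S.card * (Fintype.card β).descFactorial S.card) * F :=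
        Nat.mul_le_mul_right _ (desc_le _ _ _ (hSα.trans hαβ))
    _ = (Fintype.card β - Q.card) ^ S.card * Fintype.card (α ↪ β) := by rw [hall]; ring

theorem step_real (hαβ : Fintype.card α ≤ Fintype.card β) (S : Finset α) (Q : Finset β) {q : ℝ}
    (hq : q * Fintype.card β ≤ Q.card) :
    ((univ.filter fun χ : α ↪ β => ∀ v ∈ S, χ v ∉ Q).card : ℝ) ≤
      (1 - q) ^ S.card * Fintype.card (α ↪ β) := by
  have hSα : S.card ≤ Fintype.card α := card_le_univ S
  rcases Nat.eq_zero_or_pos (Fintype.card β) with h0 | h0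
  · have : S.card = 0 := by omega
    rw [this, pow_zero, one_mul]
    have : (univ.filter fun χ : α ↪ β => ∀ v ∈ S, χ v ∉ Q).card ≤ Fintype.card (α ↪ β) :=
      card_le_univ _
    exact_mod_cast this
  · have hk : (0 : ℝ) < Fintype.card β := by exact_mod_cast h0
    have h1 := step hαβ S Q
    have hQ : Q.card ≤ Fintype.card β := card_le_univ Q
    have h2 : ((univ.filter fun χ : α ↪ β => ∀ v ∈ S, χ v ∉ Q).card : ℝ) *
        (Fintype.card β : ℝ) ^ S.card ≤
        ((Fintype.card β : ℝ) - Q.card) ^ S.card * Fintype.card (α ↪ β) := by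
      rw [← Nat.cast_sub hQ]
      exact_mod_cast h1
    have h3 : ((Fintype.card β : ℝ) - Q.card) ^ S.card ≤
        ((1 - q) * Fintype.card β) ^ S.card := by
      apply pow_le_pow_left₀
      · have : (Q.card : ℝ) ≤ Fintype.card β := by exact_mod_cast hQ
        linarith
      · linarith
    have h4 := h2.trans (mul_le_mul_of_nonneg_right h3 (Nat.cast_nonneg _))
    rw [mul_pow] at h4
    have h5 : ((univ.filter fun χ : α ↪ β => ∀ v ∈ S, χ v ∉ Q).card : ℝ) *
        (Fintype.card β : ℝ) ^ S.card ≤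
        ((1 - q) ^ S.card * Fintype.card (α ↪ β)) * (Fintype.card β : ℝ) ^ S.card := by
      linarith
    exact le_of_mul_le_mul_right h5 (by positivity)

end step

section chernoff

variable {α β : Type} [Fintype α] [Fintype β]

lemma exp_neg_le {y : ℝ} (hy : 0 ≤ y) : Real.exp (-y) ≤ 1 - y + y ^ 2 / 2 := by
  have h1 := Real.quadratic_le_exp_of_nonneg hy
  rw [Real.exp_neg, inv_le_iff_one_le_mul₀ (Real.exp_pos y)]
  have h2 : 0 ≤ 1 - y + y ^ 2 / 2 := by nlinarith [sq_nonneg (y - 1)]
  have h3 : (1 - y + y ^ 2 / 2) * (1 + y + y ^ 2 / 2) ≤ (1 - y + y ^ 2 / 2) * Real.exp y :=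
    mul_le_mul_of_nonneg_left h1 h2
  have h4 : (1 - y + y ^ 2 / 2) * (1 + y + y ^ 2 / 2) = 1 + y ^ 4 / 4 := by ring
  nlinarith [sq_nonneg (y ^ 2)]

theorem mgf (hαβ : Fintype.card α ≤ Fintype.card β) (Q : Finset β) {q : ℝ}
    (hq : q * Fintype.card β ≤ Q.card) (y : α → ℝ) (hy0 : ∀ v, 0 ≤ y v) (hy1 : ∀ v, y v ≤ 1) :
    ∑ χ : α ↪ β, ∏ v, (if χ v ∈ Q then 1 - y v else 1) ≤
      (∏ v, (1 - q * y v)) * Fintype.card (α ↪ β) := by
  have h1 : ∀ χ : α ↪ β, ∏ v, (if χ v ∈ Q then 1 - y v else 1) =
      ∑ t ∈ (univ : Finset α).powerset, ((∏ v ∈ t, y v) * ∏ v ∈ univ \ t, (1 - y v)) *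
        (if ∀ v ∈ t, χ v ∉ Q then 1 else 0) := by
    intro χ
    have e1 : ∀ v : α, (if χ v ∈ Q then 1 - y v else 1) =
        (if χ v ∉ Q then y v else 0) + (1 - y v) := by
      intro v
      by_cases h : χ v ∈ Q
      · simp [h]
      · simp [h]
    rw [Finset.prod_congr rfl (fun v _ => e1 v), Finset.prod_add]
    apply Finset.sum_congr rfl
    intro t _
    by_cases h : ∀ v ∈ t, χ v ∉ Q
    · rw [if_pos h, mul_one]
      congr 1
      apply Finset.prod_congr rfl
      intro v hv
      rw [if_pos (h v hv)]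
    · rw [if_neg h, mul_zero]
      push Not at h
      obtain ⟨v, hv, hvQ⟩ := h
      rw [Finset.prod_eq_zero hv, zero_mul]
      rw [if_neg]
      simpa using hvQ
  rw [Finset.sum_congr rfl (fun χ _ => h1 χ), Finset.sum_comm]
  have h2 : ∀ t ∈ (univ : Finset α).powerset, ∑ χ : α ↪ β,
      ((∏ v ∈ t, y v) * ∏ v ∈ univ \ t, (1 - y v)) * (if ∀ v ∈ t, χ v ∉ Q then 1 else 0) ≤
      ((∏ v ∈ t, y v * (1 - q)) * ∏ v ∈ univ \ t, (1 - y v)) * Fintype.card (α ↪ β) := by
    intro t _
    rw [← Finset.mul_sum, Finset.sum_boole]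
    have h3 := step_real hαβ t Q hq
    have h4 : 0 ≤ (∏ v ∈ t, y v) * ∏ v ∈ univ \ t, (1 - y v) :=
      mul_nonneg (Finset.prod_nonneg fun v _ => hy0 v)
        (Finset.prod_nonneg fun v _ => by linarith [hy1 v])
    refine (mul_le_mul_of_nonneg_left h3 h4).trans (le_of_eq ?_)
    rw [Finset.prod_mul_distrib, Finset.prod_const]
    ring
  refine (Finset.sum_le_sum h2).trans (le_of_eq ?_)
  rw [← Finset.sum_mul, ← Finset.prod_add]
  congr 1
  apply Finset.prod_congr rfl
  intro v _
  ring

theorem chernoff (hαβ : Fintype.card α ≤ Fintype.card β) (Q : Finset β) {q : ℝ} (hq0 : 0 ≤ q)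
    (hq : q * Fintype.card β ≤ Q.card) (w : α → ℝ) {D θ : ℝ} (hD : 0 < D) (hw0 : ∀ v, 0 ≤ w v)
    (hwD : ∀ v, w v ≤ D) :
    ((univ.filter fun χ : α ↪ β => ∑ v, (if χ v ∈ Q then w v else 0) ≤ θ).card : ℝ) ≤
      Real.exp (θ / (3 * D) - 5 / 18 * q * (∑ v, w v) / D) * Fintype.card (α ↪ β) := by
  set y : α → ℝ := fun v => 1 - Real.exp (-(w v / (3 * D))) with hy
  have hwl : ∀ v, 0 ≤ w v / (3 * D) := fun v => div_nonneg (hw0 v) (by positivity)
  have hy0 : ∀ v, 0 ≤ y v := by
    intro v
    have : Real.exp (-(w v / (3 * D))) ≤ 1 := Real.exp_le_one_iff.mpr (by linarith [hwl v])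
    simp only [hy]; linarith
  have hy1 : ∀ v, y v ≤ 1 := by
    intro v
    have := Real.exp_pos (-(w v / (3 * D)))
    simp only [hy]; linarith
  have hyl : ∀ v, 5 / 18 * (w v / D) ≤ y v := by
    intro v
    have h1 := exp_neg_le (hwl v)
    have h2 : w v / (3 * D) ≤ 1 / 3 := by
      rw [div_le_div_iff₀ (by positivity) (by norm_num)]
      linarith [hwD v]
    have h3 : (w v / (3 * D)) ^ 2 ≤ 1 / 3 * (w v / (3 * D)) := by
      rw [sq]; exact mul_le_mul_of_nonneg_right h2 (hwl v)
    have h4 : 5 / 18 * (w v / D) = 5 / 6 * (w v / (3 * D)) := by field_simp; ring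
    rw [h4]
    simp only [hy]
    linarith
  have h1 := mgf hαβ Q hq y hy0 hy1
  -- product bound
  have hprod : ∏ v, (1 - q * y v) ≤ Real.exp (-(5 / 18 * q * (∑ v, w v) / D)) := by
    have e : -(5 / 18 * q * (∑ v, w v) / D) = ∑ v, -(q * (5 / 18 * (w v / D))) := by
      rw [Finset.sum_neg_distrib, ← Finset.mul_sum, ← Finset.mul_sum, ← Finset.sum_div]
      ring
    rcases isEmpty_or_nonempty α with hα | hα
    · simp
    have hβ : 0 < Fintype.card β := lt_of_lt_of_le Fintype.card_pos hαβ
    have hq1 : q ≤ 1 := by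
      have hQ : (Q.card : ℝ) ≤ Fintype.card β := by exact_mod_cast card_le_univ Q
      have hk : (0 : ℝ) < Fintype.card β := by exact_mod_cast hβ
      by_contra hcon
      push Not at hcon
      have := mul_lt_mul_of_pos_right hcon hk
      linarith
    rw [e, Real.exp_sum]
    apply Finset.prod_le_prod
    · intro v _
      have : q * y v ≤ 1 * 1 := mul_le_mul hq1 (hy1 v) (hy0 v) (by norm_num)
      linarith
    · intro v _
      have h2 := Real.add_one_le_exp (-(q * (5 / 18 * (w v / D))))
      have h3 := mul_le_mul_of_nonneg_left (hyl v) hq0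
      linarith
  have hexp : ∀ χ : α ↪ β, ∏ v, (if χ v ∈ Q then 1 - y v else 1) =
      Real.exp (-((∑ v, (if χ v ∈ Q then w v else 0)) / (3 * D))) := by
    intro χ
    rw [Finset.sum_div, ← Finset.sum_neg_distrib, Real.exp_sum]
    apply Finset.prod_congr rfl
    intro v _
    by_cases h : χ v ∈ Q
    · simp [h, hy]
    · simp [h]
  rw [Finset.sum_congr rfl (fun χ _ => hexp χ)] at h1
  have h2 : ((univ.filter fun χ : α ↪ β => ∑ v, (if χ v ∈ Q then w v else 0) ≤ θ).card : ℝ) *
      Real.exp (-(θ / (3 * D))) ≤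
      ∑ χ : α ↪ β, Real.exp (-((∑ v, (if χ v ∈ Q then w v else 0)) / (3 * D))) := by
    rw [← nsmul_eq_mul, ← Finset.sum_const]
    refine le_trans (Finset.sum_le_sum (g := fun χ : α ↪ β =>
      Real.exp (-((∑ v, (if χ v ∈ Q then w v else 0)) / (3 * D)))) ?_) ?_
    · intro χ hχ
      rw [mem_filter] at hχ
      apply Real.exp_le_exp.mpr
      apply neg_le_neg
      exact div_le_div_of_nonneg_right hχ.2 (by positivity)
    · apply Finset.sum_le_sum_of_subset_of_nonneg (filter_subset _ _)
      intro χ _ _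
      exact (Real.exp_pos _).le
  have h3 : ((univ.filter fun χ : α ↪ β => ∑ v, (if χ v ∈ Q then w v else 0) ≤ θ).card : ℝ) *
      Real.exp (-(θ / (3 * D))) ≤
      Real.exp (-(5 / 18 * q * (∑ v, w v) / D)) * Fintype.card (α ↪ β) :=
    (h2.trans h1).trans (mul_le_mul_of_nonneg_right hprod (Nat.cast_nonneg _))
  have h4 := mul_le_mul_of_nonneg_right h3 (Real.exp_pos (θ / (3 * D))).le
  have e1 : ((univ.filter fun χ : α ↪ β => ∑ v, (if χ v ∈ Q then w v else 0) ≤ θ).card : ℝ) *
      Real.exp (-(θ / (3 * D))) * Real.exp (θ / (3 * D)) =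
      ((univ.filter fun χ : α ↪ β => ∑ v, (if χ v ∈ Q then w v else 0) ≤ θ).card : ℝ) := by
    rw [mul_assoc, ← Real.exp_add]
    simp
  rw [e1] at h4
  refine h4.trans (le_of_eq ?_)
  rw [sub_eq_add_neg, Real.exp_add]
  ring

end chernoff

end Pool.Agent.Lib.MP_0dbebe_co.OneSub
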