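import Pool.Agent.Lib.MP_0dbebe_co.OneSub.LtA

/-!
# A bipartition with many crossing edges and small degrees; the number of used vertices of R
-/

set_option autoImplicit false
set_option linter.unusedSectionVars false

namespace Pool.Agent.Lib.MP_0dbebe_co.OneSub

open Finset
open scoped Classical

section crossing

variable {W : Type} [Fintype W]

/-- flip one value -/
noncomputable def flipAt (v : W) : (W → Bool) ≃ (W → Bool) where
  toFun s := Function.update s v (!s v)
  invFun s := Function.update s v (!s v)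
  left_inv s := by
    ext w
    by_cases h : w = v
    · subst h; simp
    · simp [h]
  right_inv s := by
    ext w
    by_cases h : w = v
    · subst h; simp
    · simp [h]

theorem sum_one (v : W) :
    2 * ∑ s : W → Bool, (if s v = true then (1 : ℝ) else 0) = Fintype.card (W → Bool) := by
  have h := Equiv.sum_comp (flipAt v) (fun s : W → Bool => (if s v = true then (1 : ℝ) else 0))
  have e : ∀ s : W → Bool, (if (flipAt v s) v = true then (1 : ℝ) else 0) =
      1 - (if s v = true then (1 : ℝ) else 0) := by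
    intro s
    have : (flipAt v s) v = !s v := by simp [flipAt]
    rw [this]
    cases s v <;> simp
  rw [Finset.sum_congr rfl (fun s _ => e s), Finset.sum_sub_distrib] at h
  simp only [Finset.sum_const, card_univ, nsmul_eq_mul, mul_one] at h
  linarith

theorem sum_two {v u : W} (huv : u ≠ v) :
    4 * ∑ s : W → Bool, (if s v = true ∧ ¬ s u = true then (1 : ℝ) else 0) =
      Fintype.card (W → Bool) := by
  have h := Equiv.sum_comp (flipAt u)
    (fun s : W → Bool => (if s v = true ∧ ¬ s u = true then (1 : ℝ) else 0))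
  have e : ∀ s : W → Bool, (if (flipAt u s) v = true ∧ ¬ (flipAt u s) u = true then (1 : ℝ) else 0) =
      (if s v = true then (1 : ℝ) else 0) -
        (if s v = true ∧ ¬ s u = true then (1 : ℝ) else 0) := by
    intro s
    have h1 : (flipAt u s) u = !s u := by simp [flipAt]
    have h2 : (flipAt u s) v = s v := by simp [flipAt, Ne.symm huv]
    rw [h1, h2]
    cases s v <;> cases s u <;> simp
  rw [Finset.sum_congr rfl (fun s _ => e s), Finset.sum_sub_distrib] at h
  have h1 := sum_one v
  linarith

/-- number of neighbours outside `A` -/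
noncomputable def outd (H : SimpleGraph W) (A : Finset W) (v : W) : ℕ :=
  (univ.filter fun u => u ∉ A ∧ H.Adj v u).card

noncomputable def dg (H : SimpleGraph W) (v : W) : ℕ := (univ.filter fun u => H.Adj v u).card

theorem sum_dg (H : SimpleGraph W) : ∑ v, dg H v = 2 * (E H).card := by
  have h := H.sum_degrees_eq_twice_card_edges
  have e1 : E H = H.edgeFinset := by
    ext e; rw [mem_E]; simp
  rw [e1, ← h]
  apply Finset.sum_congr rfl
  intro v _
  unfold dg
  rw [← SimpleGraph.card_neighborFinset_eq_degree]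
  congr 1
  ext u
  simp

theorem exists_cross (H : SimpleGraph W) {D : ℝ} (hD : 0 < D) (hD2 : 8 * ((E H).card : ℝ) ≤ D ^ 2) :
    ∃ A : Finset W, (∀ v ∈ A, (dg H v : ℝ) ≤ D) ∧
      3 / 8 * ((E H).card : ℝ) ≤ ∑ v ∈ A, (outd H A v : ℝ) := by
  set m : ℝ := ((E H).card : ℝ) with hm
  have hm0 : 0 ≤ m := Nat.cast_nonneg _
  set Low : Finset W := univ.filter fun v => (dg H v : ℝ) ≤ D with hLow
  set High : Finset W := univ.filter fun v => ¬ (dg H v : ℝ) ≤ D with hHigh
  have hsum : ∑ v, (dg H v : ℝ) = 2 * m := by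
    have := sum_dg H
    rw [hm]; exact_mod_cast this
  -- high degree vertices
  have hHD : (High.card : ℝ) * D ≤ 2 * m := by
    rw [← hsum, ← nsmul_eq_mul, ← Finset.sum_const]
    refine (Finset.sum_le_sum (g := fun v => (dg H v : ℝ)) fun v hv => ?_).trans
      (Finset.sum_le_sum_of_subset_of_nonneg (filter_subset _ _) fun v _ _ => Nat.cast_nonneg _)
    rw [mem_filter] at hv
    exact (not_le.mp hv.2).le
  have hHH : (High.card : ℝ) ^ 2 ≤ m / 2 := by
    have h1 : ((High.card : ℝ) * D) ^ 2 ≤ (2 * m) ^ 2 :=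
      pow_le_pow_left₀ (by positivity) hHD 2
    rw [mul_pow] at h1
    rcases hm0.eq_or_lt with h0 | h0
    · rw [← h0] at h1 ⊢
      have h2 : (High.card : ℝ) ^ 2 * D ^ 2 ≤ 0 := by simpa using h1
      have h3 : 0 < D ^ 2 := by positivity
      have h4 : (High.card : ℝ) ^ 2 ≤ 0 := by
        by_contra hcon
        push Not at hcon
        have := mul_pos hcon h3
        linarith
      linarith
    · have h2 : (High.card : ℝ) ^ 2 * (8 * m) ≤ (2 * m) ^ 2 :=
        (mul_le_mul_of_nonneg_left hD2 (by positivity)).trans h1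
      have h3 : (High.card : ℝ) ^ 2 * (8 * m) ≤ (m / 2) * (8 * m) := by nlinarith
      exact le_of_mul_le_mul_right h3 (by positivity)
  -- averaging
  set N : ℝ := (Fintype.card (W → Bool) : ℝ) with hN
  have hN0 : 0 < N := by
    rw [hN]; exact_mod_cast Fintype.card_pos
  set As : (W → Bool) → Finset W := fun s => Low.filter fun v => s v = true with hAs
  have key : ∀ v u : W, v ∈ Low → H.Adj v u →
      N * (if u ∈ Low then 1 / 4 else 1 / 2) ≤
        ∑ s : W → Bool, (if v ∈ As s ∧ u ∉ As s then (1 : ℝ) else 0) := by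
    intro v u hv huv
    by_cases hu : u ∈ Low
    · rw [if_pos hu]
      have h1 := sum_two (v := v) (u := u) huv.ne'
      have e : ∀ s : W → Bool, (if v ∈ As s ∧ u ∉ As s then (1 : ℝ) else 0) =
          (if s v = true ∧ ¬ s u = true then (1 : ℝ) else 0) := by
        intro s
        simp [hAs, hv, hu]
      rw [Finset.sum_congr rfl (fun s _ => e s)]
      linarith
    · rw [if_neg hu]
      have h1 := sum_one v
      have e : ∀ s : W → Bool, (if v ∈ As s ∧ u ∉ As s then (1 : ℝ) else 0) =
          (if s v = true then (1 : ℝ) else 0) := by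
        intro s
        simp [hAs, hv, hu]
      rw [Finset.sum_congr rfl (fun s _ => e s)]
      linarith
  -- the crossing number as a double sum
  have hcr : ∀ s : W → Bool, ∑ v ∈ As s, (outd H (As s) v : ℝ) =
      ∑ v, ∑ u, (if H.Adj v u then (if v ∈ As s ∧ u ∉ As s then (1 : ℝ) else 0) else 0) := by
    intro s
    rw [← Finset.sum_filter_add_sum_filter_not univ (fun v => v ∈ As s)
      (fun v => ∑ u, (if H.Adj v u then (if v ∈ As s ∧ u ∉ As s then (1 : ℝ) else 0) else 0))]
    have h0 : ∑ v ∈ univ.filter (fun v => v ∉ As s),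
        ∑ u, (if H.Adj v u then (if v ∈ As s ∧ u ∉ As s then (1 : ℝ) else 0) else 0) = 0 := by
      apply Finset.sum_eq_zero
      intro v hv
      rw [mem_filter] at hv
      apply Finset.sum_eq_zero
      intro u _
      simp [hv.2]
    rw [h0, add_zero]
    have h1 : univ.filter (fun v => v ∈ As s) = As s := by ext v; simp
    rw [h1]
    apply Finset.sum_congr rfl
    intro v hv
    unfold outd
    rw [Finset.card_filter]
    push_cast
    apply Finset.sum_congr rfl
    intro u _
    by_cases h2 : H.Adj v u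
    · by_cases h3 : u ∈ As s
      · simp [h2, h3]
      · simp [h2, h3, hv]
    · simp [h2]
  have htot : N * (3 / 8 * m) ≤ ∑ s : W → Bool, ∑ v ∈ As s, (outd H (As s) v : ℝ) := by
    rw [Finset.sum_congr rfl (fun s _ => hcr s), Finset.sum_comm]
    have h1 : ∀ v : W, ∑ s : W → Bool, ∑ u, (if H.Adj v u then
        (if v ∈ As s ∧ u ∉ As s then (1 : ℝ) else 0) else 0) =
        ∑ u, (if H.Adj v u then
          ∑ s : W → Bool, (if v ∈ As s ∧ u ∉ As s then (1 : ℝ) else 0) else 0) := by
      intro v
      rw [Finset.sum_comm]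
      apply Finset.sum_congr rfl
      intro u _
      split_ifs with h
      · rfl
      · simp
    rw [Finset.sum_congr rfl (fun v _ => h1 v)]
    have h2 : ∀ v u : W, N * (if H.Adj v u then
        (if v ∈ Low then (if u ∈ Low then 1 / 4 else 1 / 2) else 0) else 0) ≤
        (if H.Adj v u then
          ∑ s : W → Bool, (if v ∈ As s ∧ u ∉ As s then (1 : ℝ) else 0) else 0) := by
      intro v u
      by_cases h : H.Adj v u
      · rw [if_pos h, if_pos h]
        by_cases hv : v ∈ Low
        · rw [if_pos hv]; exact key v u hv h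
        · rw [if_neg hv, mul_zero]
          apply Finset.sum_nonneg
          intro s _
          split_ifs <;> norm_num
      · rw [if_neg h, if_neg h, mul_zero]
    refine le_trans ?_ (Finset.sum_le_sum fun v _ => Finset.sum_le_sum fun u _ => h2 v u)
    simp only [← Finset.mul_sum]
    apply mul_le_mul_of_nonneg_left _ hN0.le
    -- ordered pairs
    set a : W → W → ℝ := fun v u => if H.Adj v u then 1 else 0 with ha
    set l : W → ℝ := fun v => if v ∈ Low then 1 else 0 with hl
    have e1 : ∀ v u : W, (if H.Adj v u then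
        (if v ∈ Low then (if u ∈ Low then (1 / 4 : ℝ) else 1 / 2) else 0) else 0) =
        a v u * (1 / 2 * l v - 1 / 4 * (l v * l u)) := by
      intro v u
      simp only [ha, hl]
      by_cases h1 : H.Adj v u <;> by_cases h2 : v ∈ Low <;> by_cases h3 : u ∈ Low <;>
        simp [h1, h2, h3] <;> norm_num
    rw [Finset.sum_congr rfl (fun v _ => Finset.sum_congr rfl (fun u _ => e1 v u))]
    have hsymm : ∑ v, ∑ u, a v u * l u = ∑ v, ∑ u, a v u * l v := by
      rw [Finset.sum_comm]
      apply Finset.sum_congr rfl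
      intro v _
      apply Finset.sum_congr rfl
      intro u _
      simp only [ha, SimpleGraph.adj_comm]
    have hdeg : ∑ v, ∑ u, a v u = 2 * m := by
      rw [← hsum]
      apply Finset.sum_congr rfl
      intro v _
      simp only [ha, dg]
      rw [Finset.card_filter]
      push_cast
      rfl
    have hHH2 : ∑ v, ∑ u, a v u * ((1 - l v) * (1 - l u)) ≤ (High.card : ℝ) ^ 2 := by
      have h3 : ∑ v, (1 - l v) = (High.card : ℝ) := by
        rw [hHigh, Finset.card_filter]
        push_cast
        apply Finset.sum_congr rfl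
        intro v _
        simp only [hl, hLow, mem_filter, mem_univ, true_and]
        by_cases h : (dg H v : ℝ) ≤ D <;> simp [h]
      have hl01 : ∀ v, 0 ≤ 1 - l v := by
        intro v; simp only [hl]; split_ifs <;> norm_num
      calc ∑ v, ∑ u, a v u * ((1 - l v) * (1 - l u)) ≤ ∑ v, ∑ u, (1 - l v) * (1 - l u) := by
            apply Finset.sum_le_sum
            intro v _
            apply Finset.sum_le_sum
            intro u _
            have h4 : a v u ≤ 1 := by simp only [ha]; split_ifs <;> norm_num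
            have h5 : 0 ≤ (1 - l v) * (1 - l u) := mul_nonneg (hl01 v) (hl01 u)
            calc a v u * ((1 - l v) * (1 - l u)) ≤ 1 * ((1 - l v) * (1 - l u)) :=
                  mul_le_mul_of_nonneg_right h4 h5
              _ = _ := one_mul _
        _ = (High.card : ℝ) ^ 2 := by
            rw [← h3, sq, Finset.sum_mul_sum]
    have hexp : ∑ v, ∑ u, a v u * ((1 - l v) * (1 - l u)) =
        (∑ v, ∑ u, a v u) - (∑ v, ∑ u, a v u * l v) - (∑ v, ∑ u, a v u * l u) +
          ∑ v, ∑ u, a v u * (l v * l u) := by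
      rw [← Finset.sum_sub_distrib, ← Finset.sum_sub_distrib, ← Finset.sum_add_distrib]
      apply Finset.sum_congr rfl
      intro v _
      rw [← Finset.sum_sub_distrib, ← Finset.sum_sub_distrib, ← Finset.sum_add_distrib]
      apply Finset.sum_congr rfl
      intro u _
      ring
    have hgoal : ∑ v, ∑ u, a v u * (1 / 2 * l v - 1 / 4 * (l v * l u)) =
        1 / 2 * (∑ v, ∑ u, a v u * l v) - 1 / 4 * ∑ v, ∑ u, a v u * (l v * l u) := by
      rw [Finset.mul_sum, Finset.mul_sum, ← Finset.sum_sub_distrib]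
      apply Finset.sum_congr rfl
      intro v _
      rw [Finset.mul_sum, Finset.mul_sum, ← Finset.sum_sub_distrib]
      apply Finset.sum_congr rfl
      intro u _
      ring
    rw [hgoal]
    rw [hexp, hsymm, hdeg] at hHH2
    linarith
  -- choose s
  by_contra hcon
  push Not at hcon
  have hlt : ∀ s : W → Bool, ∑ v ∈ As s, (outd H (As s) v : ℝ) < 3 / 8 * m := by
    intro s
    apply hcon
    intro v hv
    have : v ∈ Low := (mem_filter.mp hv).1
    exact (mem_filter.mp this).2
  have : ∑ s : W → Bool, ∑ v ∈ As s, (outd H (As s) v : ℝ) < ∑ _s : W → Bool, 3 / 8 * m :=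
    Finset.sum_lt_sum_of_nonempty univ_nonempty (fun s _ => hlt s)
  rw [Finset.sum_const, card_univ, nsmul_eq_mul] at this
  linarith

end crossing

section used

theorem step_in {α β : Type} [Fintype α] [Fintype β] (hαβ : Fintype.card α ≤ Fintype.card β)
    (hβ : 0 < Fintype.card β) (S : Finset α) (R : Finset β) :
    ((univ.filter fun χ : α ↪ β => ∀ v ∈ S, χ v ∈ R).card : ℝ) ≤
      ((R.card : ℝ) / Fintype.card β) ^ S.card * Fintype.card (α ↪ β) := by
  have hbr : (0 : ℝ) < Fintype.card β := by exact_mod_cast hβ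
  have hRb : R.card ≤ Fintype.card β := card_le_univ R
  have h1 := step_real hαβ S Rᶜ (q := 1 - (R.card : ℝ) / Fintype.card β) (by
    rw [card_compl, Nat.cast_sub hRb, sub_mul, one_mul, div_mul_cancel₀ _ hbr.ne'])
  have e : 1 - (1 - (R.card : ℝ) / Fintype.card β) = (R.card : ℝ) / Fintype.card β := by ring
  rw [e] at h1
  simpa using h1

lemma num_aux {n j r b : ℕ} (hj0 : 0 < j) (hb0 : 0 < b) (h12 : 12 * n ≤ b) (hrj : r ≤ 2 * j) :
    ((n.choose j : ℕ) : ℝ) * ((r : ℝ) / b) ^ j ≤ (1 / 2) ^ j := by
  have hjr : (0 : ℝ) < j := by exact_mod_cast hj0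
  have hbr : (0 : ℝ) < b := by exact_mod_cast hb0
  have hch : ((n.choose j : ℕ) : ℝ) ≤ (n : ℝ) ^ j / (j.factorial : ℝ) := Nat.choose_le_pow_div j n
  have hfac : (j : ℝ) ^ j / (j.factorial : ℝ) ≤ Real.exp j :=
    Real.pow_div_factorial_le_exp (j : ℝ) hjr.le j
  have hexp : Real.exp (j : ℝ) ≤ 3 ^ j := by
    have : Real.exp (j : ℝ) = Real.exp 1 ^ j := by rw [← Real.exp_nat_mul]; simp
    rw [this]
    apply pow_le_pow_left₀ (Real.exp_pos 1).le
    have := Real.exp_one_lt_d9
    linarith
  have hfac0 : (0 : ℝ) < j.factorial := by exact_mod_cast j.factorial_pos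
  have h3 : (n : ℝ) ^ j / (j.factorial : ℝ) ≤ (3 * n / j) ^ j := by
    have h4 : (j : ℝ) ^ j ≤ 3 ^ j * (j.factorial : ℝ) := by
      rw [div_le_iff₀ hfac0] at hfac
      exact hfac.trans (mul_le_mul_of_nonneg_right hexp hfac0.le)
    rw [div_pow, mul_pow, div_le_div_iff₀ hfac0 (by positivity)]
    calc (n : ℝ) ^ j * (j : ℝ) ^ j ≤ (n : ℝ) ^ j * (3 ^ j * (j.factorial : ℝ)) :=
          mul_le_mul_of_nonneg_left h4 (by positivity)
      _ = 3 ^ j * (n : ℝ) ^ j * (j.factorial : ℝ) := by ring
  calc ((n.choose j : ℕ) : ℝ) * ((r : ℝ) / b) ^ j ≤ (3 * n / j) ^ j * ((r : ℝ) / b) ^ j :=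
        mul_le_mul_of_nonneg_right (hch.trans h3) (by positivity)
    _ = (3 * n / j * (r / b)) ^ j := by rw [mul_pow]
    _ ≤ (1 / 2) ^ j := by
        apply pow_le_pow_left₀ (by positivity)
        have h5 : (r : ℝ) ≤ 2 * j := by exact_mod_cast hrj
        have h6 : 12 * (n : ℝ) ≤ b := by exact_mod_cast h12
        have e : 3 * (n : ℝ) / j * (r / b) = (3 * n * r) / (j * b) := by field_simp
        rw [e, div_le_div_iff₀ (by positivity) (by norm_num)]
        have h7 : (n : ℝ) * r ≤ n * (2 * j) := mul_le_mul_of_nonneg_left h5 (Nat.cast_nonneg _)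
        have h8 : (12 * (n : ℝ)) * j ≤ b * j := mul_le_mul_of_nonneg_right h6 hjr.le
        nlinarith

/-- few vertices of `R` are used -/
theorem used_gen {α β : Type} [Fintype α] [Fintype β] (R : Finset β)
    (h12 : 12 * Fintype.card α ≤ Fintype.card β) (hR0 : R.Nonempty) :
    ((univ.filter fun φ : α ↪ β => R.card < 2 * (univ.filter fun v => φ v ∈ R).card).card : ℝ)
      ≤ (1 / 2) ^ (R.card / 2 + 1) * Fintype.card (α ↪ β) := by
  have hr0 : 0 < R.card := card_pos.mpr hR0
  have hRb : R.card ≤ Fintype.card β := card_le_univ R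
  have hβ : 0 < Fintype.card β := by omega
  have hsub : (univ.filter fun φ : α ↪ β => R.card < 2 * (univ.filter fun v => φ v ∈ R).card) ⊆
      (powersetCard (R.card / 2 + 1) (univ : Finset α)).biUnion
        (fun S => univ.filter fun φ : α ↪ β => ∀ v ∈ S, φ v ∈ R) := by
    intro φ hφ
    rw [mem_filter] at hφ
    have h1 : R.card / 2 + 1 ≤ (univ.filter fun v => φ v ∈ R).card := by omega
    obtain ⟨S, hS1, hS2⟩ := Finset.exists_subset_card_eq h1
    rw [mem_biUnion]
    refine ⟨S, mem_powersetCard.mpr ⟨subset_univ _, hS2⟩, ?_⟩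
    rw [mem_filter]
    exact ⟨mem_univ _, fun v hv => (mem_filter.mp (hS1 hv)).2⟩
  have hstep : ∀ S ∈ powersetCard (R.card / 2 + 1) (univ : Finset α),
      ((univ.filter fun φ : α ↪ β => ∀ v ∈ S, φ v ∈ R).card : ℝ) ≤
        ((R.card : ℝ) / Fintype.card β) ^ (R.card / 2 + 1) * Fintype.card (α ↪ β) := by
    intro S hS
    have h1 := step_in (by omega) hβ S R
    rwa [(mem_powersetCard.mp hS).2] at h1
  have h1 : ((univ.filter fun φ : α ↪ β =>
      R.card < 2 * (univ.filter fun v => φ v ∈ R).card).card : ℝ) ≤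
      ∑ S ∈ powersetCard (R.card / 2 + 1) (univ : Finset α),
        ((R.card : ℝ) / Fintype.card β) ^ (R.card / 2 + 1) * Fintype.card (α ↪ β) := by
    refine le_trans ?_ (Finset.sum_le_sum hstep)
    have h2 := (card_le_card hsub).trans card_biUnion_le
    exact_mod_cast h2
  rw [Finset.sum_const, card_powersetCard, card_univ, nsmul_eq_mul, ← mul_assoc] at h1
  refine h1.trans (mul_le_mul_of_nonneg_right ?_ (Nat.cast_nonneg _))
  exact num_aux (by omega) hβ h12 (by omega)

end used

end Pool.Agent.Lib.MP_0dbebe_co.OneSub
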