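import Pool.Agent.Lib.MP_0dbebe_co.OneSub.Defs

/-! Module MARG: marginals of a uniformly random embedding. -/

set_option autoImplicit false

namespace Pool.Agent.Lib.MP_0dbebe_co.OneSub

open Finset
open scoped Classical

/-- A permutation carrying one embedding to another. -/
theorem exists_perm {β α : Type} [Fintype β] (g g' : α ↪ β) :
    ∃ σ : Equiv.Perm β, ∀ a, σ (g a) = g' a := by
  let e : {x // x ∈ Set.range g} ≃ {x // x ∈ Set.range g'} :=
    (Equiv.ofInjective g g.injective).symm.trans (Equiv.ofInjective g' g'.injective)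
  refine ⟨e.extendSubtype, fun a => ?_⟩
  rw [Equiv.extendSubtype_apply_of_mem e (g a) ⟨a, rfl⟩]
  have : (Equiv.ofInjective g g.injective).symm ⟨g a, ⟨a, rfl⟩⟩ = a := by
    rw [Equiv.symm_apply_eq]
    rfl
  show ((Equiv.ofInjective g' g'.injective) ((Equiv.ofInjective g g.injective).symm
    ⟨g a, ⟨a, rfl⟩⟩) : β) = g' a
  rw [this]
  rfl

theorem marg {W β α : Type} [Fintype W] [Fintype β] [Fintype α] (ι : α ↪ W)
    (hWβ : Fintype.card W ≤ Fintype.card β) (F : (α ↪ β) → ℝ) :
    (∑ φ : W ↪ β, F (ι.trans φ)) * ((Fintype.card β).descFactorial (Fintype.card α) : ℝ)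
      = (Fintype.card (W ↪ β) : ℝ) * ∑ g : α ↪ β, F g := by
  set N : (α ↪ β) → ℕ := fun g => (univ.filter fun φ : W ↪ β => ι.trans φ = g).card with hN
  have hNN : ∀ g g', N g = N g' := by
    have hle : ∀ g g', N g ≤ N g' := by
      intro g g'
      obtain ⟨σ, hσ⟩ := exists_perm g g'
      refine Finset.card_le_card_of_injOn (fun φ => φ.trans σ.toEmbedding) ?_ ?_
      · intro φ hφ
        simp only [Finset.coe_filter, Finset.mem_univ, true_and, Set.mem_ofPred_eq] at hφ ⊢
        ext a
        have h1 : φ (ι a) = g a := by rw [← hφ]; rfl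
        simp only [Function.Embedding.trans_apply, Equiv.coe_toEmbedding]
        rw [h1, hσ]
      · intro φ _ φ' _ h
        ext w
        have h1 := DFunLike.congr_fun h w
        simp only [Function.Embedding.trans_apply, Equiv.coe_toEmbedding] at h1
        exact σ.injective h1
    exact fun g g' => le_antisymm (hle g g') (hle g' g)
  have hsum : ∑ φ : W ↪ β, F (ι.trans φ) = ∑ g : α ↪ β, (N g : ℝ) * F g := by
    rw [← Finset.sum_fiberwise_of_maps_to (s := univ) (t := univ)
      (g := fun φ : W ↪ β => ι.trans φ) (fun _ _ => Finset.mem_univ _)]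
    refine Finset.sum_congr rfl (fun g _ => ?_)
    rw [Finset.sum_congr rfl (g := fun _ => F g)
      (fun φ hφ => by rw [(Finset.mem_filter.1 hφ).2])]
    rw [Finset.sum_const, nsmul_eq_mul]
  have htot : (Fintype.card (W ↪ β) : ℝ) = ∑ g : α ↪ β, (N g : ℝ) := by
    have h1 := Finset.card_eq_sum_card_fiberwise (f := fun φ : W ↪ β => ι.trans φ)
      (s := univ) (t := univ) (fun _ _ => by simp)
    rw [Finset.card_univ] at h1
    exact_mod_cast h1
  rcases isEmpty_or_nonempty (α ↪ β) with hE | ⟨⟨g0⟩⟩
  · have h1 : Fintype.card (α ↪ β) = 0 := Fintype.card_eq_zero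
    rw [Fintype.card_embedding_eq] at h1
    rw [h1]
    simp
  · have h1 : ∀ g, N g = N g0 := fun g => hNN g g0
    have h2 : (Fintype.card (W ↪ β) : ℝ) =
        ((Fintype.card β).descFactorial (Fintype.card α) : ℝ) * N g0 := by
      rw [htot, ← Fintype.card_embedding_eq]
      simp only [h1]
      rw [Finset.sum_const, Finset.card_univ, nsmul_eq_mul]
    rw [hsum, h2]
    simp only [h1]
    rw [← Finset.mul_sum]
    ring

end Pool.Agent.Lib.MP_0dbebe_co.OneSub
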