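import Mathlib

/-!
# A graph together with copies of a complete graph

`plus H k`: the disjoint union of `H` and of one complete graph on `k` vertices for each vertex of `H`. It makes the
average degree large and adds only a number of edges and vertices proportional to the number of vertices of `H`.
-/

set_option autoImplicit false

namespace Pool.Agent.Lib.MP_0dbebe_co.OneSub

/-- the disjoint union of `H` and of one complete graph on `k` vertices for each vertex of `H` -/
def plus {V : Type} (H : SimpleGraph V) (k : ℕ) : SimpleGraph (V ⊕ V × Fin k) where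
  Adj x y := match x, y with
    | Sum.inl u, Sum.inl v => H.Adj u v
    | Sum.inr a, Sum.inr b => a.1 = b.1 ∧ a.2 ≠ b.2
    | _, _ => False
  symm := ⟨by
    intro x y h
    rcases x with u | a <;> rcases y with v | b
    · exact SimpleGraph.Adj.symm (G := H) h
    · exact h
    · exact h
    · exact ⟨h.1.symm, h.2.symm⟩⟩
  loopless := ⟨by
    intro x h
    rcases x with u | a
    · exact H.loopless.irrefl u h
    · exact h.2 rfl⟩

theorem plus_inl {V : Type} (H : SimpleGraph V) (k : ℕ) {u v : V} (h : H.Adj u v) :
    (plus H k).Adj (Sum.inl u) (Sum.inl v) := h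

/-- the number of edges of `plus H k` -/
theorem ncard_plus {V : Type} [Finite V] (H : SimpleGraph V) (k : ℕ) :
    2 * (plus H k).edgeSet.ncard = 2 * H.edgeSet.ncard + Nat.card V * (k * (k - 1)) := by
  classical
  have : Fintype V := Fintype.ofFinite V
  have e1 : (plus H k).edgeSet.ncard = (plus H k).edgeFinset.card := by
    rw [← Set.ncard_coe_finset, SimpleGraph.coe_edgeFinset]
  have e2 : H.edgeSet.ncard = H.edgeFinset.card := by
    rw [← Set.ncard_coe_finset, SimpleGraph.coe_edgeFinset]
  rw [e1, e2, ← SimpleGraph.sum_degrees_eq_twice_card_edges, ← SimpleGraph.sum_degrees_eq_twice_card_edges,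
    Fintype.sum_sum_type]
  have h1 : ∀ u : V, (plus H k).degree (Sum.inl u) = H.degree u := by
    intro u
    rw [← SimpleGraph.card_neighborFinset_eq_degree, ← SimpleGraph.card_neighborFinset_eq_degree,
      ← Finset.card_map (⟨Sum.inl, Sum.inl_injective⟩ : V ↪ V ⊕ V × Fin k)]
    congr 1
    ext x
    rw [SimpleGraph.mem_neighborFinset, Finset.mem_map]
    rcases x with v | b
    · constructor
      · intro h
        exact ⟨v, (SimpleGraph.mem_neighborFinset _ _ _).2 h, rfl⟩
      · rintro ⟨w, hw, h⟩
        have : w = v := Sum.inl_injective h
        subst this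
        have h5 : H.Adj u w := (SimpleGraph.mem_neighborFinset _ _ _).1 hw
        exact h5
    · constructor
      · intro h
        exact h.elim
      · rintro ⟨w, _, h⟩
        exact absurd h (by simp)
  have h2 : ∀ a : V × Fin k, (plus H k).degree (Sum.inr a) = k - 1 := by
    intro a
    have h3 : (plus H k).neighborFinset (Sum.inr a) =
        (Finset.univ.erase a.2).map ⟨fun j => Sum.inr (a.1, j), fun i j h => by simpa using h⟩ := by
      ext x
      rw [SimpleGraph.mem_neighborFinset, Finset.mem_map]
      rcases x with v | b
      · constructor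
        · intro h
          exact h.elim
        · rintro ⟨w, _, h⟩
          exact absurd h (by simp)
      · constructor
        · intro h
          refine ⟨b.2, Finset.mem_erase.2 ⟨fun e => h.2 e.symm, Finset.mem_univ _⟩, ?_⟩
          show Sum.inr (a.1, b.2) = Sum.inr b
          rw [h.1]
        · rintro ⟨w, hw, h⟩
          have h4 : (a.1, w) = b := Sum.inr_injective h
          subst h4
          exact ⟨rfl, fun e => (Finset.mem_erase.1 hw).1 e.symm⟩
    rw [← SimpleGraph.card_neighborFinset_eq_degree, h3, Finset.card_map, Finset.card_erase_of_mem (Finset.mem_univ _),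
      Finset.card_univ, Fintype.card_fin]
  simp only [h1, h2, Finset.sum_const, Finset.card_univ, Fintype.card_prod, Fintype.card_fin, smul_eq_mul,
    Nat.card_eq_fintype_card]
  ring

end Pool.Agent.Lib.MP_0dbebe_co.OneSub
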