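import Pool.Agent.Lib.MP_0dbebe_co.OneSub.Defs

/-! Module TSET. -/

set_option autoImplicit false

namespace Pool.Agent.Lib.MP_0dbebe_co.OneSub

open Finset
open scoped Classical

theorem tset {V : Type} [Fintype V] [Nonempty V] (c : V → V → Bool) (g : ℝ) (hg : 0 ≤ g)
    (r : ℕ) (hr : 1 ≤ r) (ρ : ℝ) (u v : Fin r → V)
    (huu : ∀ a b, a ≠ b → G c (u a) (u b) ≤ g + ρ) (hvv : ∀ a b, a ≠ b → G c (v a) (v b) ≤ g + ρ)
    (huv : ∀ a b, g - ρ ≤ G c (u a) (v b)) (hρ : 0 ≤ ρ) :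
    ((univ.filter fun x => (∀ a b, c (u a) x = c (u b) x) ∧ ∀ a b, c (v a) x ≠ c (u b) x).card : ℝ)
      ≤ (1 / (2 * r) + ρ) * Fintype.card V := by
  have hf : (0 : ℝ) < Fintype.card V := by exact_mod_cast Fintype.card_pos
  have hr' : (1 : ℝ) ≤ r := by exact_mod_cast hr
  have hG : ∀ p q : Fin r → V, ∑ x, (∑ a, sg (c (p a) x)) * (∑ b, sg (c (q b) x)) =
      (Fintype.card V : ℝ) * ∑ a, ∑ b, G c (p a) (q b) := by
    intro p q
    simp only [Finset.sum_mul_sum]
    rw [Finset.sum_comm, Finset.mul_sum]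
    refine Finset.sum_congr rfl (fun a _ => ?_)
    rw [Finset.sum_comm, Finset.mul_sum]
    refine Finset.sum_congr rfl (fun b _ => ?_)
    unfold G
    field_simp
  have hself : ∀ w : V, G c w w = 1 := by
    intro w
    unfold G
    simp only [sg_mul_self, Finset.sum_const, Finset.card_univ, nsmul_eq_mul, mul_one]
    exact div_self hf.ne'
  have hdiag : ∀ p : Fin r → V, (∀ a b, a ≠ b → G c (p a) (p b) ≤ g + ρ) →
      ∑ a, ∑ b, G c (p a) (p b) ≤ r * (1 + (r - 1) * (g + ρ)) := by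
    intro p hp
    have h1 : ∀ a ∈ (univ : Finset (Fin r)), ∑ b, G c (p a) (p b) ≤ 1 + (r - 1) * (g + ρ) := by
      intro a _
      rw [← Finset.add_sum_erase univ _ (Finset.mem_univ a), hself]
      have h2 := Finset.sum_le_card_nsmul (univ.erase a) (fun b => G c (p a) (p b)) (g + ρ)
        (fun b hb => hp a b (Finset.ne_of_mem_erase hb).symm)
      rw [Finset.card_erase_of_mem (Finset.mem_univ a), Finset.card_univ, Fintype.card_fin,
        nsmul_eq_mul, Nat.cast_sub hr] at h2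
      push_cast at h2
      linarith
    refine (Finset.sum_le_card_nsmul _ _ _ h1).trans ?_
    rw [Finset.card_univ, Fintype.card_fin, nsmul_eq_mul]
  have huv' : (r : ℝ) * (r * (g - ρ)) ≤ ∑ a, ∑ b, G c (u a) (v b) := by
    have h1 : ∀ a ∈ (univ : Finset (Fin r)), r * (g - ρ) ≤ ∑ b, G c (u a) (v b) := by
      intro a _
      have h2 := Finset.card_nsmul_le_sum univ (fun b => G c (u a) (v b)) (g - ρ)
        (fun b _ => huv a b)
      rw [Finset.card_univ, Fintype.card_fin, nsmul_eq_mul] at h2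
      exact h2
    have h2 := Finset.card_nsmul_le_sum univ (fun a => ∑ b, G c (u a) (v b)) _ h1
    rw [Finset.card_univ, Fintype.card_fin, nsmul_eq_mul] at h2
    exact h2
  set z : V → ℝ := fun x => ∑ a, sg (c (u a) x) - ∑ a, sg (c (v a) x) with hz
  have hsum : ∑ x, z x ^ 2 ≤ (Fintype.card V : ℝ) * (2 * r + 4 * r ^ 2 * ρ) := by
    have e : ∑ x, z x ^ 2 = (Fintype.card V : ℝ) * ∑ a, ∑ b, G c (u a) (u b) +
        (Fintype.card V : ℝ) * ∑ a, ∑ b, G c (v a) (v b) -
        2 * ((Fintype.card V : ℝ) * ∑ a, ∑ b, G c (u a) (v b)) := by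
      rw [← hG u u, ← hG v v, ← hG u v, ← Finset.sum_add_distrib, Finset.mul_sum,
        ← Finset.sum_sub_distrib]
      refine Finset.sum_congr rfl (fun x _ => ?_)
      rw [hz]
      ring
    rw [e]
    have h1 := hdiag u huu
    have h2 := hdiag v hvv
    have h3 : ∑ a, ∑ b, G c (u a) (u b) + ∑ a, ∑ b, G c (v a) (v b)
        - 2 * ∑ a, ∑ b, G c (u a) (v b) ≤ 2 * r + 4 * r ^ 2 * ρ := by
      have : 0 ≤ (r : ℝ) * (g + ρ) := by positivity
      nlinarith
    have := mul_le_mul_of_nonneg_left h3 hf.le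
    linarith
  set A := univ.filter fun x => (∀ a b, c (u a) x = c (u b) x) ∧ ∀ a b, c (v a) x ≠ c (u b) x
    with hA
  have hzA : ∀ x ∈ A, z x ^ 2 = 4 * r ^ 2 := by
    intro x hx
    rw [hA, Finset.mem_filter] at hx
    obtain ⟨-, h1, h2⟩ := hx
    set a0 : Fin r := ⟨0, hr⟩ with ha0
    have e1 : ∑ a, sg (c (u a) x) = r * sg (c (u a0) x) := by
      rw [Finset.sum_congr rfl (fun a _ => by rw [h1 a a0])]
      simp
    have e2 : ∑ a, sg (c (v a) x) = r * (-sg (c (u a0) x)) := by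
      have : ∀ a ∈ (univ : Finset (Fin r)), sg (c (v a) x) = -sg (c (u a0) x) := by
        intro a _
        have h3 := h2 a a0
        cases h4 : c (v a) x <;> cases h5 : c (u a0) x <;> simp_all [sg]
      rw [Finset.sum_congr rfl this]
      simp
    rw [hz]
    simp only
    rw [e1, e2]
    have := sg_mul_self (c (u a0) x)
    nlinarith
  have h5 : (A.card : ℝ) * (4 * r ^ 2) ≤ ∑ x, z x ^ 2 := by
    calc (A.card : ℝ) * (4 * r ^ 2) = ∑ x ∈ A, z x ^ 2 := by
          rw [Finset.sum_congr rfl hzA]; simp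
      _ ≤ ∑ x, z x ^ 2 := Finset.sum_le_univ_sum_of_nonneg (fun x => sq_nonneg _)
  have h6 : (A.card : ℝ) * (4 * r ^ 2) ≤ ((1 / (2 * r) + ρ) * Fintype.card V) * (4 * r ^ 2) := by
    refine (h5.trans hsum).trans (le_of_eq ?_)
    field_simp
    ring
  exact le_of_mul_le_mul_right h6 (by positivity)

end Pool.Agent.Lib.MP_0dbebe_co.OneSub
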